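import Mathlib
import Pool.Agent.Pi2.Defs

/-!
# Constants and places

`Ω` is algebraically closed and algebraic over `F`, `W` a place of `Ω/K` whose restriction to `F`
is rational.  Every element of `W` is congruent to a unique constant, i.e. to an element of `Ω`
algebraic over `K`.
-/

set_option autoImplicit false

universe u

open Polynomial

namespace PiCurve

variable {K : Type u} [Field K]

section basics

variable {E : Type u} [Field E] {E' : Type u} [Field E'] [Algebra E E']

theorem comap_val_lt_one (W : ValuationSubring E') (f : E) :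
    (W.comap (algebraMap E E')).valuation f < 1 ↔ W.valuation (algebraMap E E' f) < 1 := by
  rw [← ValuationSubring.mem_nonunits_iff, ← ValuationSubring.mem_nonunits_iff,
    ValuationSubring.mem_nonunits_iff_or, ValuationSubring.mem_nonunits_iff_or]
  simp [ValuationSubring.mem_comap]

end basics

section const

variable {Ω : Type u} [Field Ω] [Algebra K Ω] {W : ValuationSubring Ω}

theorem mem_of_isAlgebraic (hW : ∀ a : K, algebraMap K Ω a ∈ W) {c : Ω} (hc : IsAlgebraic K c) :
    c ∈ W := by
  obtain ⟨p, hp, hpc⟩ := hc.isIntegral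
  let j : K →+* W := (algebraMap K Ω).codRestrict W.toSubring hW
  have h : IsIntegral W c := by
    refine ⟨p.map j, hp.map j, ?_⟩
    rw [eval₂_map]
    exact hpc
  obtain ⟨y, hy⟩ := IsIntegrallyClosed.algebraMap_eq_of_integral (R := W) (K := Ω) h
  rw [← hy]
  exact y.2

theorem val_eq_one_of_isAlgebraic (hW : ∀ a : K, algebraMap K Ω a ∈ W) {c : Ω}
    (hc : IsAlgebraic K c) (h0 : c ≠ 0) : W.valuation c = 1 := by
  apply le_antisymm
  · exact (W.valuation_le_one_iff c).2 (mem_of_isAlgebraic hW hc)
  · have h := (W.valuation_le_one_iff c⁻¹).2 (mem_of_isAlgebraic hW hc.inv)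
    rw [map_inv₀] at h
    exact (inv_le_one₀ (zero_lt_iff.2 ((Valuation.ne_zero_iff _).2 h0))).1 h

theorem eq_zero_of_val_lt_one (hW : ∀ a : K, algebraMap K Ω a ∈ W) {c : Ω}
    (hc : IsAlgebraic K c) (h : W.valuation c < 1) : c = 0 := by
  by_contra h0
  exact h.ne (val_eq_one_of_isAlgebraic hW hc h0)

/-- two constants congruent modulo a place are equal -/
theorem const_unique (hW : ∀ a : K, algebraMap K Ω a ∈ W) {c d f : Ω}
    (hc : IsAlgebraic K c) (hd : IsAlgebraic K d) (h1 : W.valuation (f - c) < 1)
    (h2 : W.valuation (f - d) < 1) : c = d := by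
  have h3 : W.valuation (c - d) < 1 := by
    have : c - d = (f - d) - (f - c) := by ring
    rw [this]
    exact Valuation.map_sub_lt _ h2 h1
  exact sub_eq_zero.1 (eq_zero_of_val_lt_one hW (hc.sub hd) h3)

end const

variable {F Ω : Type u} [Field F] [Algebra K F] [Field Ω] [Algebra F Ω] [Algebra K Ω]
  [IsScalarTower K F Ω]

/-- Every element of a place of `Ω` over a rational place is congruent to a constant. -/
theorem exists_const [Algebra.IsAlgebraic F Ω] [IsAlgClosed Ω] {W : ValuationSubring Ω}
    (hW : ∀ a : K, algebraMap K Ω a ∈ W) (hr : IsRational K (W.comap (algebraMap F Ω)))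
    {f : Ω} (hf : f ∈ W) : ∃ c : Ω, IsAlgebraic K c ∧ W.valuation (f - c) < 1 := by
  classical
  set v := W.valuation with hv
  obtain ⟨p, hp0, hpf⟩ := Algebra.IsAlgebraic.isAlgebraic (R := F) f
  -- coefficient of maximal value
  obtain ⟨j, hj, hmax⟩ := Finset.exists_max_image p.support
    (fun i => v (algebraMap F Ω (p.coeff i))) (by simpa using hp0)
  have haj : p.coeff j ≠ 0 := by simpa using hj
  have hmax' : ∀ i, v (algebraMap F Ω (p.coeff i)) ≤ v (algebraMap F Ω (p.coeff j)) := by
    intro i
    by_cases hi : i ∈ p.support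
    · exact hmax i hi
    · have : p.coeff i = 0 := by simpa using hi
      rw [this, map_zero, map_zero]
      exact zero_le
  let q : F[X] := C (p.coeff j)⁻¹ * p
  have hqi : ∀ i, q.coeff i = (p.coeff j)⁻¹ * p.coeff i := fun i => by simp [q]
  have hqj : q.coeff j = 1 := by rw [hqi, inv_mul_cancel₀ haj]
  have hqf : aeval f q = 0 := by simp [q, hpf]
  have hqW : ∀ i, q.coeff i ∈ W.comap (algebraMap F Ω) := by
    intro i
    rw [ValuationSubring.mem_comap, ← W.valuation_le_one_iff, hqi, map_mul, map_inv₀, map_mul,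
      map_inv₀]
    have hpos : 0 < v (algebraMap F Ω (p.coeff j)) :=
      zero_lt_iff.2 ((Valuation.ne_zero_iff _).2 (by simpa using haj))
    rw [inv_mul_le_iff₀ hpos, mul_one]
    exact hmax' i
  choose α hα using fun i => hr.2 (q.coeff i) (hqW i)
  have hα' : ∀ i, v (algebraMap F Ω (q.coeff i) - algebraMap K Ω (α i)) < 1 := by
    intro i
    obtain ⟨g, hg1, hg2⟩ := hα i
    rw [comap_val_lt_one] at hg2
    rw [IsScalarTower.algebraMap_apply K F Ω, ← map_sub, hg1]
    exact hg2
  let P : K[X] := ∑ i ∈ q.support, monomial i (α i)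
  have hjq : j ∈ q.support := by simp [hqj]
  have hPj : P.coeff j ≠ 0 := by
    have h1 : P.coeff j = α j := by
      simp only [P, finsetSum_coeff, coeff_monomial]
      rw [Finset.sum_ite_eq' q.support j α, if_pos hjq]
    rw [h1]
    intro h0
    have := hα' j
    rw [hqj, h0, map_zero, map_one, sub_zero, map_one] at this
    exact lt_irrefl _ this
  have hP0 : P ≠ 0 := fun h => hPj (by rw [h, coeff_zero])
  have hPf : v (aeval f P) < 1 := by
    have h1 : aeval f P = ∑ i ∈ q.support, algebraMap K Ω (α i) * f ^ i := by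
      simp [P, map_sum, aeval_monomial]
    have h2 : aeval f q = ∑ i ∈ q.support, algebraMap F Ω (q.coeff i) * f ^ i := by
      rw [aeval_eq_sum_range' (n := q.natDegree + 1) (Nat.lt_succ_self _)]
      simp only [Algebra.smul_def]
      symm
      apply Finset.sum_subset
      · intro i hi
        rw [Finset.mem_range]
        exact Nat.lt_succ_of_le (le_natDegree_of_mem_supp i hi)
      · intro i _ hi
        have : q.coeff i = 0 := by simpa using hi
        rw [this, map_zero, zero_mul]
    have h3 : aeval f P = -∑ i ∈ q.support,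
        (algebraMap F Ω (q.coeff i) - algebraMap K Ω (α i)) * f ^ i := by
      simp only [sub_mul]
      rw [Finset.sum_sub_distrib, ← h2, hqf, h1]
      ring
    rw [h3, Valuation.map_neg]
    refine Valuation.map_sum_lt _ one_ne_zero fun i _ => ?_
    rw [map_mul, map_pow]
    have hf1 : v f ^ i ≤ 1 := pow_le_one' ((W.valuation_le_one_iff f).2 hf) i
    calc v (algebraMap F Ω (q.coeff i) - algebraMap K Ω (α i)) * v f ^ i
        ≤ v (algebraMap F Ω (q.coeff i) - algebraMap K Ω (α i)) * 1 :=
          mul_le_mul_right hf1 _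
      _ < 1 := by rw [mul_one]; exact hα' i
  -- factor over the algebraically closed field
  have hsplit := IsAlgClosed.splits (P.map (algebraMap K Ω))
  have hPm0 : P.map (algebraMap K Ω) ≠ 0 := (Polynomial.map_ne_zero_iff
    (algebraMap K Ω).injective).2 hP0
  have heval : aeval f P = (P.map (algebraMap K Ω)).leadingCoeff *
      ((P.map (algebraMap K Ω)).roots.map fun a => f - a).prod := by
    rw [← eval_map_algebraMap, hsplit.eval_eq_prod_roots]
  have hlead : v (P.map (algebraMap K Ω)).leadingCoeff = 1 := by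
    rw [leadingCoeff_map]
    apply val_eq_one_of_isAlgebraic hW (isAlgebraic_algebraMap _)
    simpa using hP0
  rw [heval, map_mul, hlead, one_mul] at hPf
  by_contra hcon
  push Not at hcon
  have hall : ∀ s : Multiset Ω, (∀ a ∈ s, IsAlgebraic K a) →
      1 ≤ v ((s.map fun a => f - a).prod) := by
    intro s
    induction s using Multiset.induction_on with
    | empty => intro _; simp
    | cons a s ih =>
      intro hs
      rw [Multiset.map_cons, Multiset.prod_cons, map_mul]
      have h1 := hcon a (hs a (Multiset.mem_cons_self a s))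
      have h2 := ih fun b hb => hs b (Multiset.mem_cons_of_mem hb)
      exact one_le_mul h1 h2
  refine absurd hPf (not_lt.2 (hall _ fun a ha => ?_))
  exact ⟨P, hP0, by
    have := (mem_roots hPm0).1 ha
    rwa [IsRoot.def, eval_map_algebraMap] at this⟩

/-- elements of an inertia group fix the constants -/
theorem inertia_fix {W : ValuationSubring Ω} (hW : ∀ a : K, algebraMap K Ω a ∈ W)
    {σ : Ω ≃ₐ[F] Ω} (hσ : σ ∈ inertia (F := F) W) {c : Ω} (hc : IsAlgebraic K c) : σ c = c := by
  have h1 := hσ c (mem_of_isAlgebraic hW hc)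
  have h2 : IsAlgebraic K (σ c) :=
    (isAlgebraic_algHom_iff ((σ : Ω →ₐ[F] Ω).restrictScalars K) σ.injective).2 hc
  exact sub_eq_zero.1 (eq_zero_of_val_lt_one hW (h2.sub hc) h1)

/-- the subgroup of automorphisms fixing all constants -/
def fixConst (K : Type u) [Field K] {F Ω : Type u} [Field F] [Field Ω] [Algebra F Ω]
    [Algebra K Ω] : Subgroup (Ω ≃ₐ[F] Ω) where
  carrier := {σ | ∀ c : Ω, IsAlgebraic K c → σ c = c}
  mul_mem' := by
    intro a b ha hb c hc
    rw [AlgEquiv.mul_apply, hb c hc, ha c hc]
  one_mem' := by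
    intro c _
    rfl
  inv_mem' := by
    intro a ha c hc
    have := ha c hc
    rw [AlgEquiv.aut_inv, AlgEquiv.symm_apply_eq]
    exact this.symm

omit [Algebra K F] [IsScalarTower K F Ω] in
theorem mem_fixConst {σ : Ω ≃ₐ[F] Ω} :
    σ ∈ fixConst (F := F) (Ω := Ω) K ↔ ∀ c : Ω, IsAlgebraic K c → σ c = c := Iff.rfl

instance : (fixConst (F := F) (Ω := Ω) K).Normal where
  conj_mem := by
    intro n hn g c hc
    have h2 : IsAlgebraic K (g⁻¹ c) :=
      (isAlgebraic_algHom_iff (((g⁻¹ : Ω ≃ₐ[F] Ω) : Ω →ₐ[F] Ω).restrictScalars K)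
        (g⁻¹).injective).2 hc
    rw [AlgEquiv.mul_apply, AlgEquiv.mul_apply, hn _ h2, ← AlgEquiv.mul_apply, mul_inv_cancel,
      AlgEquiv.one_apply]

theorem fixConst_isClosed [Algebra.IsAlgebraic F Ω] :
    IsClosed (fixConst (F := F) (Ω := Ω) K : Set (Ω ≃ₐ[F] Ω)) := by
  have h : (fixConst (F := F) (Ω := Ω) K : Set (Ω ≃ₐ[F] Ω)) =
      ⋂ (c : Ω) (_ : IsAlgebraic K c),
        ((IntermediateField.adjoin F {c}).fixingSubgroup : Set (Ω ≃ₐ[F] Ω)) := by
    ext σ
    simp only [SetLike.mem_coe, mem_fixConst, Set.mem_iInter]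
    refine forall₂_congr fun c _ => ?_
    rw [IntermediateField.mem_fixingSubgroup_iff]
    constructor
    · intro h x hx
      have hle : IntermediateField.adjoin F {c} ≤
          IntermediateField.fixedField (Subgroup.zpowers σ) := by
        rw [IntermediateField.adjoin_simple_le_iff, IntermediateField.mem_fixedField_iff]
        intro g hg
        obtain ⟨n, rfl⟩ := Subgroup.mem_zpowers_iff.1 hg
        have hmem : σ ^ n ∈ MulAction.stabilizer (Ω ≃ₐ[F] Ω) c :=
          Subgroup.zpow_mem _ (by rw [MulAction.mem_stabilizer_iff]; exact h) n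
        exact MulAction.mem_stabilizer_iff.1 hmem
      exact (IntermediateField.mem_fixedField_iff _ _).1 (hle hx) σ (Subgroup.mem_zpowers σ)
    · intro h
      exact h c (IntermediateField.mem_adjoin_simple_self F c)
  rw [h]
  refine isClosed_biInter fun c _ => ?_
  have : FiniteDimensional F (IntermediateField.adjoin F {c}) :=
    IntermediateField.adjoin.finiteDimensional (Algebra.IsIntegral.isIntegral c)
  exact IntermediateField.fixingSubgroup_isClosed _

/-- the subgroup generated by inertia fixes the constants -/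
theorem ramSubgroup_fix [Algebra.IsAlgebraic F Ω] (S : Finset (ValuationSubring F)) :
    ramSubgroup K Ω S ≤ fixConst (F := F) (Ω := Ω) K := by
  refine Subgroup.topologicalClosure_minimal _ ?_ fixConst_isClosed
  apply Subgroup.normalClosure_le_normal
  intro σ hσ
  simp only [Set.mem_iUnion] at hσ
  obtain ⟨W, ⟨hW, -⟩, hσ⟩ := hσ
  exact fun c hc => inertia_fix hW.1 hσ hc

end PiCurve
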