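import Mathlib

/-!
# Automorphism groups of normal algebraic extensions

Compactness of the Krull topology and the closed subgroup correspondence for normal algebraic,
not necessarily separable, extensions.
-/

set_option autoImplicit false

universe u

open Polynomial Topology

namespace PiCurve

variable {F Ω : Type u} [Field F] [Field Ω] [Algebra F Ω]

/-- `Ω` is Galois over the field of invariants of its automorphism group. -/
theorem isGalois_fixedField_top [Normal F Ω] :
    IsGalois (IntermediateField.fixedField (⊤ : Subgroup (Ω ≃ₐ[F] Ω))) Ω := by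
  classical
  set E := IntermediateField.fixedField (⊤ : Subgroup (Ω ≃ₐ[F] Ω)) with hE
  have hn : Normal E Ω := inferInstance
  have hs : Algebra.IsSeparable E Ω := by
    constructor
    intro x
    have hint : IsIntegral F x := Algebra.IsIntegral.isIntegral x
    let S : Finset Ω := ((minpoly F x).map (algebraMap F Ω)).roots.toFinset
    have hS : ∀ y, y ∈ S ↔ aeval y (minpoly F x) = 0 := by
      intro y
      rw [Multiset.mem_toFinset, mem_roots ((Polynomial.map_ne_zero_iff
        (algebraMap F Ω).injective).2 (minpoly.ne_zero hint)), IsRoot.def, eval_map_algebraMap]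
    let P : Polynomial Ω := ∏ y ∈ S, (X - C y)
    have hPσ : ∀ σ : Ω ≃ₐ[F] Ω, P.map (σ : Ω →+* Ω) = P := by
      intro σ
      simp only [P, Polynomial.map_prod, Polynomial.map_sub, map_X, map_C]
      refine Finset.prod_bij (fun y _ => σ y) ?_ ?_ ?_ ?_
      · intro y hy
        rw [hS] at hy ⊢
        rw [aeval_algEquiv, AlgHom.comp_apply]
        simp [hy]
      · intro y _ z _ h
        exact σ.injective h
      · intro y hy
        refine ⟨σ.symm y, ?_, σ.apply_symm_apply y⟩
        rw [hS] at hy ⊢
        rw [aeval_algEquiv, AlgHom.comp_apply]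
        simp [hy]
      · intro y _
        rfl
    have hcoef : ∀ i, P.coeff i ∈ E := by
      intro i
      rw [hE, IntermediateField.mem_fixedField_iff]
      intro σ _
      have := congrArg (fun p => p.coeff i) (hPσ σ)
      simpa [coeff_map] using this
    have hlift : P ∈ Polynomial.lifts (algebraMap E Ω) := by
      rw [Polynomial.lifts_iff_coeff_lifts]
      intro i
      exact ⟨⟨P.coeff i, hcoef i⟩, rfl⟩
    obtain ⟨Q, hQ⟩ := (Polynomial.mem_lifts _).1 hlift
    have hPs : P.Separable := separable_prod_X_sub_C_iff'.2 fun y _ z _ h => h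
    have hQs : Q.Separable := by
      rw [← separable_map (algebraMap E Ω), hQ]
      exact hPs
    have hQx : aeval x Q = 0 := by
      rw [← eval_map_algebraMap, hQ, eval_prod]
      exact Finset.prod_eq_zero ((hS x).2 (minpoly.aeval F x)) (by simp)
    exact hQs.of_dvd (minpoly.dvd E x hQx)
  exact ⟨⟩

/-- The automorphism group of a normal algebraic extension is compact. -/
theorem compactSpace_gal [Normal F Ω] : CompactSpace (Ω ≃ₐ[F] Ω) := by
  set E := IntermediateField.fixedField (⊤ : Subgroup (Ω ≃ₐ[F] Ω)) with hE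
  have hG : IsGalois E Ω := isGalois_fixedField_top
  let r : (Ω ≃ₐ[E] Ω) →* (Ω ≃ₐ[F] Ω) :=
    { toFun := fun σ => σ.restrictScalars F
      map_one' := rfl
      map_mul' := fun _ _ => rfl }
  have hr : Function.Surjective r := by
    intro σ
    refine ⟨{ σ with commutes' := fun e => ?_ }, AlgEquiv.ext fun _ => rfl⟩
    exact (IntermediateField.mem_fixedField_iff _ _).1 e.2 σ (Subgroup.mem_top σ)
  have hc : Continuous r := by
    apply continuous_of_continuousAt_one
    rw [continuousAt_def, map_one]
    intro s hs
    obtain ⟨L, hL, hLs⟩ := (krullTopology_mem_nhds_one_iff F Ω s).1 hs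
    rw [krullTopology_mem_nhds_one_iff]
    obtain ⟨t, ht⟩ := IntermediateField.fg_def.1
      (IntermediateField.essFiniteType_iff.1 (inferInstance : Algebra.EssFiniteType F L))
    refine ⟨IntermediateField.adjoin E t, ?_, ?_⟩
    · have := ht.1.to_subtype
      exact IntermediateField.finiteDimensional_adjoin fun x _ => Algebra.IsIntegral.isIntegral x
    · intro σ hσ
      apply hLs
      rw [SetLike.mem_coe, IntermediateField.mem_fixingSubgroup_iff] at hσ ⊢
      have hle : L ≤ (IntermediateField.adjoin E t).restrictScalars F := by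
        rw [← ht.2, IntermediateField.adjoin_le_iff]
        intro x hx
        exact IntermediateField.subset_adjoin E t hx
      intro x hx
      exact hσ x (hle hx)
  have := isCompact_range hc
  rw [hr.range_eq] at this
  exact ⟨this⟩

/-- A closed subgroup is the group of all automorphisms fixing its invariants. -/
theorem mem_of_fixes_fixedField [Normal F Ω] (H : Subgroup (Ω ≃ₐ[F] Ω))
    (hH : IsClosed (H : Set (Ω ≃ₐ[F] Ω))) (σ : Ω ≃ₐ[F] Ω)
    (hσ : ∀ x : Ω, (∀ h ∈ H, h x = x) → σ x = x) : σ ∈ H := by
  rw [← SetLike.mem_coe, ← hH.closure_eq, mem_closure_iff_nhds]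
  intro U hU
  have hU1 : (fun g => σ * g) ⁻¹' U ∈ 𝓝 (1 : Ω ≃ₐ[F] Ω) := by
    have : Continuous fun g : Ω ≃ₐ[F] Ω => σ * g := continuous_const_mul σ
    apply this.continuousAt
    simpa using hU
  obtain ⟨L, hL1, hL2, hL3⟩ := (krullTopology_mem_nhds_one_iff_of_normal F Ω _).1 hU1
  let Hb : Subgroup (L ≃ₐ[F] L) := H.map (AlgEquiv.restrictNormalHom L)
  have hmem : AlgEquiv.restrictNormalHom L σ ∈ Hb := by
    rw [← IntermediateField.fixingSubgroup_fixedField Hb, IntermediateField.mem_fixingSubgroup_iff]
    intro x hx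
    apply Subtype.ext
    rw [AlgEquiv.restrictNormalHom_apply]
    apply hσ
    intro h hh
    have := (IntermediateField.mem_fixedField_iff _ _).1 hx (AlgEquiv.restrictNormalHom L h)
      (Subgroup.mem_map_of_mem _ hh)
    rw [← AlgEquiv.restrictNormalHom_apply, this]
  obtain ⟨h, hh, he⟩ := hmem
  refine ⟨h, ?_, hh⟩
  have h1 : σ⁻¹ * h ∈ (L.fixingSubgroup : Set (Ω ≃ₐ[F] Ω)) := by
    rw [SetLike.mem_coe, IntermediateField.mem_fixingSubgroup_iff]
    intro x hx
    have h2 := congrArg (fun f : L ≃ₐ[F] L => ((f ⟨x, hx⟩ : L) : Ω)) he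
    simp only [AlgEquiv.restrictNormalHom_apply] at h2
    rw [AlgEquiv.mul_apply, h2, ← AlgEquiv.mul_apply, inv_mul_cancel, AlgEquiv.one_apply]
  have h3 := hL3 h1
  simpa using h3

end PiCurve
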