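import Mathlib
import Pool.Agent.Helper10.Pi2.Galois

/-!
# Valuation rings of a normal algebraic extension

The automorphism group of a normal algebraic extension `Ω/E` permutes transitively the valuation
rings of `Ω` above a given valuation ring of `E`.
-/

set_option autoImplicit false

universe u

open Polynomial Topology
open scoped Pointwise

namespace PiCurve

variable {E Ω : Type u} [Field E] [Field Ω] [Algebra E Ω]

/-- the intersection of all valuation rings of `Ω` above `V` -/
def bigRing (Ω : Type u) [Field Ω] [Algebra E Ω] (V : ValuationSubring E) : Subring Ω :=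
  ⨅ W : {W : ValuationSubring Ω // W.comap (algebraMap E Ω) = V}, W.1.toSubring

theorem mem_bigRing {V : ValuationSubring E} {x : Ω} :
    x ∈ bigRing Ω V ↔ ∀ W : ValuationSubring Ω, W.comap (algebraMap E Ω) = V → x ∈ W := by
  rw [bigRing, Subring.mem_iInf]
  exact ⟨fun h W hW => h ⟨W, hW⟩, fun h W => h W.1 W.2⟩

/-- normalisation of a polynomial with respect to a valuation ring -/
theorem exists_normalised (V : ValuationSubring E) (p : E[X]) (hp : p ≠ 0) :
    ∃ (q : E[X]) (j : ℕ) (u : E), q = C u * p ∧ q.coeff j = 1 ∧ (∀ i, q.coeff i ∈ V) ∧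
      ∀ i, j < i → V.valuation (q.coeff i) < 1 := by
  classical
  obtain ⟨j₀, hj₀, hmax⟩ := Finset.exists_max_image p.support
    (fun i => V.valuation (p.coeff i)) (by simpa using hp)
  let T : Finset ℕ := p.support.filter fun i => V.valuation (p.coeff i) = V.valuation (p.coeff j₀)
  have hT : T.Nonempty := ⟨j₀, Finset.mem_filter.2 ⟨hj₀, rfl⟩⟩
  obtain ⟨hjs, hjv⟩ := Finset.mem_filter.1 (T.max'_mem hT)
  set j := T.max' hT with hj
  have haj : p.coeff j ≠ 0 := by simpa using hjs
  have hpos : 0 < V.valuation (p.coeff j) := zero_lt_iff.2 ((Valuation.ne_zero_iff _).2 haj)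
  have hmax' : ∀ i, V.valuation (p.coeff i) ≤ V.valuation (p.coeff j) := by
    intro i
    rw [hjv]
    by_cases hi : i ∈ p.support
    · exact hmax i hi
    · have : p.coeff i = 0 := by simpa using hi
      rw [this, map_zero]
      exact zero_le
  refine ⟨C (p.coeff j)⁻¹ * p, j, (p.coeff j)⁻¹, rfl, ?_, ?_, ?_⟩
  · rw [coeff_C_mul, inv_mul_cancel₀ haj]
  · intro i
    rw [← V.valuation_le_one_iff, coeff_C_mul, map_mul, map_inv₀, inv_mul_le_iff₀ hpos, mul_one]
    exact hmax' i
  · intro i hi
    rw [coeff_C_mul, map_mul, map_inv₀, inv_mul_lt_iff₀ hpos, mul_one]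
    refine lt_of_le_of_ne (hmax' i) fun h => ?_
    have h0 : p.coeff i ≠ 0 := fun h0 => hpos.ne' (by rw [← h, h0, map_zero])
    have : i ∈ T := by
      simp only [T, Finset.mem_filter]
      exact ⟨by simpa using h0, h.trans hjv⟩
    exact absurd (T.le_max' i this) (not_le.2 hi)

/-- Every element of a valuation ring above `V` is a quotient `z / y` with `y, z` in all valuation
rings above `V` and `y` a unit in the given one. -/
theorem exists_fraction [Algebra.IsAlgebraic E Ω] (W : ValuationSubring Ω) {f : Ω} (hf : f ∈ W) :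
    ∃ y z : Ω, y ∈ bigRing Ω (W.comap (algebraMap E Ω)) ∧
      z ∈ bigRing Ω (W.comap (algebraMap E Ω)) ∧ f * y = z ∧ W.valuation y = 1 := by
  obtain ⟨p, hp0, hpf⟩ := Algebra.IsAlgebraic.isAlgebraic (R := E) f
  obtain ⟨q, j, u, hq, hj, hV, hm⟩ := exists_normalised (W.comap (algebraMap E Ω)) p hp0
  have hqf : aeval f q = 0 := by rw [hq]; simp [hpf]
  set b : ℕ → Ω := fun i => algebraMap E Ω (q.coeff i) with hb
  have hbW : ∀ (W' : ValuationSubring Ω), W'.comap (algebraMap E Ω) =
      W.comap (algebraMap E Ω) → ∀ i, b i ∈ W' := by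
    intro W' hW' i
    have := hV i
    rw [← hW', ValuationSubring.mem_comap] at this
    exact this
  set n := q.natDegree + 1 with hn
  have hjn : j < n := by
    have : j ≤ q.natDegree := le_natDegree_of_ne_zero (by rw [hj]; exact one_ne_zero)
    omega
  have hsum : ∑ i ∈ Finset.range n, b i * f ^ i = 0 := by
    rw [aeval_eq_sum_range' (n := n) (Nat.lt_succ_self _)] at hqf
    simpa only [Algebra.smul_def] using hqf
  have hsplit : ∑ i ∈ Finset.range j, b i * f ^ i + ∑ i ∈ Finset.Ico j n, b i * f ^ i = 0 := by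
    rw [Finset.sum_range_add_sum_Ico _ hjn.le]
    exact hsum
  set y : Ω := ∑ i ∈ Finset.Ico j n, b i * f ^ (i - j) with hy
  have hfy : f ^ j * y = -∑ i ∈ Finset.range j, b i * f ^ i := by
    rw [hy, Finset.mul_sum, eq_neg_iff_add_eq_zero, add_comm, ← hsplit]
    congr 1
    refine Finset.sum_congr rfl fun i hi => ?_
    have : i = j + (i - j) := by have := (Finset.mem_Ico.1 hi).1; omega
    conv_rhs => rw [this, pow_add]
    rw [← this]
    ring
  have key : ∀ W' : ValuationSubring Ω, W'.comap (algebraMap E Ω) =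
      W.comap (algebraMap E Ω) → y ∈ W' ∧ f * y ∈ W' := by
    intro W' hW'
    rcases W'.mem_or_inv_mem f with h | h
    · have hyW : y ∈ W' := by
        rw [hy]
        exact sum_mem fun i _ => mul_mem (hbW W' hW' i) (pow_mem h _)
      exact ⟨hyW, mul_mem h hyW⟩
    · by_cases hf0 : f = 0
      · have hyW : y ∈ W' := by
          rw [hy]
          exact sum_mem fun i _ => mul_mem (hbW W' hW' i) (pow_mem (by rw [hf0]; exact zero_mem _) _)
        exact ⟨hyW, mul_mem (by rw [hf0]; exact zero_mem _) hyW⟩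
      have hz : f * y ∈ W' := by
        rcases Nat.eq_zero_or_pos j with hj0 | hjpos
        · have : y = 0 := by
            rw [hj0] at hfy
            simpa using hfy
          rw [this, mul_zero]
          exact zero_mem _
        · have : f * y = -∑ i ∈ Finset.range j, b i * f⁻¹ ^ (j - 1 - i) := by
            have hne : f ^ (j - 1) ≠ 0 := pow_ne_zero _ hf0
            apply mul_left_cancel₀ hne
            have h1 : f ^ (j - 1) * (f * y) = f ^ j * y := by
              rw [← mul_assoc, ← pow_succ, Nat.sub_add_cancel hjpos]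
            rw [h1, hfy, mul_neg, Finset.mul_sum]
            congr 1
            refine Finset.sum_congr rfl fun i hi => ?_
            have hi' : i + (j - 1 - i) = j - 1 := by
              have := Finset.mem_range.1 hi
              omega
            have h2 : f ^ (j - 1) = f ^ i * f ^ (j - 1 - i) := by rw [← pow_add, hi']
            rw [h2, inv_pow]
            have hne' : f ^ (j - 1 - i) ≠ 0 := pow_ne_zero _ hf0
            field_simp
          rw [this]
          exact neg_mem (sum_mem fun i _ => mul_mem (hbW W' hW' i) (pow_mem h _))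
      refine ⟨?_, hz⟩
      have : y = f⁻¹ * (f * y) := by rw [inv_mul_cancel_left₀ hf0]
      rw [this]
      exact mul_mem h hz
  refine ⟨y, f * y, mem_bigRing.2 fun W' hW' => (key W' hW').1,
    mem_bigRing.2 fun W' hW' => (key W' hW').2, rfl, ?_⟩
  have hy1 : W.valuation (y - 1) < 1 := by
    have : y - 1 = ∑ i ∈ Finset.Ico (j + 1) n, b i * f ^ (i - j) := by
      rw [hy, Finset.sum_eq_sum_Ico_succ_bot hjn]
      simp [hb, hj]
    rw [this]
    refine Valuation.map_sum_lt _ one_ne_zero fun i hi => ?_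
    have hi' := hm i (by have := (Finset.mem_Ico.1 hi).1; omega)
    have hbi : W.valuation (b i) < 1 := by
      rw [← ValuationSubring.mem_nonunits_iff, ValuationSubring.mem_nonunits_iff_or] at hi' ⊢
      simpa [hb, ValuationSubring.mem_comap] using hi'
    rw [map_mul, map_pow]
    calc W.valuation (b i) * W.valuation f ^ (i - j) ≤ W.valuation (b i) * 1 :=
          mul_le_mul_right (pow_le_one' ((W.valuation_le_one_iff f).2 hf) _) _
      _ < 1 := by rw [mul_one]; exact hbi
  have h2 := W.valuation.map_one_add_of_lt hy1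
  rwa [add_sub_cancel] at h2

/-- the action of the automorphism group on the intersection of the valuation rings above `V` -/
instance bigRingAction (V : ValuationSubring E) :
    MulSemiringAction (Ω ≃ₐ[E] Ω) (bigRing Ω V) where
  smul σ b := ⟨σ b.1, mem_bigRing.2 fun W hW => by
    have h := mem_bigRing.1 b.2 (W.comap (σ : Ω →+* Ω)) (by
      rw [← hW]
      ext x
      rw [ValuationSubring.mem_comap, ValuationSubring.mem_comap, ValuationSubring.mem_comap]
      simp)
    exact h⟩
  one_smul b := rfl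
  mul_smul σ τ b := rfl
  smul_zero σ := Subtype.ext (map_zero σ)
  smul_add σ a b := Subtype.ext (map_add σ a.1 b.1)
  smul_one σ := Subtype.ext (map_one σ)
  smul_mul σ a b := Subtype.ext (map_mul σ a.1 b.1)

theorem coe_smul_bigRing {V : ValuationSubring E} (σ : Ω ≃ₐ[E] Ω) (b : bigRing Ω V) :
    ((σ • b : bigRing Ω V) : Ω) = σ b := rfl

/-- the prime ideal of `bigRing` defined by a valuation ring above `V` -/
def bigIdeal (V : ValuationSubring E) (W : ValuationSubring Ω)
    (hW : W.comap (algebraMap E Ω) = V) : Ideal (bigRing Ω V) where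
  carrier := {b | W.valuation (b : Ω) < 1}
  zero_mem' := by simp
  add_mem' := by
    intro a b ha hb
    change W.valuation ((a : Ω) + b) < 1
    exact Valuation.map_add_lt _ ha hb
  smul_mem' := by
    intro c x hx
    have hc : W.valuation (c : Ω) ≤ 1 := (W.valuation_le_one_iff _).2 (mem_bigRing.1 c.2 W hW)
    change W.valuation ((c : Ω) * x) < 1
    rw [map_mul]
    calc W.valuation (c : Ω) * W.valuation (x : Ω) ≤ 1 * W.valuation (x : Ω) :=
          mul_le_mul_left hc _
      _ < 1 := by rw [one_mul]; exact hx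

theorem mem_bigIdeal {V : ValuationSubring E} {W : ValuationSubring Ω}
    {hW : W.comap (algebraMap E Ω) = V} {b : bigRing Ω V} :
    b ∈ bigIdeal V W hW ↔ W.valuation (b : Ω) < 1 := Iff.rfl

instance bigIdeal_isPrime (V : ValuationSubring E) (W : ValuationSubring Ω)
    (hW : W.comap (algebraMap E Ω) = V) : (bigIdeal V W hW).IsPrime where
  ne_top' := by
    intro h
    have := (Ideal.eq_top_iff_one _).1 h
    rw [mem_bigIdeal] at this
    simp at this
  mem_or_mem' := by
    intro a b hab
    rw [mem_bigIdeal, mem_bigIdeal]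
    rw [mem_bigIdeal] at hab
    by_contra hcon
    push Not at hcon
    have : W.valuation ((a * b : bigRing Ω V) : Ω) = W.valuation (a : Ω) * W.valuation (b : Ω) :=
      map_mul _ _ _
    rw [this] at hab
    exact absurd hab (not_lt.2 (one_le_mul hcon.1 hcon.2))

/-- a valuation ring above `V` is determined by its prime ideal in `bigRing` -/
theorem le_of_bigIdeal_eq [Algebra.IsAlgebraic E Ω] {V : ValuationSubring E}
    {W₁ W₂ : ValuationSubring Ω} (h₁ : W₁.comap (algebraMap E Ω) = V)
    (h₂ : W₂.comap (algebraMap E Ω) = V) (h : bigIdeal V W₁ h₁ = bigIdeal V W₂ h₂) :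
    W₁ ≤ W₂ := by
  intro f hf
  obtain ⟨y, z, hy, hz, hyz, hv⟩ := exists_fraction (E := E) W₁ hf
  rw [h₁] at hy hz
  have h3 : (⟨y, hy⟩ : bigRing Ω V) ∉ bigIdeal V W₂ h₂ := by
    rw [← h, mem_bigIdeal]
    exact fun h => h.ne hv
  rw [mem_bigIdeal, not_lt] at h3
  have h4 : W₂.valuation y = 1 :=
    le_antisymm ((W₂.valuation_le_one_iff _).2 (mem_bigRing.1 hy W₂ h₂)) h3
  have h5 : W₂.valuation z ≤ 1 := (W₂.valuation_le_one_iff _).2 (mem_bigRing.1 hz W₂ h₂)
  rw [← hyz, map_mul, h4, mul_one] at h5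
  exact (W₂.valuation_le_one_iff _).1 h5

theorem eq_of_bigIdeal_eq [Algebra.IsAlgebraic E Ω] {V : ValuationSubring E}
    {W₁ W₂ : ValuationSubring Ω} (h₁ : W₁.comap (algebraMap E Ω) = V)
    (h₂ : W₂.comap (algebraMap E Ω) = V) (h : bigIdeal V W₁ h₁ = bigIdeal V W₂ h₂) :
    W₁ = W₂ :=
  le_antisymm (le_of_bigIdeal_eq h₁ h₂ h) (le_of_bigIdeal_eq h₂ h₁ h.symm)

/-- An element fixed by all automorphisms of a normal extension is purely inseparable over the
ground field. -/
theorem exists_pow_of_fixed [Normal E Ω] {a : Ω} (ha : ∀ σ : Ω ≃ₐ[E] Ω, σ a = a) (q : ℕ)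
    [ExpChar E q] : ∃ (n : ℕ) (e : E), a ^ q ^ n = algebraMap E Ω e := by
  classical
  have h1 : a ∈ perfectClosure E Ω := by
    rw [mem_perfectClosure_iff_natSepDegree_eq_one,
      natSepDegree_eq_of_splits (E := Ω) _ (Normal.splits inferInstance a), Finset.card_eq_one]
    refine ⟨a, ?_⟩
    ext y
    have hint : IsIntegral E a := Algebra.IsIntegral.isIntegral a
    rw [Multiset.mem_toFinset, Finset.mem_singleton, mem_aroots]
    constructor
    · rintro ⟨-, hy⟩
      obtain ⟨σ, hσ⟩ := minpoly.exists_algEquiv_of_root' (Algebra.IsAlgebraic.isAlgebraic a) hy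
      rw [← hσ, ha]
    · rintro rfl
      exact ⟨minpoly.ne_zero hint, minpoly.aeval E y⟩
  rw [mem_perfectClosure_iff_pow_mem q] at h1
  obtain ⟨n, e, he⟩ := h1
  exact ⟨n, e, he.symm⟩

/-- the subring of invariants -/
def invRing (V : ValuationSubring E) : Subring (bigRing Ω V) where
  carrier := {b | ∀ σ : Ω ≃ₐ[E] Ω, σ • b = b}
  zero_mem' := fun σ => smul_zero σ
  one_mem' := fun σ => smul_one σ
  add_mem' := fun {a b} ha hb σ => by rw [smul_add, ha σ, hb σ]
  mul_mem' := fun {a b} ha hb σ => by rw [smul_mul', ha σ, hb σ]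
  neg_mem' := fun {a} ha σ => by rw [smul_neg, ha σ]

instance (V : ValuationSubring E) :
    SMulCommClass (Ω ≃ₐ[E] Ω) (invRing (Ω := Ω) V) (bigRing Ω V) where
  smul_comm σ a b := by
    change σ • ((a : bigRing Ω V) * b) = (a : bigRing Ω V) * σ • b
    rw [smul_mul', a.2 σ]

instance (V : ValuationSubring E) :
    Algebra.IsInvariant (invRing (Ω := Ω) V) (bigRing Ω V) (Ω ≃ₐ[E] Ω) where
  isInvariant b hb := ⟨⟨b, hb⟩, rfl⟩

theorem continuousSMul_bigRing [Algebra.IsAlgebraic E Ω] (V : ValuationSubring E) :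
    letI : TopologicalSpace (bigRing Ω V) := ⊥
    ContinuousSMul (Ω ≃ₐ[E] Ω) (bigRing Ω V) := by
  letI : TopologicalSpace (bigRing Ω V) := ⊥
  haveI : DiscreteTopology (bigRing Ω V) := ⟨rfl⟩
  rw [continuousSMul_iff_stabilizer_isOpen]
  intro b
  have : FiniteDimensional E (IntermediateField.adjoin E {(b : Ω)}) :=
    IntermediateField.adjoin.finiteDimensional (Algebra.IsIntegral.isIntegral _)
  refine Subgroup.isOpen_mono (H₁ := (IntermediateField.adjoin E {(b : Ω)}).fixingSubgroup) ?_
    (IntermediateField.fixingSubgroup_isOpen _)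
  intro σ hσ
  rw [MulAction.mem_stabilizer_iff]
  apply Subtype.ext
  rw [coe_smul_bigRing]
  exact (IntermediateField.mem_fixingSubgroup_iff _ _).1 hσ _
    (IntermediateField.mem_adjoin_simple_self E _)

/-- Transitivity on the valuation rings above a given one. -/
theorem exists_algEquiv_of_comap_eq [Normal E Ω] (W₁ W₂ : ValuationSubring Ω)
    (h : W₁.comap (algebraMap E Ω) = W₂.comap (algebraMap E Ω)) :
    ∃ σ : Ω ≃ₐ[E] Ω, ∀ f, f ∈ W₁ ↔ σ f ∈ W₂ := by
  set V := W₁.comap (algebraMap E Ω) with hV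
  letI : TopologicalSpace (bigRing Ω V) := ⊥
  haveI : DiscreteTopology (bigRing Ω V) := ⟨rfl⟩
  haveI := continuousSMul_bigRing (Ω := Ω) V
  haveI : CompactSpace (Ω ≃ₐ[E] Ω) := compactSpace_gal
  obtain ⟨q, hq⟩ := ExpChar.exists E
  have hunder : (bigIdeal V W₁ rfl).under (invRing (Ω := Ω) V) =
      (bigIdeal V W₂ h.symm).under (invRing (Ω := Ω) V) := by
    ext a
    rw [Ideal.mem_comap, Ideal.mem_comap, mem_bigIdeal, mem_bigIdeal]
    obtain ⟨n, e, he⟩ := exists_pow_of_fixed (E := E) (a := ((a : bigRing Ω V) : Ω))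
      (fun σ => congrArg Subtype.val (a.2 σ)) q
    have hqn : q ^ n ≠ 0 := pow_ne_zero _ (expChar_ne_zero E q)
    have h1 : ∀ W : ValuationSubring Ω,
        W.valuation ((a : bigRing Ω V) : Ω) < 1 ↔ W.valuation (algebraMap E Ω e) < 1 := by
      intro W
      rw [← he, map_pow, pow_lt_one_iff hqn]
    change W₁.valuation ((a : bigRing Ω V) : Ω) < 1 ↔ W₂.valuation ((a : bigRing Ω V) : Ω) < 1
    rw [h1, h1, ← ValuationSubring.mem_nonunits_iff, ← ValuationSubring.mem_nonunits_iff,
      ValuationSubring.mem_nonunits_iff_or, ValuationSubring.mem_nonunits_iff_or, ← map_inv₀,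
      ← ValuationSubring.mem_comap, ← ValuationSubring.mem_comap, ← h]
  obtain ⟨σ, hσ⟩ := Algebra.IsInvariant.exists_smul_of_under_eq_of_profinite
    (G := Ω ≃ₐ[E] Ω) (bigIdeal V W₁ rfl) (bigIdeal V W₂ h.symm) hunder
  refine ⟨σ, ?_⟩
  have hcomap : (W₂.comap (σ : Ω →+* Ω)).comap (algebraMap E Ω) = V := by
    rw [h]
    ext x
    rw [ValuationSubring.mem_comap, ValuationSubring.mem_comap, ValuationSubring.mem_comap]
    simp
  have hval : ∀ x : Ω, (W₂.comap (σ : Ω →+* Ω)).valuation x < 1 ↔ W₂.valuation (σ x) < 1 := by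
    intro x
    rw [← ValuationSubring.mem_nonunits_iff, ← ValuationSubring.mem_nonunits_iff,
      ValuationSubring.mem_nonunits_iff_or, ValuationSubring.mem_nonunits_iff_or]
    simp [ValuationSubring.mem_comap]
  have heq : bigIdeal V W₁ rfl = bigIdeal V (W₂.comap (σ : Ω →+* Ω)) hcomap := by
    ext b
    rw [mem_bigIdeal, mem_bigIdeal, hval]
    have h1 : σ • b ∈ bigIdeal V W₂ h.symm ↔ b ∈ bigIdeal V W₁ rfl := by
      rw [hσ]
      exact Ideal.smul_mem_pointwise_smul_iff
    rw [mem_bigIdeal, mem_bigIdeal] at h1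
    exact h1.symm
  have := eq_of_bigIdeal_eq (rfl : W₁.comap (algebraMap E Ω) = V) hcomap heq
  intro f
  conv_lhs => rw [this]
  rw [ValuationSubring.mem_comap]
  rfl

end PiCurve
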