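import Mathlib
import Pool.Agent.Helper10.Pi2.Const
import Pool.Agent.Helper10.Pi2.Trans

/-!
# Decomposition groups act on constants through the full Galois group

`Ω` is algebraically closed and algebraic over `F`, `W` a place of `Ω/K` whose restriction to `F`
is rational.  Every automorphism of the field of constants of `Ω` over `K` is induced by an
element of the decomposition group of `W`.
-/

set_option autoImplicit false

universe u

open Polynomial Topology
open scoped Pointwise

namespace PiCurve

variable {K : Type u} [Field K]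
variable {F Ω : Type u} [Field F] [Algebra K F] [Field Ω] [Algebra F Ω] [Algebra K Ω]
  [IsScalarTower K F Ω]

/-- constants lie in all valuation rings above a valuation ring containing the ground field -/
theorem const_mem_bigRing {V : ValuationSubring F} (hV : ∀ a : K, algebraMap K F a ∈ V) {c : Ω}
    (hc : IsAlgebraic K c) : c ∈ bigRing Ω V := by
  rw [mem_bigRing]
  intro W hW
  refine mem_of_isAlgebraic (K := K) (fun a => ?_) hc
  rw [IsScalarTower.algebraMap_apply K F Ω, ← ValuationSubring.mem_comap, hW]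
  exact hV a

/-- the field of constants mapped to the residue ring -/
noncomputable def constMap (V : ValuationSubring F) (W : ValuationSubring Ω)
    (hW : W.comap (algebraMap F Ω) = V) (hV : ∀ a : K, algebraMap K F a ∈ V) :
    algebraicClosure K Ω →+* bigRing Ω V ⧸ bigIdeal V W hW :=
  (Ideal.Quotient.mk (bigIdeal V W hW)).comp
    { toFun := fun c => ⟨(c : Ω), const_mem_bigRing hV ((mem_algebraicClosure_iff).1 c.2)⟩
      map_one' := rfl
      map_mul' := fun _ _ => rfl
      map_zero' := rfl
      map_add' := fun _ _ => rfl }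

theorem mk_eq_constMap {V : ValuationSubring F} {W : ValuationSubring Ω}
    {hW : W.comap (algebraMap F Ω) = V} {hV : ∀ a : K, algebraMap K F a ∈ V}
    (b : bigRing Ω V) (c : algebraicClosure K Ω) :
    Ideal.Quotient.mk (bigIdeal V W hW) b = constMap V W hW hV c ↔
      W.valuation ((b : Ω) - c) < 1 := by
  change Ideal.Quotient.mk (bigIdeal V W hW) b = Ideal.Quotient.mk (bigIdeal V W hW) _ ↔ _
  rw [Ideal.Quotient.eq, mem_bigIdeal]
  rfl

theorem constMap_bijective [Algebra.IsAlgebraic F Ω] [IsAlgClosed Ω] {W : ValuationSubring Ω}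
    (hr : IsRational K (W.comap (algebraMap F Ω))) :
    Function.Bijective (constMap (W.comap (algebraMap F Ω)) W rfl hr.1.1) := by
  have hW : ∀ a : K, algebraMap K Ω a ∈ W := by
    intro a
    have := hr.1.1 a
    rwa [ValuationSubring.mem_comap, ← IsScalarTower.algebraMap_apply] at this
  constructor
  · exact RingHom.injective _
  · intro x
    obtain ⟨b, rfl⟩ := Ideal.Quotient.mk_surjective x
    obtain ⟨c, hc, hbc⟩ := exists_const hW hr (mem_bigRing.1 b.2 W rfl)
    exact ⟨⟨c, mem_algebraicClosure_iff.2 hc⟩, ((mk_eq_constMap (hV := hr.1.1) _ _).2 hbc).symm⟩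

/-- The decomposition group acts on the constants through the full automorphism group. -/
theorem exists_decomp_eq_on_const [Algebra.IsAlgebraic F Ω] [IsAlgClosed Ω]
    {W : ValuationSubring Ω} (hr : IsRational K (W.comap (algebraMap F Ω)))
    (θ : algebraicClosure K Ω ≃ₐ[K] algebraicClosure K Ω) :
    ∃ σ ∈ decomp (F := F) W, ∀ c : algebraicClosure K Ω, σ (c : Ω) = (θ c : Ω) := by
  have hW : ∀ a : K, algebraMap K Ω a ∈ W := by
    intro a
    have := hr.1.1 a
    rwa [ValuationSubring.mem_comap, ← IsScalarTower.algebraMap_apply] at this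
  have hN : Normal F Ω := ⟨fun x => IsAlgClosed.splits _⟩
  set V := W.comap (algebraMap F Ω) with hV
  letI : TopologicalSpace (bigRing Ω V) := ⊥
  haveI : DiscreteTopology (bigRing Ω V) := ⟨rfl⟩
  haveI := continuousSMul_bigRing (Ω := Ω) V
  haveI : CompactSpace (Ω ≃ₐ[F] Ω) := compactSpace_gal
  set Q : Ideal (bigRing Ω V) := bigIdeal V W rfl with hQ
  set κ : algebraicClosure K Ω ≃+* bigRing Ω V ⧸ Q :=
    RingEquiv.ofBijective (constMap V W rfl hr.1.1) (constMap_bijective hr) with hκ
  have hκmk : ∀ (b : bigRing Ω V) (c : algebraicClosure K Ω),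
      Ideal.Quotient.mk Q b = κ c ↔ W.valuation ((b : Ω) - c) < 1 :=
    fun b c => mk_eq_constMap (hV := hr.1.1) b c
  obtain ⟨q, hq⟩ := ExpChar.exists F
  have hqK : ExpChar K q := (algebraMap K F).expChar (algebraMap K F).injective q
  have hqC : ExpChar (algebraicClosure K Ω) q :=
    expChar_of_injective_ringHom (algebraMap K _).injective q
  -- the automorphism of the residue ring
  have hcomm : ∀ a : invRing (Ω := Ω) V, (κ.symm.trans ((θ : _ ≃+* _).trans κ))
      (Ideal.Quotient.mk Q (a : bigRing Ω V)) = Ideal.Quotient.mk Q (a : bigRing Ω V) := by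
    intro a
    obtain ⟨c, hc⟩ := κ.surjective (Ideal.Quotient.mk Q (a : bigRing Ω V))
    rw [← hc]
    simp only [RingEquiv.trans_apply, RingEquiv.symm_apply_apply]
    congr 1
    obtain ⟨n, e, he⟩ := exists_pow_of_fixed (E := F) (a := ((a : bigRing Ω V) : Ω))
      (fun σ => congrArg Subtype.val (a.2 σ)) q
    have heV : e ∈ V := by
      rw [hV, ValuationSubring.mem_comap, ← he]
      exact pow_mem (mem_bigRing.1 (a : bigRing Ω V).2 W rfl) _
    obtain ⟨α, g, hg1, hg2⟩ := hr.2 e heV
    have h1 : c ^ q ^ n = algebraMap K (algebraicClosure K Ω) α := by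
      apply κ.injective
      rw [map_pow, hc, ← map_pow, hκmk]
      rw [← hg1, comap_val_lt_one, map_sub, ← he, ← IsScalarTower.algebraMap_apply] at hg2
      exact hg2
    have h2 : (θ c) ^ q ^ n = c ^ q ^ n := by
      rw [← map_pow, h1, AlgEquiv.commutes]
    have h3 : iterateFrobenius (algebraicClosure K Ω) q n (θ c) =
        iterateFrobenius (algebraicClosure K Ω) q n c := by
      rw [iterateFrobenius_def, iterateFrobenius_def, h2]
    exact iterateFrobenius_inj _ q n h3
  set P : Ideal (invRing (Ω := Ω) V) := Q.under (invRing (Ω := Ω) V) with hP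
  let θB : (bigRing Ω V ⧸ Q) ≃ₐ[invRing (Ω := Ω) V ⧸ P] (bigRing Ω V ⧸ Q) :=
    AlgEquiv.ofRingEquiv (f := κ.symm.trans ((θ : _ ≃+* _).trans κ)) (by
      intro x
      obtain ⟨a, rfl⟩ := Ideal.Quotient.mk_surjective x
      exact hcomm a)
  obtain ⟨g, hg⟩ := Ideal.Quotient.stabilizerHom_surjective_of_profinite
    (G := Ω ≃ₐ[F] Ω) P Q θB
  obtain ⟨σ, hσ⟩ := g
  have hσQ : σ • Q = Q := hσ
  refine ⟨σ, ?_, ?_⟩
  · have hcomap : (W.comap (σ : Ω →+* Ω)).comap (algebraMap F Ω) = V := by
      rw [hV]
      ext x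
      rw [ValuationSubring.mem_comap, ValuationSubring.mem_comap, ValuationSubring.mem_comap]
      simp
    have hval : ∀ x : Ω, (W.comap (σ : Ω →+* Ω)).valuation x < 1 ↔ W.valuation (σ x) < 1 := by
      intro x
      rw [← ValuationSubring.mem_nonunits_iff, ← ValuationSubring.mem_nonunits_iff,
        ValuationSubring.mem_nonunits_iff_or, ValuationSubring.mem_nonunits_iff_or]
      simp [ValuationSubring.mem_comap]
    have heq : bigIdeal V W rfl = bigIdeal V (W.comap (σ : Ω →+* Ω)) hcomap := by
      ext b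
      rw [mem_bigIdeal, mem_bigIdeal, hval]
      have h1 : σ • b ∈ σ • Q ↔ b ∈ Q := Ideal.smul_mem_pointwise_smul_iff
      rw [hσQ, hQ, mem_bigIdeal, mem_bigIdeal] at h1
      exact h1.symm
    have h2 := eq_of_bigIdeal_eq (rfl : W.comap (algebraMap F Ω) = V) hcomap heq
    intro f
    conv_rhs => rw [h2]
    rw [ValuationSubring.mem_comap]
    rfl
  · intro c
    have hcB : (c : Ω) ∈ bigRing Ω V :=
      const_mem_bigRing hr.1.1 ((mem_algebraicClosure_iff).1 c.2)
    have h1 : θB (Ideal.Quotient.mk Q ⟨c, hcB⟩) =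
        Ideal.Quotient.mk Q (σ • (⟨c, hcB⟩ : bigRing Ω V)) := by
      rw [← hg]
      rfl
    have h2 : Ideal.Quotient.mk Q ⟨c, hcB⟩ = κ c := rfl
    have h3 : θB (κ c) = κ (θ c) := by
      change (κ.symm.trans ((θ : _ ≃+* _).trans κ)) (κ c) = _
      simp
    rw [h2, h3] at h1
    have h4 := (hκmk _ _).1 h1.symm
    have h5 : IsAlgebraic K (c : Ω) := (mem_algebraicClosure_iff).1 c.2
    have h6 : IsAlgebraic K (σ (c : Ω)) :=
      (isAlgebraic_algHom_iff ((σ : Ω →ₐ[F] Ω).restrictScalars K) σ.injective).2 h5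
    have h7 : IsAlgebraic K ((θ c : algebraicClosure K Ω) : Ω) :=
      (mem_algebraicClosure_iff).1 (θ c).2
    exact sub_eq_zero.1 (eq_zero_of_val_lt_one hW (h6.sub h7) h4)

/-- A constant fixed by the decomposition group of a place above a rational place is purely
inseparable over the ground field. -/
theorem pow_mem_of_decomp_fixed [Algebra.IsAlgebraic F Ω] [IsAlgClosed Ω]
    {W : ValuationSubring Ω} (hr : IsRational K (W.comap (algebraMap F Ω))) {c : Ω}
    (hc : IsAlgebraic K c) (h : ∀ σ ∈ decomp (F := F) W, σ c = c) (q : ℕ) [ExpChar K q] :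
    ∃ (n : ℕ) (a : K), c ^ q ^ n = algebraMap K Ω a := by
  have hcl : IsAlgClosed (algebraicClosure K Ω) := (algebraicClosure.isAlgClosure K Ω).isAlgClosed
  have hn : Normal K (algebraicClosure K Ω) := ⟨fun x => IsAlgClosed.splits _⟩
  obtain ⟨n, a, ha⟩ := exists_pow_of_fixed (E := K) (Ω := algebraicClosure K Ω)
    (a := ⟨c, mem_algebraicClosure_iff.2 hc⟩) (fun θ => by
      obtain ⟨σ, hσ, hσc⟩ := exists_decomp_eq_on_const hr θ
      apply Subtype.ext
      rw [← hσc]
      exact h σ hσ) q
  exact ⟨n, a, congrArg Subtype.val ha⟩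

/-- A constant fixed by the decomposition group of a place above a rational place lies in the
ground field, if the latter is perfect. -/
theorem mem_of_decomp_fixed [PerfectField K] [Algebra.IsAlgebraic F Ω] [IsAlgClosed Ω]
    {W : ValuationSubring Ω} (hr : IsRational K (W.comap (algebraMap F Ω))) {c : Ω}
    (hc : IsAlgebraic K c) (h : ∀ σ ∈ decomp (F := F) W, σ c = c) :
    ∃ a : K, c = algebraMap K Ω a := by
  obtain ⟨q, hq⟩ := ExpChar.exists K
  obtain ⟨n, a, ha⟩ := pow_mem_of_decomp_fixed hr hc h q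
  have hqΩ : ExpChar Ω q := expChar_of_injective_ringHom (algebraMap K Ω).injective q
  have hp : PerfectRing K q := PerfectField.toPerfectRing q
  obtain ⟨b, hb⟩ := (bijective_iterateFrobenius K q n).2 a
  refine ⟨b, ?_⟩
  apply iterateFrobenius_inj Ω q n
  rw [iterateFrobenius_def, iterateFrobenius_def, ha, ← hb, iterateFrobenius_def, map_pow]

end PiCurve
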