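import Mathlib
import Pool.Agent.Helper10.Pi2.Dec

/-!
# The Galois reduction

If an automorphism `γ` of `Ω/F` fixing the constants commutes with the decomposition group of `W`
modulo the normal subgroup generated by the inertia groups of the places above the curve `X`, and
does not lie in that subgroup, then there is a finite extension `E/F` inside `Ω`, stable under
`γ`, fixed by that normal subgroup and by the decomposition group of `W`, such that the places
induced on `E` by `W` and by `γ W` are rational and distinct.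
-/

set_option autoImplicit false

universe u

open Polynomial Topology
open scoped Pointwise

namespace PiCurve

variable {K : Type u} [Field K]
variable {F Ω : Type u} [Field F] [Algebra K F] [Field Ω] [Algebra F Ω] [Algebra K Ω]
  [IsScalarTower K F Ω]

section Groups

/-- the decomposition group as a subgroup -/
def decompSubgroup (F : Type u) {Ω : Type u} [Field F] [Field Ω] [Algebra F Ω]
    (W : ValuationSubring Ω) : Subgroup (Ω ≃ₐ[F] Ω) where
  carrier := decomp (F := F) W
  mul_mem' := by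
    intro a b ha hb f
    rw [AlgEquiv.mul_apply, ha, hb]
  one_mem' := fun f => Iff.rfl
  inv_mem' := by
    intro a ha f
    have := ha (a⁻¹ f)
    rw [← AlgEquiv.mul_apply, mul_inv_cancel, AlgEquiv.one_apply] at this
    exact this.symm

theorem mem_decompSubgroup {W : ValuationSubring Ω} {σ : Ω ≃ₐ[F] Ω} :
    σ ∈ decompSubgroup F W ↔ σ ∈ decomp (F := F) W := Iff.rfl

/-- the set of automorphisms mapping a given element into a given set is closed -/
theorem isClosed_setOf_apply_mem [Algebra.IsAlgebraic F Ω] (f : Ω) (s : Set Ω) :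
    IsClosed {σ : Ω ≃ₐ[F] Ω | σ f ∈ s} := by
  rw [← isOpen_compl_iff, isOpen_iff_mem_nhds]
  intro σ hσ
  have : FiniteDimensional F (IntermediateField.adjoin F {f}) :=
    IntermediateField.adjoin.finiteDimensional (Algebra.IsIntegral.isIntegral _)
  have ho := IntermediateField.fixingSubgroup_isOpen (IntermediateField.adjoin F {f})
  have h1 : (fun g : Ω ≃ₐ[F] Ω => σ⁻¹ * g) ⁻¹'
      ((IntermediateField.adjoin F {f}).fixingSubgroup : Set (Ω ≃ₐ[F] Ω)) ∈ 𝓝 σ := by
    apply (ho.preimage (continuous_const_mul σ⁻¹)).mem_nhds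
    rw [Set.mem_preimage, inv_mul_cancel]
    exact one_mem _
  refine Filter.mem_of_superset h1 fun τ hτ => ?_
  rw [Set.mem_preimage, SetLike.mem_coe, IntermediateField.mem_fixingSubgroup_iff] at hτ
  have h2 := hτ f (IntermediateField.mem_adjoin_simple_self F f)
  rw [AlgEquiv.mul_apply, AlgEquiv.aut_inv, AlgEquiv.symm_apply_eq] at h2
  intro h3
  apply hσ
  change σ f ∈ s
  rw [← h2]
  exact h3

theorem decompSubgroup_isClosed [Algebra.IsAlgebraic F Ω] (W : ValuationSubring Ω) :
    IsClosed (decompSubgroup F W : Set (Ω ≃ₐ[F] Ω)) := by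
  have h : (decompSubgroup F W : Set (Ω ≃ₐ[F] Ω)) =
      ⋂ f : Ω, {σ : Ω ≃ₐ[F] Ω | σ f ∈ {x | x ∈ W ↔ f ∈ W}} := by
    ext σ
    simp only [Set.mem_iInter]
    rfl
  rw [h]
  exact isClosed_iInter fun f => isClosed_setOf_apply_mem f _

instance ramSubgroup_normal (S : Finset (ValuationSubring F)) : (ramSubgroup K Ω S).Normal :=
  Subgroup.is_normal_topologicalClosure _

theorem ramSubgroup_isClosed (S : Finset (ValuationSubring F)) :
    IsClosed (ramSubgroup K Ω S : Set (Ω ≃ₐ[F] Ω)) :=
  Subgroup.isClosed_topologicalClosure _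

theorem inertia_le_ramSubgroup {S : Finset (ValuationSubring F)} {W : ValuationSubring Ω}
    (hW : IsPlace K W) (hS : W.comap (algebraMap F Ω) ∉ S) {σ : Ω ≃ₐ[F] Ω}
    (hσ : σ ∈ inertia (F := F) W) : σ ∈ ramSubgroup K Ω S := by
  apply Subgroup.le_topologicalClosure
  apply Subgroup.subset_normalClosure
  simp only [Set.mem_iUnion]
  exact ⟨W, ⟨hW, hS⟩, hσ⟩

theorem sup_isClosed [Algebra.IsAlgebraic F Ω] [IsAlgClosed Ω] (W : ValuationSubring Ω)
    (N : Subgroup (Ω ≃ₐ[F] Ω)) [N.Normal] (hN : IsClosed (N : Set (Ω ≃ₐ[F] Ω))) :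
    IsClosed ((decompSubgroup F W ⊔ N : Subgroup (Ω ≃ₐ[F] Ω)) : Set (Ω ≃ₐ[F] Ω)) := by
  have hn : Normal F Ω := ⟨fun x => IsAlgClosed.splits _⟩
  have : CompactSpace (Ω ≃ₐ[F] Ω) := compactSpace_gal
  have : T2Space (Ω ≃ₐ[F] Ω) := krullTopology_t2
  rw [Subgroup.mul_normal]
  exact ((decompSubgroup_isClosed W).isCompact.mul hN.isCompact).isClosed

/-- elements of a decomposition group acting trivially on constants are in the inertia group -/
theorem mem_inertia_of_decomp [Algebra.IsAlgebraic F Ω] [IsAlgClosed Ω] {W : ValuationSubring Ω}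
    (hr : IsRational K (W.comap (algebraMap F Ω))) {σ : Ω ≃ₐ[F] Ω}
    (h1 : σ ∈ decomp (F := F) W) (h2 : ∀ c : Ω, IsAlgebraic K c → σ c = c) :
    σ ∈ inertia (F := F) W := by
  have hW : ∀ a : K, algebraMap K Ω a ∈ W := by
    intro a
    have := hr.1.1 a
    rwa [ValuationSubring.mem_comap, ← IsScalarTower.algebraMap_apply] at this
  intro f hf
  obtain ⟨c, hc, hv⟩ := exists_const hW hr hf
  have h3 : W.valuation (σ (f - c)) < 1 := by
    rw [← ValuationSubring.mem_nonunits_iff, ValuationSubring.mem_nonunits_iff_or] at hv ⊢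
    rcases hv with hv | hv
    · left
      rw [hv, map_zero]
    · right
      intro h
      apply hv
      rw [← map_inv₀] at h
      exact (h1 _).1 h
  have h4 : σ f - f = σ (f - c) - (f - c) := by
    rw [map_sub, h2 c hc]
    ring
  rw [h4]
  exact Valuation.map_sub_lt _ h3 hv

end Groups

section Fields

/-- scalar tower for the constants and an intermediate field -/
theorem isScalarTower_intermediate (E : IntermediateField F Ω) : IsScalarTower K E Ω :=
  IsScalarTower.of_algebraMap_eq fun _ => rfl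

variable (K) in
/-- a finite extension of a function field is a function field -/
theorem IsFunctionField.of_finite (hF : IsFunctionField K F) (E : IntermediateField F Ω)
    [FiniteDimensional F E] : IsFunctionField K E := by
  obtain ⟨t, ht, hfin⟩ := hF
  refine ⟨algebraMap F E t, (transcendental_algebraMap_iff (algebraMap F E).injective).2 ht, ?_⟩
  set L := IntermediateField.adjoin K {t} with hL
  set L' := IntermediateField.adjoin K {algebraMap F E t} with hL'
  let j : F →ₐ[K] E := IsScalarTower.toAlgHom K F E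
  have hle : ∀ x ∈ L, j x ∈ L' := by
    intro x hx
    have h1 : L.map j = L' := by
      rw [hL, IntermediateField.adjoin_map, Set.image_singleton]
      rfl
    rw [← h1]
    exact ⟨x, hx, rfl⟩
  let φ : L →+* L' :=
    { toFun := fun x => ⟨j x, hle x x.2⟩
      map_one' := Subtype.ext (by simp)
      map_mul' := fun x y => Subtype.ext (by simp)
      map_zero' := Subtype.ext (by simp)
      map_add' := fun x y => Subtype.ext (by simp) }
  letI : Algebra L L' := φ.toAlgebra
  haveI : Module.Finite L E := Module.Finite.trans F E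
  haveI : IsScalarTower L L' E := by
    refine IsScalarTower.of_algebraMap_eq fun x => ?_
    rfl
  exact Module.Finite.of_restrictScalars_finite L L' E

/-- The restriction of a place to an intermediate field over a rational place is rational, if all
elements of the intermediate field are fixed by the decomposition group. -/
theorem isRational_of_decomp_fixed [PerfectField K] [Algebra.IsAlgebraic F Ω] [IsAlgClosed Ω]
    {W : ValuationSubring Ω} (hr : IsRational K (W.comap (algebraMap F Ω)))
    (E : IntermediateField F Ω) (hE : ∀ δ ∈ decomp (F := F) W, ∀ x ∈ E, δ x = x) :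
    IsRational K (W.comap (algebraMap E Ω)) := by
  have hW : ∀ a : K, algebraMap K Ω a ∈ W := by
    intro a
    have := hr.1.1 a
    rwa [ValuationSubring.mem_comap, ← IsScalarTower.algebraMap_apply] at this
  have := isScalarTower_intermediate (K := K) E
  refine ⟨⟨fun a => ?_, fun htop => ?_⟩, ?_⟩
  · rw [ValuationSubring.mem_comap, ← IsScalarTower.algebraMap_apply]
    exact hW a
  · apply hr.1.2
    rw [eq_top_iff]
    intro x _
    have : algebraMap F E x ∈ W.comap (algebraMap E Ω) := by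
      rw [htop]
      trivial
    rw [ValuationSubring.mem_comap, ← IsScalarTower.algebraMap_apply] at this
    exact this
  · intro f hf
    rw [ValuationSubring.mem_comap] at hf
    obtain ⟨c, hc, hv⟩ := exists_const hW hr hf
    obtain ⟨a, rfl⟩ := mem_of_decomp_fixed hr hc fun σ hσ => by
      have h1 : W.valuation (σ (algebraMap E Ω f - c)) < 1 := by
        rw [← ValuationSubring.mem_nonunits_iff, ValuationSubring.mem_nonunits_iff_or] at hv ⊢
        rcases hv with hv | hv
        · left
          rw [hv, map_zero]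
        · right
          intro h
          apply hv
          rw [← map_inv₀] at h
          exact (hσ _).1 h
      have h2 : σ (algebraMap E Ω f) = algebraMap E Ω f := hE σ hσ _ f.2
      rw [map_sub, h2] at h1
      have h3 : IsAlgebraic K (σ c) :=
        (isAlgebraic_algHom_iff ((σ : Ω →ₐ[F] Ω).restrictScalars K) σ.injective).2 hc
      exact const_unique hW h3 hc h1 hv
    refine ⟨a, f - algebraMap K E a, rfl, ?_⟩
    rw [comap_val_lt_one, map_sub, ← IsScalarTower.algebraMap_apply]
    exact hv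

/-- valuations of the translate of a valuation ring -/
theorem comap_aut_val_lt_one (W : ValuationSubring Ω) (σ : Ω ≃ₐ[F] Ω) (x : Ω) :
    (W.comap (σ : Ω →+* Ω)).valuation x < 1 ↔ W.valuation (σ x) < 1 := by
  rw [← ValuationSubring.mem_nonunits_iff, ← ValuationSubring.mem_nonunits_iff,
    ValuationSubring.mem_nonunits_iff_or, ValuationSubring.mem_nonunits_iff_or]
  simp [ValuationSubring.mem_comap]

end Fields

/-- The Galois reduction. Here `W.comap γ⁻¹` is the place `γ W`. -/
theorem exists_reduction [PerfectField K] [Algebra.IsAlgebraic F Ω] [IsAlgClosed Ω]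
    {S : Finset (ValuationSubring F)} {W : ValuationSubring Ω} (hW : IsPlace K W)
    (hS : W.comap (algebraMap F Ω) ∉ S) (hr : IsRational K (W.comap (algebraMap F Ω)))
    {γ : Ω ≃ₐ[F] Ω} (hγ : ∀ a : Ω, IsAlgebraic K a → γ a = a)
    (hcomm : ∀ δ ∈ decomp (F := F) W, γ * δ * γ⁻¹ * δ⁻¹ ∈ ramSubgroup K Ω S)
    (hγN : γ ∉ ramSubgroup K Ω S) :
    ∃ E : IntermediateField F Ω, FiniteDimensional F E ∧
      (∀ x ∈ E, γ x ∈ E) ∧ (∀ x ∈ E, γ⁻¹ x ∈ E) ∧
      (∀ δ ∈ decomp (F := F) W, ∀ x ∈ E, δ x = x) ∧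
      (∀ ν ∈ ramSubgroup K Ω S, ∀ x ∈ E, ν x = x) ∧
      IsRational K (W.comap (algebraMap E Ω)) ∧
      IsRational K ((W.comap (γ⁻¹ : Ω ≃ₐ[F] Ω)).comap (algebraMap E Ω)) ∧
      W.comap (algebraMap E Ω) ≠ (W.comap (γ⁻¹ : Ω ≃ₐ[F] Ω)).comap (algebraMap E Ω) := by
  have hn : Normal F Ω := ⟨fun x => IsAlgClosed.splits _⟩
  set D := decompSubgroup F W with hD
  set N := ramSubgroup K Ω S with hN
  have hNn : N.Normal := ramSubgroup_normal S
  set H : Subgroup (Ω ≃ₐ[F] Ω) := D ⊔ N with hH
  have hHc : IsClosed (H : Set (Ω ≃ₐ[F] Ω)) := sup_isClosed W N (ramSubgroup_isClosed S)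
  set Einf := IntermediateField.fixedField H with hEinf
  -- an element of the fixed field separating the two places
  obtain ⟨e, he, hsep⟩ : ∃ e ∈ Einf, ¬ (e ∈ W ↔ γ⁻¹ e ∈ W) := by
    by_contra hcon
    push Not at hcon
    have heq : W.comap (algebraMap Einf Ω) =
        (W.comap ((γ⁻¹ : Ω ≃ₐ[F] Ω) : Ω →+* Ω)).comap (algebraMap Einf Ω) := by
      ext x
      rw [ValuationSubring.mem_comap, ValuationSubring.mem_comap, ValuationSubring.mem_comap]
      exact hcon x x.2
    have hn' : Normal Einf Ω := ⟨fun x => IsAlgClosed.splits _⟩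
    obtain ⟨σ, hσ⟩ := exists_algEquiv_of_comap_eq (E := Einf) W _ heq
    set σ' : Ω ≃ₐ[F] Ω := σ.restrictScalars F with hσ'
    have h1 : σ' ∈ H := by
      refine mem_of_fixes_fixedField H hHc σ' fun x hx => ?_
      exact σ.commutes ⟨x, (IntermediateField.mem_fixedField_iff _ _).2 hx⟩
    have h2 : γ⁻¹ * σ' ∈ D := by
      intro f
      have := hσ f
      rw [ValuationSubring.mem_comap] at this
      exact this.symm
    have h3 : γ ∈ H := by
      have : γ = σ' * (γ⁻¹ * σ')⁻¹ := by group
      rw [this]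
      exact H.mul_mem h1 (H.inv_mem (Subgroup.mem_sup_left h2))
    have h4 : γ ∈ (D : Set (Ω ≃ₐ[F] Ω)) * N := by
      rw [← Subgroup.mul_normal]
      exact h3
    obtain ⟨δ, hδ, ν, hν, hδν⟩ := Set.mem_mul.1 h4
    have h5 : ∀ c : Ω, IsAlgebraic K c → δ c = c := by
      intro c hc
      have h6 : δ = γ * ν⁻¹ := by rw [← hδν]; group
      rw [h6, AlgEquiv.mul_apply, ramSubgroup_fix S (N.inv_mem hν) c hc, hγ c hc]
    have h7 : δ ∈ N := inertia_le_ramSubgroup hW hS (mem_inertia_of_decomp hr hδ h5)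
    exact hγN (hδν ▸ N.mul_mem h7 hν)
  have heF : ∀ h ∈ H, h e = e := (IntermediateField.mem_fixedField_iff _ _).1 he
  -- the normal closure of `F(e)`
  have hfd : FiniteDimensional F (IntermediateField.adjoin F {e}) :=
    IntermediateField.adjoin.finiteDimensional (Algebra.IsIntegral.isIntegral _)
  set M := IntermediateField.normalClosure F (IntermediateField.adjoin F {e}) Ω with hM
  have hMfd : FiniteDimensional F M := normalClosure.is_finiteDimensional F _ Ω
  have hMn : Normal F M := normalClosure.normal F _ Ω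
  have heM : e ∈ M :=
    IntermediateField.le_normalClosure (IntermediateField.adjoin F {e})
      (IntermediateField.mem_adjoin_simple_self F e)
  have hMσ : ∀ σ : Ω ≃ₐ[F] Ω, ∀ x ∈ M, σ x ∈ M := by
    intro σ x hx
    exact (IntermediateField.normal_iff_forall_map_le'.1 hMn σ) ⟨x, hx, rfl⟩
  have hMN : ∀ ν ∈ N, ∀ x ∈ M, ν x = x := by
    have hFn : Normal F (IntermediateField.fixedField N) := by
      rw [IntermediateField.normal_iff_forall_map_le']
      rintro σ _ ⟨x, hx, rfl⟩
      have hx' := (IntermediateField.mem_fixedField_iff _ _).1 hx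
      rw [IntermediateField.mem_fixedField_iff]
      intro ν hν
      have h1 := hx' (σ⁻¹ * ν * σ) (by
        have := hNn.conj_mem ν hν σ⁻¹
        rwa [inv_inv] at this)
      have h2 : ν * σ = σ * (σ⁻¹ * ν * σ) := by group
      change ν (σ x) = σ x
      rw [← AlgEquiv.mul_apply, h2, AlgEquiv.mul_apply, h1]
    have hle : M ≤ IntermediateField.fixedField N := by
      rw [hM, IntermediateField.normalClosure_le_iff_of_normal,
        IntermediateField.adjoin_simple_le_iff, IntermediateField.mem_fixedField_iff]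
      exact fun ν hν => heF ν (Subgroup.mem_sup_right hν)
    intro ν hν x hx
    exact (IntermediateField.mem_fixedField_iff _ _).1 (hle hx) ν hν
  set E : IntermediateField F Ω := M ⊓ IntermediateField.fixedField D with hE
  have heE : e ∈ E := ⟨heM, (IntermediateField.mem_fixedField_iff _ _).2
    fun δ hδ => heF δ (Subgroup.mem_sup_left hδ)⟩
  have hED : ∀ δ ∈ D, ∀ x ∈ E, δ x = x := fun δ hδ x hx =>
    (IntermediateField.mem_fixedField_iff _ _).1 hx.2 δ hδ
  have hEN : ∀ ν ∈ N, ∀ x ∈ E, ν x = x := fun ν hν x hx => hMN ν hν x hx.1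
  have hEfd : FiniteDimensional F E :=
    FiniteDimensional.of_injective (IntermediateField.inclusion
      (inf_le_left : E ≤ M)).toLinearMap (IntermediateField.inclusion
      (inf_le_left : E ≤ M)).injective
  -- stability under `γ`
  have hγE : ∀ x ∈ E, γ x ∈ E := by
    intro x hx
    refine ⟨hMσ γ x hx.1, (IntermediateField.mem_fixedField_iff _ _).2 fun δ hδ => ?_⟩
    -- `δ γ = γ (γ⁻¹ δ γ)` and `γ⁻¹ δ γ ∈ N δ`
    have h1 : (γ⁻¹ * (γ * δ * γ⁻¹ * δ⁻¹) * γ)⁻¹ ∈ N := by
      have := hNn.conj_mem _ (hcomm δ hδ) γ⁻¹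
      rw [inv_inv] at this
      exact N.inv_mem this
    have h2 : δ * γ = γ * ((γ⁻¹ * (γ * δ * γ⁻¹ * δ⁻¹) * γ)⁻¹ * δ) := by group
    rw [← AlgEquiv.mul_apply, h2, AlgEquiv.mul_apply, AlgEquiv.mul_apply, hED δ hδ x hx,
      hEN _ h1 x hx]
  have hγE' : ∀ x ∈ E, γ⁻¹ x ∈ E := by
    intro x hx
    refine ⟨hMσ γ⁻¹ x hx.1, (IntermediateField.mem_fixedField_iff _ _).2 fun δ hδ => ?_⟩
    have h2 : δ * γ⁻¹ = γ⁻¹ * ((γ * δ * γ⁻¹ * δ⁻¹) * δ) := by group
    rw [← AlgEquiv.mul_apply, h2, AlgEquiv.mul_apply, AlgEquiv.mul_apply, hED δ hδ x hx,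
      hEN _ (hcomm δ hδ) x hx]
  have hrE : IsRational K (W.comap (algebraMap E Ω)) := isRational_of_decomp_fixed hr E hED
  have hval : ∀ x : E, ((W.comap ((γ⁻¹ : Ω ≃ₐ[F] Ω) : Ω →+* Ω)).comap (algebraMap E Ω)).valuation x < 1 ↔
      W.valuation (γ⁻¹ (x : Ω)) < 1 := by
    intro x
    rw [comap_val_lt_one, comap_aut_val_lt_one]
    rfl
  have := isScalarTower_intermediate (K := K) E
  refine ⟨E, hEfd, hγE, hγE', hED, hEN, hrE, ⟨⟨fun a => ?_, fun htop => ?_⟩, ?_⟩, fun h => ?_⟩
  · rw [ValuationSubring.mem_comap, ValuationSubring.mem_comap, ← IsScalarTower.algebraMap_apply]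
    have : (γ⁻¹ : Ω ≃ₐ[F] Ω) (algebraMap K Ω a) = algebraMap K Ω a := by
      rw [IsScalarTower.algebraMap_apply K F Ω, AlgEquiv.commutes]
    change (γ⁻¹ : Ω ≃ₐ[F] Ω) (algebraMap K Ω a) ∈ W
    rw [this]
    exact hW.1 a
  · apply hr.1.2
    rw [eq_top_iff]
    intro x _
    have h1 : algebraMap F E x ∈
        (W.comap ((γ⁻¹ : Ω ≃ₐ[F] Ω) : Ω →+* Ω)).comap (algebraMap E Ω) := by
      rw [htop]
      trivial
    rw [ValuationSubring.mem_comap, ValuationSubring.mem_comap,
      ← IsScalarTower.algebraMap_apply] at h1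
    rw [ValuationSubring.mem_comap]
    have h2 : (γ⁻¹ : Ω ≃ₐ[F] Ω) (algebraMap F Ω x) = algebraMap F Ω x := AlgEquiv.commutes _ _
    change (γ⁻¹ : Ω ≃ₐ[F] Ω) (algebraMap F Ω x) ∈ W at h1
    rwa [h2] at h1
  · intro f hf
    rw [ValuationSubring.mem_comap, ValuationSubring.mem_comap] at hf
    obtain ⟨a, g, hg1, hg2⟩ := hrE.2 ⟨γ⁻¹ (f : Ω), hγE' f f.2⟩ hf
    refine ⟨a, f - algebraMap K E a, rfl, ?_⟩
    rw [hval]
    rw [← hg1, comap_val_lt_one] at hg2
    have : (γ⁻¹ : Ω ≃ₐ[F] Ω) ((f - algebraMap K E a : E) : Ω) =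
        algebraMap E Ω (⟨γ⁻¹ (f : Ω), hγE' f f.2⟩ - algebraMap K E a) := by
      have h3 : (γ⁻¹ : Ω ≃ₐ[F] Ω) (algebraMap K Ω a) = algebraMap K Ω a := by
        rw [IsScalarTower.algebraMap_apply K F Ω, AlgEquiv.commutes]
      have h4 : ((f - algebraMap K E a : E) : Ω) = (f : Ω) - algebraMap K Ω a := rfl
      rw [h4, map_sub, h3]
      rfl
    rw [this]
    exact hg2
  · apply hsep
    have h1 : (⟨e, heE⟩ : E) ∈ W.comap (algebraMap E Ω) ↔
        (⟨e, heE⟩ : E) ∈ (W.comap ((γ⁻¹ : Ω ≃ₐ[F] Ω) : Ω →+* Ω)).comap (algebraMap E Ω) := by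
      rw [h]
    exact h1

end PiCurve
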