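import Mathlib
import Pool.Agent.Helper10.Pi2.G0

/-!
# Function fields: algebraic dependence, residue fields of places, action on constants
-/

set_option autoImplicit false

universe u

open Polynomial Topology IntermediateField
open scoped Pointwise

namespace PiCurve

variable {K : Type u} [Field K]

section FF

variable {F : Type u} [Field F] [Algebra K F]

/-- a function field is finite over the subfield generated by any transcendental element -/
theorem IsFunctionField.finiteDimensional_adjoin (hF : IsFunctionField K F) {y : F}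
    (hy : Transcendental K y) : FiniteDimensional K⟮y⟯ F := by
  obtain ⟨x, hx, hfin⟩ := hF
  have halg : IsAlgebraic K⟮y⟯ x := by
    refine isAlgebraic_adjoin_iff.mpr (.adjoin_singleton hx hy (isAlgebraic_adjoin_iff.mp ?_))
    exact Algebra.IsAlgebraic.isAlgebraic y
  let Fyx := restrictScalars K K⟮y⟯⟮x⟯
  let Fxy := restrictScalars K K⟮x⟯⟮y⟯
  let : Algebra K⟮y⟯ Fyx := K⟮y⟯⟮x⟯.algebra
  let : Module K⟮y⟯ Fyx := Algebra.toModule
  let : SMul K⟮y⟯ Fyx := Algebra.toSMul
  let : Algebra K⟮x⟯ Fxy := K⟮x⟯⟮y⟯.algebra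
  let : Module K⟮x⟯ Fxy := Algebra.toModule
  let : SMul K⟮x⟯ Fxy := Algebra.toSMul
  have : FiniteDimensional K⟮y⟯ Fyx :=
    adjoin.finiteDimensional (isAlgebraic_iff_isIntegral.mp halg)
  have : FiniteDimensional Fyx F := by
    unfold Fyx
    rw [adjoin_simple_comm]
    have : IsScalarTower K⟮x⟯ Fxy F := isScalarTower_mid' K⟮x⟯⟮y⟯
    exact .right K⟮x⟯ Fxy F
  have : IsScalarTower K⟮y⟯ Fyx F := isScalarTower_mid' K⟮y⟯⟮x⟯
  exact .trans K⟮y⟯ Fyx F

/-- an algebraic extension of a function field is algebraic over the subfield generated by any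
transcendental element of the function field -/
theorem IsFunctionField.isAlgebraic_adjoin_map {Ω : Type u} [Field Ω] [Algebra F Ω] [Algebra K Ω]
    [IsScalarTower K F Ω] [Algebra.IsAlgebraic F Ω] (hF : IsFunctionField K F) {y : F}
    (hy : Transcendental K y) : Algebra.IsAlgebraic K⟮algebraMap F Ω y⟯ Ω := by
  have : FiniteDimensional K⟮y⟯ F := hF.finiteDimensional_adjoin hy
  have h1 : Algebra.IsAlgebraic K⟮y⟯ F := Algebra.IsAlgebraic.of_finite _ _
  have h2 : Algebra.IsAlgebraic K⟮y⟯ Ω := Algebra.IsAlgebraic.trans _ F _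
  let j : F →ₐ[K] Ω := IsScalarTower.toAlgHom K F Ω
  have hle : ∀ x ∈ K⟮y⟯, j x ∈ K⟮algebraMap F Ω y⟯ := by
    intro x hx
    have h1 : K⟮y⟯.map j = K⟮algebraMap F Ω y⟯ := by
      rw [IntermediateField.adjoin_map, Set.image_singleton]
      rfl
    rw [← h1]
    exact ⟨x, hx, rfl⟩
  let φ : K⟮y⟯ →+* K⟮algebraMap F Ω y⟯ :=
    { toFun := fun x => ⟨j x, hle x x.2⟩
      map_one' := Subtype.ext (by simp)
      map_mul' := fun x y => Subtype.ext (by simp)
      map_zero' := Subtype.ext (by simp)
      map_add' := fun x y => Subtype.ext (by simp) }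
  let : Algebra K⟮y⟯ K⟮algebraMap F Ω y⟯ := φ.toAlgebra
  have : IsScalarTower K⟮y⟯ K⟮algebraMap F Ω y⟯ Ω :=
    IsScalarTower.of_algebraMap_eq fun x => rfl
  exact Algebra.IsAlgebraic.tower_top (K := K⟮y⟯) _

end FF

section Rational

variable {Ω : Type u} [Field Ω] [Algebra K Ω]

/-- the value of a polynomial at an element of the maximal ideal -/
theorem val_aeval_sub_lt {W : ValuationSubring Ω} (hW : ∀ a : K, algebraMap K Ω a ∈ W) {y : Ω}
    (hv : W.valuation y < 1) (p : K[X]) :
    W.valuation (aeval y p - algebraMap K Ω (p.coeff 0)) < 1 := by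
  have h1 : X ∣ p - C (p.coeff 0) := by
    rw [X_dvd_iff]
    simp
  obtain ⟨q, hq⟩ := h1
  have h2 : aeval y p - algebraMap K Ω (p.coeff 0) = y * aeval y q := by
    have := congrArg (aeval y) hq
    simpa using this
  have hy : y ∈ W := (W.valuation_le_one_iff y).1 hv.le
  have h3 : aeval y q ∈ W := by
    rw [aeval_eq_sum_range]
    exact sum_mem fun i _ => by
      rw [Algebra.smul_def]
      exact mul_mem (hW _) (pow_mem hy _)
  rw [h2, map_mul]
  calc W.valuation y * W.valuation (aeval y q) ≤ W.valuation y * 1 :=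
        mul_le_mul_right ((W.valuation_le_one_iff _).2 h3) _
    _ < 1 := by rw [mul_one]; exact hv

theorem val_eq_one_of_sub_lt {W : ValuationSubring Ω} (hW : ∀ a : K, algebraMap K Ω a ∈ W)
    {f : Ω} {a : K} (ha : a ≠ 0) (h : W.valuation (f - algebraMap K Ω a) < 1) :
    W.valuation f = 1 := by
  have h1 : W.valuation (algebraMap K Ω a) = 1 :=
    val_eq_one_of_isAlgebraic hW (isAlgebraic_algebraMap a) (by simpa using ha)
  have h2 : W.valuation f = W.valuation (algebraMap K Ω a) :=
    (Valuation.map_eq_of_sub_lt _ (by rw [h1]; exact h))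
  rw [h2, h1]

/-- The restriction of a place to `K(y)`, `y` a transcendental element of its maximal ideal, is
rational. -/
theorem isRational_adjoin {W : ValuationSubring Ω} (hW : ∀ a : K, algebraMap K Ω a ∈ W) {y : Ω}
    (hy : y ≠ 0) (hv : W.valuation y < 1) :
    IsRational K (W.comap (algebraMap K⟮y⟯ Ω)) := by
  refine ⟨⟨fun a => ?_, fun htop => ?_⟩, fun f hf => ?_⟩
  · rw [ValuationSubring.mem_comap]
    exact hW a
  · have h1 : (⟨y, mem_adjoin_simple_self K y⟩ : K⟮y⟯)⁻¹ ∈ W.comap (algebraMap K⟮y⟯ Ω) := by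
      rw [htop]
      trivial
    rw [ValuationSubring.mem_comap] at h1
    have h2 : algebraMap K⟮y⟯ Ω (⟨y, mem_adjoin_simple_self K y⟩ : K⟮y⟯)⁻¹ = y⁻¹ := by
      rw [map_inv₀]
      rfl
    rw [h2, ← W.valuation_le_one_iff, map_inv₀,
      inv_le_one₀ (zero_lt_iff.2 ((Valuation.ne_zero_iff _).2 hy))] at h1
    exact absurd hv (not_lt.2 h1)
  · rw [ValuationSubring.mem_comap] at hf
    obtain ⟨r, s, hrs⟩ := (mem_adjoin_simple_iff K (f : Ω)).1 f.2
    change (f : Ω) ∈ W at hf
    suffices h : ∃ a : K, W.valuation ((f : Ω) - algebraMap K Ω a) < 1 by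
      obtain ⟨a, ha⟩ := h
      refine ⟨a, f - algebraMap K K⟮y⟯ a, rfl, ?_⟩
      rw [comap_val_lt_one, map_sub]
      exact ha
    by_cases hr0 : r = 0
    · refine ⟨0, ?_⟩
      rw [hrs, hr0]
      simp
    by_cases hs0 : s = 0
    · refine ⟨0, ?_⟩
      rw [hrs, hs0]
      simp
    obtain ⟨r', hr', hr''⟩ := exists_eq_pow_rootMultiplicity_mul_and_not_dvd r hr0 0
    obtain ⟨s', hs', hs''⟩ := exists_eq_pow_rootMultiplicity_mul_and_not_dvd s hs0 0
    set k := r.rootMultiplicity 0 with hk
    set l := s.rootMultiplicity 0 with hl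
    rw [C_0, sub_zero] at hr' hr'' hs' hs''
    rw [X_dvd_iff] at hr'' hs''
    have e1 : aeval y r = y ^ k * aeval y r' := by
      rw [hr']; simp
    have e2 : aeval y s = y ^ l * aeval y s' := by
      rw [hs']; simp
    have v1 : W.valuation (aeval y r') = 1 := val_eq_one_of_sub_lt hW hr'' (val_aeval_sub_lt hW hv r')
    have v2 : W.valuation (aeval y s') = 1 := val_eq_one_of_sub_lt hW hs'' (val_aeval_sub_lt hW hv s')
    have n1 : aeval y r' ≠ 0 := fun h => by rw [h, map_zero] at v1; exact zero_ne_one v1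
    have n2 : aeval y s' ≠ 0 := fun h => by rw [h, map_zero] at v2; exact zero_ne_one v2
    have hvy : 0 < W.valuation y := zero_lt_iff.2 ((Valuation.ne_zero_iff _).2 hy)
    rcases lt_trichotomy k l with hkl | hkl | hkl
    · exfalso
      have h3 : W.valuation (f : Ω) * W.valuation y ^ l = W.valuation y ^ k := by
        have : (f : Ω) * (y ^ l * aeval y s') = y ^ k * aeval y r' := by
          rw [hrs, e1, e2, div_mul_cancel₀]
          exact mul_ne_zero (pow_ne_zero _ hy) n2
        have h4 := congrArg W.valuation this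
        rw [map_mul, map_mul, map_mul, map_pow, map_pow, v1, v2, mul_one, mul_one] at h4
        exact h4
      have h5 : W.valuation y ^ l < W.valuation y ^ k := pow_lt_pow_right_of_lt_one₀ hvy hv hkl
      have h6 : W.valuation (f : Ω) * W.valuation y ^ l ≤ 1 * W.valuation y ^ l :=
        mul_le_mul_left ((W.valuation_le_one_iff _).2 hf) _
      rw [h3, one_mul] at h6
      exact absurd h5 (not_lt.2 h6)
    · refine ⟨r'.coeff 0 / s'.coeff 0, ?_⟩
      have h3 : (f : Ω) - algebraMap K Ω (r'.coeff 0 / s'.coeff 0) =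
          (aeval y r' * algebraMap K Ω (s'.coeff 0) - algebraMap K Ω (r'.coeff 0) * aeval y s') /
            (aeval y s' * algebraMap K Ω (s'.coeff 0)) := by
        have n3 : algebraMap K Ω (s'.coeff 0) ≠ 0 := by simpa using hs''
        rw [hrs, e1, e2, hkl, map_div₀]
        have : y ^ l ≠ 0 := pow_ne_zero _ hy
        field_simp
      have n4 : W.valuation (algebraMap K Ω (s'.coeff 0)) = 1 :=
        val_eq_one_of_isAlgebraic hW (isAlgebraic_algebraMap _) (by simpa using hs'')
      rw [h3, map_div₀, map_mul, v2, n4, one_mul, div_one]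
      have h4 : aeval y r' * algebraMap K Ω (s'.coeff 0) -
          algebraMap K Ω (r'.coeff 0) * aeval y s' =
          (aeval y r' - algebraMap K Ω (r'.coeff 0)) * algebraMap K Ω (s'.coeff 0) -
          algebraMap K Ω (r'.coeff 0) * (aeval y s' - algebraMap K Ω (s'.coeff 0)) := by ring
      rw [h4]
      refine Valuation.map_sub_lt _ ?_ ?_
      · rw [map_mul, n4, mul_one]
        exact val_aeval_sub_lt hW hv r'
      · rw [map_mul]
        calc W.valuation (algebraMap K Ω (r'.coeff 0)) *
              W.valuation (aeval y s' - algebraMap K Ω (s'.coeff 0))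
            ≤ 1 * W.valuation (aeval y s' - algebraMap K Ω (s'.coeff 0)) :=
              mul_le_mul_left ((W.valuation_le_one_iff _).2 (hW _)) _
          _ < 1 := by rw [one_mul]; exact val_aeval_sub_lt hW hv s'
    · refine ⟨0, ?_⟩
      rw [map_zero, sub_zero]
      have h3 : (f : Ω) * aeval y s' = y ^ (k - l) * aeval y r' := by
        have : y ^ l ≠ 0 := pow_ne_zero _ hy
        have hkl' : y ^ k = y ^ l * y ^ (k - l) := by rw [← pow_add]; congr 1; omega
        rw [hrs, e1, e2, hkl']
        field_simp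
      have h4 := congrArg W.valuation h3
      rw [map_mul, map_mul, map_pow, v1, v2, mul_one, mul_one] at h4
      rw [h4]
      exact pow_lt_one₀ zero_le hv (by omega)

variable {F : Type u} [Field F] [Algebra K F] [Algebra F Ω] [IsScalarTower K F Ω]

/-- a place of an algebraic extension restricts to a place -/
theorem IsPlace.comap [Algebra.IsAlgebraic F Ω] {W : ValuationSubring Ω} (hW : IsPlace K W) :
    IsPlace K (W.comap (algebraMap F Ω)) := by
  refine ⟨fun a => ?_, fun htop => hW.2 ?_⟩
  · rw [ValuationSubring.mem_comap, ← IsScalarTower.algebraMap_apply]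
    exact hW.1 a
  · rw [eq_top_iff]
    intro x _
    refine mem_of_isAlgebraic (K := F) (fun a => ?_) (Algebra.IsAlgebraic.isAlgebraic x)
    rw [← ValuationSubring.mem_comap, htop]
    trivial

/-- Every element of a place of an algebraically closed algebraic extension `Ω` of a function
field is congruent to a constant. -/
theorem exists_const_of_isPlace [Algebra.IsAlgebraic F Ω] [IsAlgClosed Ω]
    (hF : IsFunctionField K F) {W : ValuationSubring Ω} (hW : IsPlace K W) {f : Ω} (hf : f ∈ W) :
    ∃ c : Ω, IsAlgebraic K c ∧ W.valuation (f - c) < 1 := by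
  have hp : IsPlace K (W.comap (algebraMap F Ω)) := hW.comap
  obtain ⟨x, hx⟩ : ∃ x : F, x ∉ W.comap (algebraMap F Ω) := by
    by_contra hcon
    push Not at hcon
    exact hp.2 (eq_top_iff.2 fun x _ => hcon x)
  rw [ValuationSubring.mem_comap] at hx
  have hx0 : x ≠ 0 := by
    rintro rfl
    exact hx (by rw [map_zero]; exact zero_mem _)
  have hv : W.valuation (algebraMap F Ω x⁻¹) < 1 := by
    rw [map_inv₀, map_inv₀]
    rw [← W.valuation_le_one_iff, not_le] at hx
    exact inv_lt_one_of_one_lt₀ hx
  have hne : algebraMap F Ω x⁻¹ ≠ 0 := by simpa using hx0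
  have ht : Transcendental K x⁻¹ := by
    intro h
    have h1 : IsAlgebraic K (algebraMap F Ω x⁻¹) :=
      (isAlgebraic_algebraMap_iff (algebraMap F Ω).injective).2 h
    exact hne (eq_zero_of_val_lt_one hW.1 h1 hv)
  have := hF.isAlgebraic_adjoin_map (Ω := Ω) ht
  exact exists_const (F := K⟮algebraMap F Ω x⁻¹⟯) hW.1 (isRational_adjoin hW.1 hne hv) hf

/-- elements of a decomposition group acting trivially on constants are in the inertia group -/
theorem mem_inertia_of_decomp' [Algebra.IsAlgebraic F Ω] [IsAlgClosed Ω]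
    (hF : IsFunctionField K F) {W : ValuationSubring Ω} (hW : IsPlace K W) {σ : Ω ≃ₐ[F] Ω}
    (h1 : σ ∈ decomp (F := F) W) (h2 : ∀ c : Ω, IsAlgebraic K c → σ c = c) :
    σ ∈ inertia (F := F) W := by
  intro f hf
  obtain ⟨c, hc, hv⟩ := exists_const_of_isPlace hF hW hf
  have h3 : W.valuation (σ (f - c)) < 1 := by
    rw [← ValuationSubring.mem_nonunits_iff, ValuationSubring.mem_nonunits_iff_or] at hv ⊢
    rcases hv with hv | hv
    · left
      rw [hv, map_zero]
    · right
      intro h
      apply hv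
      rw [← map_inv₀] at h
      exact (h1 _).1 h
  have h4 : σ f - f = σ (f - c) - (f - c) := by
    rw [map_sub, h2 c hc]
    ring
  rw [h4]
  exact Valuation.map_sub_lt _ h3 hv

end Rational

section Restriction

variable {F Ω : Type u} [Field F] [Algebra K F] [Field Ω] [Algebra F Ω] [Algebra K Ω]
  [IsScalarTower K F Ω]

variable (K) in
/-- the action on the constants -/
noncomputable def constRes : (Ω ≃ₐ[F] Ω) →* (algebraicClosure K Ω ≃ₐ[K] algebraicClosure K Ω) where
  toFun σ := algebraicClosure.algEquivOfAlgEquiv (σ.restrictScalars K)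
  map_one' := by
    ext x
    rfl
  map_mul' σ τ := by
    ext x
    rfl

@[simp]
theorem coe_constRes (σ : Ω ≃ₐ[F] Ω) (c : algebraicClosure K Ω) :
    ((constRes K σ c : algebraicClosure K Ω) : Ω) = σ c := rfl

theorem constRes_eq_one_iff (σ : Ω ≃ₐ[F] Ω) :
    constRes K σ = 1 ↔ ∀ c : Ω, IsAlgebraic K c → σ c = c := by
  constructor
  · intro h c hc
    have := congrArg (fun θ : algebraicClosure K Ω ≃ₐ[K] algebraicClosure K Ω =>
      ((θ ⟨c, mem_algebraicClosure_iff.2 hc⟩ : algebraicClosure K Ω) : Ω)) h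
    exact this
  · intro h
    ext c
    exact h c (mem_algebraicClosure_iff.1 c.2)

/-- the decomposition group of a place over a rational place acts on the constants through the
full automorphism group -/
theorem exists_decomp_constRes_eq [Algebra.IsAlgebraic F Ω] [IsAlgClosed Ω]
    {W : ValuationSubring Ω} (hr : IsRational K (W.comap (algebraMap F Ω)))
    (θ : algebraicClosure K Ω ≃ₐ[K] algebraicClosure K Ω) :
    ∃ σ ∈ decomp (F := F) W, constRes K σ = θ := by
  obtain ⟨σ, hσ, h⟩ := exists_decomp_eq_on_const hr θ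
  refine ⟨σ, hσ, ?_⟩
  ext c
  exact h c

end Restriction

end PiCurve
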