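import Mathlib
import Pool.Agent.Helper10.Pi2.FF

/-!
# The Galois argument for specialisation systems

`C` and `C₀` are abelian groups with actions of `Aut(Ω/E)` and of `Aut(K_b/K)`, `K_b` the
constants of `Ω`, connected by specialisation maps, one for each place of `Ω/K`.
-/

set_option autoImplicit false

universe u v

open Polynomial Topology IntermediateField
open scoped Pointwise

namespace PiCurve

section Continuity

variable {F Ω : Type u} [Field F] [Field Ω] [Algebra F Ω] (E : IntermediateField F Ω)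

/-- restriction of scalars as a homomorphism -/
def resScalars : (Ω ≃ₐ[E] Ω) →* (Ω ≃ₐ[F] Ω) where
  toFun := fun σ => σ.restrictScalars F
  map_one' := rfl
  map_mul' := fun _ _ => rfl

@[simp]
theorem resScalars_apply (σ : Ω ≃ₐ[E] Ω) (x : Ω) : resScalars E σ x = σ x := rfl

variable {E} in
/-- an automorphism fixing `E` as an `E`-automorphism -/
def liftScalars (σ : Ω ≃ₐ[F] Ω) (h : ∀ x ∈ E, σ x = x) : Ω ≃ₐ[E] Ω :=
  { σ with commutes' := fun e => h e e.2 }

@[simp]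
theorem liftScalars_apply (σ : Ω ≃ₐ[F] Ω) (h : ∀ x ∈ E, σ x = x) (x : Ω) :
    liftScalars σ h x = σ x := rfl

@[simp]
theorem resScalars_liftScalars (σ : Ω ≃ₐ[F] Ω) (h : ∀ x ∈ E, σ x = x) :
    resScalars E (liftScalars σ h) = σ := rfl

theorem continuous_resScalars [Algebra.IsAlgebraic F Ω] : Continuous (resScalars E) := by
  apply continuous_of_continuousAt_one
  rw [continuousAt_def, map_one]
  intro s hs
  obtain ⟨L, hL, hLs⟩ := (krullTopology_mem_nhds_one_iff F Ω s).1 hs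
  rw [krullTopology_mem_nhds_one_iff]
  obtain ⟨t, ht⟩ := IntermediateField.fg_def.1
    (IntermediateField.essFiniteType_iff.1 (inferInstance : Algebra.EssFiniteType F L))
  refine ⟨IntermediateField.adjoin E t, ?_, ?_⟩
  · have := ht.1.to_subtype
    exact IntermediateField.finiteDimensional_adjoin fun x _ => Algebra.IsIntegral.isIntegral x
  · intro σ hσ
    apply hLs
    rw [SetLike.mem_coe, IntermediateField.mem_fixingSubgroup_iff] at hσ ⊢
    have hle : L ≤ (IntermediateField.adjoin E t).restrictScalars F := by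
      rw [← ht.2, IntermediateField.adjoin_le_iff]
      intro x hx
      exact IntermediateField.subset_adjoin E t hx
    intro x hx
    exact hσ x (hle hx)

end Continuity

/-- A specialisation system: groups `C` (classes over `Ω`) and `C₀` (classes over the constants)
with a specialisation map for every place. -/
structure SpSystem (K : Type u) [Field K] (E Ω : Type u) [Field E] [Algebra K E] [Field Ω]
    [Algebra E Ω] [Algebra K Ω] [IsScalarTower K E Ω] (C C₀ : Type v) [CommGroup C]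
    [CommGroup C₀] [MulDistribMulAction (Ω ≃ₐ[E] Ω) C]
    [MulDistribMulAction (algebraicClosure K Ω ≃ₐ[K] algebraicClosure K Ω) C₀] where
  /-- constant classes -/
  ι : C₀ →* C
  ι_smul : ∀ (σ : Ω ≃ₐ[E] Ω) (c : C₀), σ • ι c = ι (constRes K σ • c)
  /-- specialisation -/
  sp : ValuationSubring Ω → (C →* C₀)
  sp_ι : ∀ W, IsPlace K W → ∀ c, sp W (ι c) = c
  sp_smul : ∀ W, IsPlace K W → ∀ (σ : Ω ≃ₐ[E] Ω) (c : C),
    sp (W.comap ((σ⁻¹ : Ω ≃ₐ[E] Ω) : Ω →+* Ω)) (σ • c) = constRes K σ • sp W c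
  isOpen_stabilizer : ∀ c : C, IsOpen (MulAction.stabilizer (Ω ≃ₐ[E] Ω) c : Set (Ω ≃ₐ[E] Ω))

theorem comap_inv_eq_of_decomp {F Ω : Type u} [Field F] [Field Ω] [Algebra F Ω]
    {W : ValuationSubring Ω} {σ : Ω ≃ₐ[F] Ω} (h : ∀ f, σ f ∈ W ↔ f ∈ W) :
    W.comap ((σ⁻¹ : Ω ≃ₐ[F] Ω) : Ω →+* Ω) = W := by
  ext x
  rw [ValuationSubring.mem_comap]
  have := h (σ⁻¹ x)
  rw [← AlgEquiv.mul_apply, mul_inv_cancel, AlgEquiv.one_apply] at this
  exact this.symm

/-- the inverse image of a place under an automorphism is a place -/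
theorem IsPlace.comap_aut {K : Type u} [Field K] {F Ω : Type u} [Field F] [Algebra K F] [Field Ω]
    [Algebra F Ω] [Algebra K Ω] [IsScalarTower K F Ω] {W : ValuationSubring Ω}
    (hW : IsPlace K W) (σ : Ω ≃ₐ[F] Ω) : IsPlace K (W.comap (σ : Ω →+* Ω)) := by
  refine ⟨fun a => ?_, fun h => hW.2 ?_⟩
  · rw [ValuationSubring.mem_comap]
    have : (σ : Ω →+* Ω) (algebraMap K Ω a) = algebraMap K Ω a := by
      rw [IsScalarTower.algebraMap_apply K F Ω]
      exact σ.commutes _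
    rw [this]
    exact hW.1 a
  · rw [eq_top_iff]
    intro x _
    have h1 : σ⁻¹ x ∈ W.comap (σ : Ω →+* Ω) := by
      rw [h]
      trivial
    rw [ValuationSubring.mem_comap] at h1
    change σ (σ⁻¹ x) ∈ W at h1
    rwa [← AlgEquiv.mul_apply, mul_inv_cancel, AlgEquiv.one_apply] at h1

section Sep

variable {K : Type u} [Field K]
variable {F Ω : Type u} [Field F] [Algebra K F] [Field Ω] [Algebra F Ω] [Algebra K Ω]
  [IsScalarTower K F Ω]

/-- elements of the inertia group are in the decomposition group -/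
theorem inertia_le_decomp {W : ValuationSubring Ω} {σ : Ω ≃ₐ[F] Ω}
    (hσ : σ ∈ inertia (F := F) W) : σ ∈ decomp (F := F) W := by
  have h1 : ∀ f ∈ W, σ f ∈ W := by
    intro f hf
    have h2 : σ f = (σ f - f) + f := by ring
    rw [h2]
    exact add_mem ((W.valuation_le_one_iff _).1 (hσ f hf).le) hf
  have hunit : ∀ f ∈ W, W.valuation f < 1 → W.valuation (σ f) < 1 := by
    intro f hf hv
    have h2 : σ f = (σ f - f) + f := by ring
    rw [h2]
    exact Valuation.map_add_lt _ (hσ f hf) hv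
  intro f
  refine ⟨fun h => ?_, h1 f⟩
  by_contra hf
  have hf0 : f ≠ 0 := by
    rintro rfl
    exact hf (zero_mem _)
  have hv : W.valuation f⁻¹ < 1 := by
    rw [map_inv₀]
    rw [← W.valuation_le_one_iff, not_le] at hf
    exact inv_lt_one_of_one_lt₀ hf
  have h2 := hunit f⁻¹ ((W.valuation_le_one_iff _).1 hv.le) hv
  rw [map_inv₀, map_inv₀] at h2
  have h3 : 1 < W.valuation (σ f) := by
    have hpos : 0 < W.valuation (σ f) := zero_lt_iff.2
      ((Valuation.ne_zero_iff _).2 (by simpa using hf0))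
    exact (inv_lt_one₀ hpos).1 h2
  exact absurd ((W.valuation_le_one_iff _).2 h) (not_le.2 h3)

/-- A closed subgroup containing all inertia groups of places above `X` contains the subgroup
generated by inertia. -/
theorem ramSubgroup_le {S : Finset (ValuationSubring F)} (T : Subgroup (Ω ≃ₐ[F] Ω))
    (hT : IsClosed (T : Set (Ω ≃ₐ[F] Ω)))
    (h : ∀ W : ValuationSubring Ω, IsPlace K W → W.comap (algebraMap F Ω) ∉ S →
      ∀ σ ∈ inertia (F := F) W, σ ∈ T) : ramSubgroup K Ω S ≤ T := by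
  refine Subgroup.topologicalClosure_minimal _ ?_ hT
  rw [Subgroup.normalClosure, Subgroup.closure_le]
  intro τ hτ
  obtain ⟨σ, hσ, hc⟩ := Group.mem_conjugatesOfSet_iff.1 hτ
  obtain ⟨g, rfl⟩ := isConj_iff.1 hc
  simp only [Set.mem_iUnion] at hσ
  obtain ⟨W, ⟨hW, hWS⟩, hσ⟩ := hσ
  have hW' := hW.comap_aut (g⁻¹ : Ω ≃ₐ[F] Ω)
  refine h (W.comap ((g⁻¹ : Ω ≃ₐ[F] Ω) : Ω →+* Ω)) hW' ?_ _ ?_
  · have : (W.comap ((g⁻¹ : Ω ≃ₐ[F] Ω) : Ω →+* Ω)).comap (algebraMap F Ω) =
        W.comap (algebraMap F Ω) := by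
      ext x
      rw [ValuationSubring.mem_comap, ValuationSubring.mem_comap, ValuationSubring.mem_comap]
      simp
    rw [this]
    exact hWS
  · intro f hf
    rw [ValuationSubring.mem_comap] at hf
    change g⁻¹ f ∈ W at hf
    rw [comap_aut_val_lt_one, map_sub]
    have h1 := hσ _ hf
    have h2 : g⁻¹ ((g * σ * g⁻¹) f) = σ (g⁻¹ f) := by
      rw [← AlgEquiv.mul_apply, ← AlgEquiv.mul_apply]
      congr 1
      group
    rw [h2]
    exact h1

/-- constants are fixed by the conjugate of an automorphism with the same restriction -/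
theorem constRes_conj {γ : Ω ≃ₐ[F] Ω} (hγ : ∀ a : Ω, IsAlgebraic K a → γ a = a)
    (τ : Ω ≃ₐ[F] Ω) : constRes K (γ * τ * γ⁻¹) = constRes K τ := by
  have h1 : constRes K γ = 1 := (constRes_eq_one_iff γ).2 hγ
  rw [map_mul, map_mul, map_inv, h1, one_mul, inv_one, mul_one]

/-- The Galois argument: in a specialisation system over the field `E` of the Galois reduction, an
invariant class `x` with trivial specialisation at `W`, divisible by `α`, has at `γ W` a
specialisation divisible by `α` in the group of Galois invariant classes. -/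
theorem SpSystem.exists_invariant [Algebra.IsAlgebraic F Ω] [IsAlgClosed Ω]
    {S : Finset (ValuationSubring F)} {W : ValuationSubring Ω} (hW : IsPlace K W)
    (hr : IsRational K (W.comap (algebraMap F Ω)))
    {γ : Ω ≃ₐ[F] Ω} (hγ : ∀ a : Ω, IsAlgebraic K a → γ a = a)
    (hcomm : ∀ δ ∈ decomp (F := F) W, γ * δ * γ⁻¹ * δ⁻¹ ∈ ramSubgroup K Ω S)
    (E : IntermediateField F Ω) [IsScalarTower K E Ω]
    (hED : ∀ δ ∈ decomp (F := F) W, ∀ x ∈ E, δ x = x)
    (hEN : ∀ ν ∈ ramSubgroup K Ω S, ∀ x ∈ E, ν x = x)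
    {C C₀ : Type v} [CommGroup C] [CommGroup C₀] [MulDistribMulAction (Ω ≃ₐ[E] Ω) C]
    [MulDistribMulAction (algebraicClosure K Ω ≃ₐ[K] algebraicClosure K Ω) C₀]
    (P : SpSystem K E Ω C C₀) (α : C →* C) (α₀ : C₀ →* C₀)
    (hασ : ∀ (σ : Ω ≃ₐ[E] Ω) (c : C), α (σ • c) = σ • α c)
    (hαι : ∀ c : C₀, α (P.ι c) = P.ι (α₀ c))
    (hαsp : ∀ V : ValuationSubring Ω, IsPlace K V → ∀ c : C, P.sp V (α c) = α₀ (P.sp V c))
    (hker : ∀ c : C, α c = 1 → ∃ c₀ : C₀, c = P.ι c₀)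
    {x y : C} (hx : ∀ σ : Ω ≃ₐ[E] Ω, σ • x = x) (hxW : P.sp W x = 1) (hy : α y = x) :
    ∃ c₀ : C₀, α₀ c₀ = P.sp (W.comap ((γ⁻¹ : Ω ≃ₐ[F] Ω) : Ω →+* Ω)) x ∧
      ∀ θ : algebraicClosure K Ω ≃ₐ[K] algebraicClosure K Ω, θ • c₀ = c₀ := by
  have hn : Normal F Ω := ⟨fun x => IsAlgClosed.splits _⟩
  have hnE : Normal E Ω := ⟨fun x => IsAlgClosed.splits _⟩
  have : CompactSpace (Ω ≃ₐ[F] Ω) := compactSpace_gal
  have : CompactSpace (Ω ≃ₐ[E] Ω) := compactSpace_gal
  have : T2Space (Ω ≃ₐ[F] Ω) := krullTopology_t2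
  -- normalisation of `y`
  set z : C := y * (P.ι (P.sp W y))⁻¹ with hz
  have hzx : α z = x := by
    rw [hz, map_mul, map_inv, hαι, ← hαsp W hW, hy, hxW, map_one, inv_one, mul_one]
  have hzW : P.sp W z = 1 := by
    rw [hz, map_mul, map_inv, P.sp_ι W hW, mul_inv_cancel]
  -- elements fixing `z`
  have key : ∀ (V : ValuationSubring Ω), IsPlace K V → ∀ σ : Ω ≃ₐ[E] Ω,
      (∀ f, σ f ∈ V ↔ f ∈ V) → constRes K σ • P.sp V z = P.sp V z → σ • z = z := by
    intro V hV σ hσ h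
    obtain ⟨c₀, hc₀⟩ := hker (σ • z * z⁻¹) (by
      rw [map_mul, map_inv, hασ, hzx, hx, mul_inv_cancel])
    have h1 := P.sp_smul V hV σ z
    rw [comap_inv_eq_of_decomp hσ, h] at h1
    have h2 : P.sp V (σ • z * z⁻¹) = 1 := by
      rw [map_mul, map_inv, h1, mul_inv_cancel]
    rw [hc₀, P.sp_ι V hV] at h2
    rw [h2, map_one] at hc₀
    exact mul_inv_eq_one.1 hc₀
  set T : Subgroup (Ω ≃ₐ[F] Ω) :=
    (MulAction.stabilizer (Ω ≃ₐ[E] Ω) z).map (resScalars E) with hT
  have hTc : IsClosed (T : Set (Ω ≃ₐ[F] Ω)) := by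
    have h1 : IsClosed (MulAction.stabilizer (Ω ≃ₐ[E] Ω) z : Set (Ω ≃ₐ[E] Ω)) :=
      Subgroup.isClosed_of_isOpen _ (P.isOpen_stabilizer z)
    have h2 := (h1.isCompact.image (continuous_resScalars E)).isClosed
    rw [hT, Subgroup.coe_map]
    exact h2
  have hNT : ramSubgroup K Ω S ≤ T := by
    refine ramSubgroup_le T hTc fun V hV hVS σ hσ => ?_
    have hσN : σ ∈ ramSubgroup K Ω S := inertia_le_ramSubgroup hV hVS hσ
    refine ⟨liftScalars σ (hEN σ hσN), ?_, rfl⟩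
    rw [SetLike.mem_coe, MulAction.mem_stabilizer_iff]
    refine key V hV _ (inertia_le_decomp hσ) ?_
    have h1 : constRes K (liftScalars σ (hEN σ hσN)) = 1 := by
      rw [constRes_eq_one_iff]
      exact fun c hc => inertia_fix hV.1 hσ hc
    rw [h1, one_smul]
  have hDT : ∀ δ ∈ decomp (F := F) W, δ ∈ T := by
    intro δ hδ
    refine ⟨liftScalars δ (hED δ hδ), ?_, rfl⟩
    rw [SetLike.mem_coe, MulAction.mem_stabilizer_iff]
    refine key W hW _ hδ ?_
    rw [hzW, smul_one]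
  refine ⟨P.sp (W.comap ((γ⁻¹ : Ω ≃ₐ[F] Ω) : Ω →+* Ω)) z, ?_, fun θ => ?_⟩
  · rw [← hαsp _ (hW.comap_aut _), hzx]
  · obtain ⟨τ, hτ, hτθ⟩ := exists_decomp_constRes_eq hr θ
    set τ' := γ * τ * γ⁻¹ with hτ'
    have h1 : τ' ∈ T := by
      have h2 : τ' = (γ * τ * γ⁻¹ * τ⁻¹) * τ := by rw [hτ']; group
      rw [h2]
      exact T.mul_mem (hNT (hcomm τ hτ)) (hDT τ hτ)
    obtain ⟨ρ, hρ, hρτ⟩ := h1
    rw [SetLike.mem_coe, MulAction.mem_stabilizer_iff] at hρ
    have h3 : ∀ f, ρ f = τ' f := fun f => by rw [← hρτ]; rfl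
    have h4 : constRes K ρ = θ := by
      rw [← hτθ, ← constRes_conj hγ τ]
      ext c
      rw [coe_constRes, coe_constRes, h3]
    have h5 : (W.comap ((γ⁻¹ : Ω ≃ₐ[F] Ω) : Ω →+* Ω)).comap ((ρ⁻¹ : Ω ≃ₐ[E] Ω) : Ω →+* Ω) =
        W.comap ((γ⁻¹ : Ω ≃ₐ[F] Ω) : Ω →+* Ω) := by
      apply comap_inv_eq_of_decomp
      intro f
      rw [ValuationSubring.mem_comap, ValuationSubring.mem_comap, h3]
      change γ⁻¹ (τ' f) ∈ W ↔ γ⁻¹ f ∈ W
      have h6 : γ⁻¹ (τ' f) = τ (γ⁻¹ f) := by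
        rw [← AlgEquiv.mul_apply, ← AlgEquiv.mul_apply]
        congr 1
        rw [hτ']
        group
      rw [h6]
      exact hτ _
    have h6 := P.sp_smul _ (hW.comap_aut γ⁻¹) ρ z
    rw [h5, hρ, h4] at h6
    exact h6.symm

end Sep

end PiCurve
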