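import Mathlib
import Pool.Agent.Helper10.Pi2.Sep
import Pool.Agent.Helper99.PiP.Place

/-!
# Genus zero

The Galois reduction is impossible if the field `E` is rational: `E = K(s)`.
-/

set_option autoImplicit false

universe u

open Polynomial Topology IntermediateField
open scoped Pointwise

namespace PiCurve

variable {K : Type u} [Field K]

section Adjoin

variable {Ω : Type u} [Field Ω] [Algebra K Ω]

theorem mem_iff_rootMultiplicity {V : ValuationSubring Ω} (hV : ∀ a : K, algebraMap K Ω a ∈ V)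
    {y : Ω} (hy : y ≠ 0) (hv : V.valuation y < 1) {f : Ω} {r s : K[X]} (hr0 : r ≠ 0)
    (hs0 : s ≠ 0) (hrs : f = aeval y r / aeval y s) :
    f ∈ V ↔ s.rootMultiplicity 0 ≤ r.rootMultiplicity 0 := by
  obtain ⟨r', hr', hr''⟩ := exists_eq_pow_rootMultiplicity_mul_and_not_dvd r hr0 0
  obtain ⟨s', hs', hs''⟩ := exists_eq_pow_rootMultiplicity_mul_and_not_dvd s hs0 0
  set k := r.rootMultiplicity 0 with hk
  set l := s.rootMultiplicity 0 with hl
  rw [C_0, sub_zero] at hr' hr'' hs' hs''
  rw [X_dvd_iff] at hr'' hs''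
  have e1 : aeval y r = y ^ k * aeval y r' := by
    rw [hr']; simp
  have e2 : aeval y s = y ^ l * aeval y s' := by
    rw [hs']; simp
  have v1 : V.valuation (aeval y r') = 1 := val_eq_one_of_sub_lt hV hr'' (val_aeval_sub_lt hV hv r')
  have v2 : V.valuation (aeval y s') = 1 := val_eq_one_of_sub_lt hV hs'' (val_aeval_sub_lt hV hv s')
  have hvy : 0 < V.valuation y := zero_lt_iff.2 ((Valuation.ne_zero_iff _).2 hy)
  have h1 : V.valuation f = V.valuation y ^ k / V.valuation y ^ l := by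
    rw [hrs, e1, e2, map_div₀, map_mul, map_mul, v1, v2, mul_one, mul_one, map_pow, map_pow]
  rw [← V.valuation_le_one_iff, h1, div_le_one₀ (pow_pos hvy l)]
  exact pow_le_pow_iff_right_of_lt_one₀ hvy hv

/-- uniqueness of the valuation ring of `K(y)` with `y` in its maximal ideal -/
theorem mem_iff_mem_of_adjoin {V V' : ValuationSubring Ω} (hV : ∀ a : K, algebraMap K Ω a ∈ V)
    (hV' : ∀ a : K, algebraMap K Ω a ∈ V') {y : Ω} (hy : y ≠ 0) (hv : V.valuation y < 1)
    (hv' : V'.valuation y < 1) {f : Ω} (hf : f ∈ K⟮y⟯) : f ∈ V ↔ f ∈ V' := by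
  obtain ⟨r, s, hrs⟩ := (mem_adjoin_simple_iff K f).1 hf
  by_cases hr0 : r = 0
  · have : f = 0 := by rw [hrs, hr0]; simp
    rw [this]
    exact ⟨fun _ => zero_mem _, fun _ => zero_mem _⟩
  by_cases hs0 : s = 0
  · have : f = 0 := by rw [hrs, hs0]; simp
    rw [this]
    exact ⟨fun _ => zero_mem _, fun _ => zero_mem _⟩
  rw [mem_iff_rootMultiplicity hV hy hv hr0 hs0 hrs, mem_iff_rootMultiplicity hV' hy hv' hr0 hs0 hrs]

/-- generators of a rational function field are related by fractional linear transformations -/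
theorem exists_mobius {s f : Ω} (hs : Transcendental K s) (h : K⟮f⟯ = K⟮s⟯) :
    ∃ a b c d : K, algebraMap K Ω c * s + algebraMap K Ω d ≠ 0 ∧
      f = (algebraMap K Ω a * s + algebraMap K Ω b) / (algebraMap K Ω c * s + algebraMap K Ω d) := by
  have hf : f ∈ K⟮s⟯ := by rw [← h]; exact mem_adjoin_simple_self K f
  set e := RatFunc.algEquivOfTranscendental s hs with he
  set r : RatFunc K := e.symm ⟨f, hf⟩ with hr
  have her : e r = ⟨f, hf⟩ := by rw [hr, AlgEquiv.apply_symm_apply]
  have htop : K⟮r⟯ = ⊤ := by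
    rw [eq_top_iff, ← RatFunc.adjoin_X, adjoin_simple_le_iff]
    have h1 : s ∈ K⟮f⟯ := by rw [h]; exact mem_adjoin_simple_self K s
    obtain ⟨p, q, hpq⟩ := (mem_adjoin_simple_iff K s).1 h1
    rw [mem_adjoin_simple_iff]
    refine ⟨p, q, ?_⟩
    apply e.injective
    apply Subtype.ext
    rw [map_div₀, ← aeval_algHom_apply, ← aeval_algHom_apply, her]
    have h2 : e RatFunc.X = AdjoinSimple.gen K s :=
      Subtype.ext (RatFunc.algEquivOfTranscendental_X s hs)
    rw [h2]
    have h3 : ∀ p : K[X], ((aeval (⟨f, hf⟩ : K⟮s⟯) p : K⟮s⟯) : Ω) = aeval f p := by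
      intro p
      exact (aeval_algebraMap_apply Ω (⟨f, hf⟩ : K⟮s⟯) p).symm
    change s = ((aeval (⟨f, hf⟩ : K⟮s⟯) p / aeval (⟨f, hf⟩ : K⟮s⟯) q : K⟮s⟯) : Ω)
    rw [IntermediateField.coe_div, h3, h3]
    exact hpq
  have hfin : max r.num.natDegree r.denom.natDegree = 1 := by
    rw [← RatFunc.finrank_eq_max_natDegree, htop, IntermediateField.finrank_top]
  have hn : r.num.natDegree ≤ 1 := hfin ▸ le_max_left _ _
  have hd : r.denom.natDegree ≤ 1 := hfin ▸ le_max_right _ _
  obtain ⟨a, b, hab⟩ := exists_eq_X_add_C_of_natDegree_le_one hn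
  obtain ⟨c, d, hcd⟩ := exists_eq_X_add_C_of_natDegree_le_one hd
  have h4 : aeval s r.num = algebraMap K Ω a * s + algebraMap K Ω b := by rw [hab]; simp
  have h5 : aeval s r.denom = algebraMap K Ω c * s + algebraMap K Ω d := by rw [hcd]; simp
  have h6 : f = aeval s r.num / aeval s r.denom := by
    have := congrArg Subtype.val her
    rw [he, RatFunc.algEquivOfTranscendental_apply] at this
    exact this.symm
  refine ⟨a, b, c, d, ?_, ?_⟩
  · rw [← h5]
    intro h0
    exact r.denom_ne_zero (by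
      by_contra hne
      exact hs ⟨r.denom, hne, h0⟩)
  · rw [h6, h4, h5]

end Adjoin

section Fixed

variable {F Ω : Type u} [Field F] [Algebra K F] [Field Ω] [Algebra F Ω] [Algebra K Ω]
  [IsScalarTower K F Ω]

/-- an element algebraic over `K` as an element of the field of constants -/
def toConst {c : Ω} (hc : IsAlgebraic K c) : algebraicClosure K Ω :=
  ⟨c, mem_algebraicClosure_iff.2 hc⟩

/-- constants are contained in places, with the field of constants as base field -/
theorem IsPlace.algClosure {V : ValuationSubring Ω} (hV : IsPlace K V) :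
    ∀ a : algebraicClosure K Ω, algebraMap (algebraicClosure K Ω) Ω a ∈ V :=
  fun a => mem_of_isAlgebraic hV.1 (mem_algebraicClosure_iff.1 a.2)

/-- If `γ` fixes the constants and has a fixed point `P` above the curve on the projective line
with coordinate `s`, then `γ` fixes `E`, for any `E` contained in `K(s)` fixed by the subgroup
generated by inertia. -/
theorem fixes_of_fixed_point [Algebra.IsAlgebraic F Ω] [IsAlgClosed Ω]
    (hF : IsFunctionField K F) {S : Finset (ValuationSubring F)} (E : IntermediateField F Ω)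
    (hEN : ∀ ν ∈ ramSubgroup K Ω S, ∀ x ∈ E, ν x = x) {s : Ω} (hEs : ∀ x ∈ E, x ∈ K⟮s⟯)
    {γ : Ω ≃ₐ[F] Ω} (hγ : ∀ a : Ω, IsAlgebraic K a → γ a = a)
    {V : ValuationSubring Ω} (hV : IsPlace K V) (hVS : V.comap (algebraMap F Ω) ∉ S)
    {P : Ω} (hP : IsAlgebraic K P) (hsP : s ≠ P) (h1 : V.valuation (s - P) < 1)
    (h2 : V.valuation (γ s - P) < 1) : ∀ x ∈ E, γ x = x := by
  set Kb := algebraicClosure K Ω with hKb
  set y : Ω := s - P with hy
  have hy0 : y ≠ 0 := sub_ne_zero.2 hsP
  set V' := V.comap (γ : Ω →+* Ω) with hV'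
  have hV'p : IsPlace K V' := hV.comap_aut γ
  have hv' : V'.valuation y < 1 := by
    rw [hV', comap_aut_val_lt_one, hy, map_sub, hγ P hP]
    exact h2
  -- the field of rational functions over the constants
  have hsL : s ∈ Kb⟮y⟯ := by
    have e1 : s = y + algebraMap Kb Ω (toConst hP) := by
      rw [hy]
      change s = s - P + P
      ring
    rw [e1]
    exact add_mem (mem_adjoin_simple_self Kb y) (IntermediateField.algebraMap_mem _ _)
  have hEL : ∀ x ∈ E, x ∈ Kb⟮y⟯ := by
    intro x hx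
    have e1 : K⟮s⟯ ≤ (Kb⟮y⟯).restrictScalars K := by
      rw [adjoin_simple_le_iff]
      exact hsL
    exact e1 (hEs x hx)
  have heq : V.comap (algebraMap Kb⟮y⟯ Ω) = V'.comap (algebraMap Kb⟮y⟯ Ω) := by
    ext x
    rw [ValuationSubring.mem_comap, ValuationSubring.mem_comap]
    exact mem_iff_mem_of_adjoin hV.algClosure hV'p.algClosure hy0 h1 hv' x.2
  -- `Ω` is algebraic over `Kb(y)`
  have halg : Algebra.IsAlgebraic Kb⟮y⟯ Ω := by
    let φ : F →+* Kb⟮y⟯ :=
      { toFun := fun a => ⟨algebraMap F Ω a, hEL _ (E.algebraMap_mem a)⟩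
        map_one' := Subtype.ext (by simp)
        map_mul' := fun x y => Subtype.ext (by simp)
        map_zero' := Subtype.ext (by simp)
        map_add' := fun x y => Subtype.ext (by simp) }
    let : Algebra F Kb⟮y⟯ := φ.toAlgebra
    have : IsScalarTower F Kb⟮y⟯ Ω := IsScalarTower.of_algebraMap_eq fun x => rfl
    exact Algebra.IsAlgebraic.tower_top (K := F) _
  have hn : Normal Kb⟮y⟯ Ω := ⟨fun x => IsAlgClosed.splits _⟩
  obtain ⟨σ, hσ⟩ := exists_algEquiv_of_comap_eq (E := Kb⟮y⟯) V V' heq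
  have hσL : ∀ x ∈ Kb⟮y⟯, σ x = x := fun x hx => σ.commutes ⟨x, hx⟩
  let σF : Ω ≃ₐ[F] Ω := { σ with commutes' := fun a => hσL _ (hEL _ (E.algebraMap_mem a)) }
  have hσF : ∀ x, σF x = σ x := fun x => rfl
  have hdec : γ * σF ∈ decomp (F := F) V := by
    intro f
    have := hσ f
    rw [hV', ValuationSubring.mem_comap] at this
    exact this.symm
  have hconst : ∀ c : Ω, IsAlgebraic K c → (γ * σF) c = c := by
    intro c hc
    have e1 : σF c = c := by
      rw [hσF]
      exact hσL c ((Kb⟮y⟯).algebraMap_mem (toConst hc))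
    rw [AlgEquiv.mul_apply, e1, hγ c hc]
  have hin := mem_inertia_of_decomp' hF hV hdec hconst
  have hN := inertia_le_ramSubgroup hV hVS hin
  intro x hx
  have e1 := hEN _ hN x hx
  rw [AlgEquiv.mul_apply, hσF, hσL x (hEL x hx)] at e1
  exact e1

/-- there is a place with given value of a transcendental element -/
theorem exists_place_sub_lt [IsAlgClosed Ω] {s : Ω} (hs : Transcendental K s) {P : Ω}
    (hP : IsAlgebraic K P) :
    ∃ V : ValuationSubring Ω, IsPlace K V ∧ V.valuation (s - P) < 1 := by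
  set Kb := algebraicClosure K Ω with hKb
  have hcl : IsAlgClosed Kb := (algebraicClosure.isAlgClosure K Ω).isAlgClosed
  have hs' : Transcendental Kb s := Transcendental.algebraicClosure hs
  let e := Polynomial.algEquivOfTranscendental Kb s hs'
  let φ : Algebra.adjoin Kb {s} →ₐ[Kb] Kb := (aeval (toConst hP)).comp e.symm.toAlgHom
  obtain ⟨V, hV1, -, hV3, -⟩ := PiP.exists_place (Algebra.adjoin Kb {s}) φ
  have h1 := hV3 ⟨s, Algebra.self_mem_adjoin_singleton Kb s⟩
  have h2 : φ ⟨s, Algebra.self_mem_adjoin_singleton Kb s⟩ = toConst hP := by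
    have h3 : e.symm ⟨s, Algebra.self_mem_adjoin_singleton Kb s⟩ = X := by
      simp [e]
    change aeval (toConst hP) (e.symm ⟨s, Algebra.self_mem_adjoin_singleton Kb s⟩) = _
    rw [h3, aeval_X]
  rw [h2] at h1
  refine ⟨V, ⟨fun a => ?_, fun htop => ?_⟩, h1⟩
  · have := hV1 (algebraMap K Kb a)
    rwa [← IsScalarTower.algebraMap_apply] at this
  · have hne : s - P ≠ 0 := by
      intro h0
      apply hs
      rw [sub_eq_zero.1 h0]
      exact hP
    have h3 : (s - P)⁻¹ ∈ V := by
      rw [htop]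
      trivial
    rw [← V.valuation_le_one_iff, map_inv₀,
      inv_le_one₀ (zero_lt_iff.2 ((Valuation.ne_zero_iff _).2 hne))] at h3
    exact absurd h1 (not_lt.2 h3)

end Fixed

section Reduced

variable {F Ω : Type u} [Field F] [Algebra K F] [Field Ω] [Algebra F Ω] [Algebra K Ω]
  [IsScalarTower K F Ω]

/-- The situation after the Galois reduction. -/
structure Reduced (K : Type u) [Field K] {F Ω : Type u} [Field F] [Algebra K F] [Field Ω]
    [Algebra F Ω] [Algebra K Ω] [IsScalarTower K F Ω] (S : Finset (ValuationSubring F))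
    (W : ValuationSubring Ω) (γ : Ω ≃ₐ[F] Ω) (E : IntermediateField F Ω) : Prop where
  isPlace : IsPlace K W
  notMem : W.comap (algebraMap F Ω) ∉ S
  isRational : IsRational K (W.comap (algebraMap F Ω))
  fixConst : ∀ a : Ω, IsAlgebraic K a → γ a = a
  comm : ∀ δ ∈ decomp (F := F) W, γ * δ * γ⁻¹ * δ⁻¹ ∈ ramSubgroup K Ω S
  finite : FiniteDimensional F E
  mem : ∀ x ∈ E, γ x ∈ E
  inv_mem : ∀ x ∈ E, γ⁻¹ x ∈ E
  decomp_fix : ∀ δ ∈ decomp (F := F) W, ∀ x ∈ E, δ x = x
  ram_fix : ∀ ν ∈ ramSubgroup K Ω S, ∀ x ∈ E, ν x = x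
  isRational_restrict : IsRational K (W.comap (algebraMap E Ω))
  isRational_restrict' : IsRational K ((W.comap (γ⁻¹ : Ω ≃ₐ[F] Ω)).comap (algebraMap E Ω))
  ne : W.comap (algebraMap E Ω) ≠ (W.comap (γ⁻¹ : Ω ≃ₐ[F] Ω)).comap (algebraMap E Ω)

theorem exists_reduced [PerfectField K] [Algebra.IsAlgebraic F Ω] [IsAlgClosed Ω]
    {S : Finset (ValuationSubring F)} {W : ValuationSubring Ω} (hW : IsPlace K W)
    (hS : W.comap (algebraMap F Ω) ∉ S) (hr : IsRational K (W.comap (algebraMap F Ω)))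
    {γ : Ω ≃ₐ[F] Ω} (hγ : ∀ a : Ω, IsAlgebraic K a → γ a = a)
    (hcomm : ∀ δ ∈ decomp (F := F) W, γ * δ * γ⁻¹ * δ⁻¹ ∈ ramSubgroup K Ω S)
    (hγN : γ ∉ ramSubgroup K Ω S) : ∃ E : IntermediateField F Ω, Reduced K S W γ E := by
  obtain ⟨E, h1, h2, h3, h4, h5, h6, h7, h8⟩ := exists_reduction hW hS hr hγ hcomm hγN
  exact ⟨E, hW, hS, hr, hγ, hcomm, h1, h2, h3, h4, h5, h6, h7, h8⟩

variable {S : Finset (ValuationSubring F)} {W : ValuationSubring Ω} {γ : Ω ≃ₐ[F] Ω}
  {E : IntermediateField F Ω}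

theorem Reduced.exists_sep (h : Reduced K S W γ E) : ∃ x ∈ E, ¬ (x ∈ W ↔ γ x ∈ W) := by
  by_contra hcon
  push Not at hcon
  apply h.ne
  ext x
  rw [ValuationSubring.mem_comap, ValuationSubring.mem_comap, ValuationSubring.mem_comap]
  have := hcon _ (h.inv_mem x x.2)
  rw [← AlgEquiv.mul_apply, mul_inv_cancel, AlgEquiv.one_apply] at this
  exact this.symm

theorem Reduced.transcendental (h : Reduced K S W γ E) {s : Ω} (hsW : s ∉ W) :
    Transcendental K s := fun hs => hsW (mem_of_isAlgebraic h.isPlace.1 hs)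

theorem Reduced.map_mem (h : Reduced K S W γ E) {s : Ω} (hEs : ∀ x ∈ E, x ∈ K⟮s⟯)
    (hsW : s ∉ W) : γ s ∈ W := by
  by_contra hcon
  have hs0 : s ≠ 0 := by
    rintro rfl
    exact hsW (zero_mem _)
  have hv : ∀ x : Ω, x ∉ W → W.valuation x⁻¹ < 1 := by
    intro x hx
    rw [map_inv₀]
    rw [← W.valuation_le_one_iff, not_le] at hx
    exact inv_lt_one_of_one_lt₀ hx
  have hW' : IsPlace K (W.comap (γ : Ω →+* Ω)) := h.isPlace.comap_aut γ
  have h1 : (W.comap (γ : Ω →+* Ω)).valuation s⁻¹ < 1 := by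
    rw [comap_aut_val_lt_one, map_inv₀ γ]
    exact hv _ hcon
  obtain ⟨x, hx, hne⟩ := h.exists_sep
  apply hne
  have h2 : x ∈ K⟮s⁻¹⟯ := by
    have : K⟮s⟯ ≤ K⟮s⁻¹⟯ := by
      rw [adjoin_simple_le_iff]
      have := (K⟮s⁻¹⟯).inv_mem (mem_adjoin_simple_self K s⁻¹)
      rwa [inv_inv] at this
    exact this (hEs x hx)
  exact mem_iff_mem_of_adjoin h.isPlace.1 hW'.1 (inv_ne_zero hs0) (hv s hsW) h1 h2

theorem Reduced.mobius (h : Reduced K S W γ E) {s : Ω} (hsE : s ∈ E)
    (hEs : ∀ x ∈ E, x ∈ K⟮s⟯) (hsW : s ∉ W) :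
    ∃ a b c d : K, c ≠ 0 ∧ algebraMap K Ω c * s + algebraMap K Ω d ≠ 0 ∧
      γ s = (algebraMap K Ω a * s + algebraMap K Ω b) /
        (algebraMap K Ω c * s + algebraMap K Ω d) := by
  have hs := h.transcendental hsW
  have hKs : K⟮γ s⟯ = K⟮s⟯ := by
    apply le_antisymm
    · rw [adjoin_simple_le_iff]
      exact hEs _ (h.mem s hsE)
    · rw [adjoin_simple_le_iff]
      obtain ⟨p, q, hpq⟩ := (mem_adjoin_simple_iff K _).1 (hEs _ (h.inv_mem s hsE))
      rw [mem_adjoin_simple_iff]
      refine ⟨p, q, ?_⟩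
      have h1 := congrArg γ hpq
      rw [← AlgEquiv.mul_apply, mul_inv_cancel, AlgEquiv.one_apply, map_div₀] at h1
      have h2 : ∀ p : K[X], γ (aeval s p) = aeval (γ s) p := by
        intro p
        exact (aeval_algHom_apply (γ.restrictScalars K) s p).symm
      rw [h2, h2] at h1
      exact h1
  obtain ⟨a, b, c, d, h1, h2⟩ := exists_mobius hs hKs
  refine ⟨a, b, c, d, ?_, h1, h2⟩
  rintro rfl
  rw [map_zero, zero_mul, zero_add] at h1 h2
  have ha : a ≠ 0 := by
    rintro rfl
    rw [map_zero, zero_mul, zero_add] at h2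
    apply hs
    have h3 : IsAlgebraic K (γ s) := by
      rw [h2, ← map_div₀]
      exact isAlgebraic_algebraMap _
    exact (isAlgebraic_algHom_iff (γ.restrictScalars K).toAlgHom γ.injective).1 h3
  have ha' : algebraMap K Ω a ≠ 0 := by simpa using ha
  apply hsW
  have h3 : s = (algebraMap K Ω a)⁻¹ * (γ s * algebraMap K Ω d - algebraMap K Ω b) := by
    rw [h2]
    field_simp
    ring
  rw [h3, ← map_inv₀]
  exact mul_mem (h.isPlace.1 _) (sub_mem (mul_mem (h.map_mem hEs hsW) (h.isPlace.1 _))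
    (h.isPlace.1 _))

/-- the fixed points of `γ` are not above the curve -/
theorem Reduced.fixed_mem [Algebra.IsAlgebraic F Ω] [IsAlgClosed Ω] (hF : IsFunctionField K F)
    (h : Reduced K S W γ E) {s : Ω} (hEs : ∀ x ∈ E, x ∈ K⟮s⟯) (hsW : s ∉ W) {a b c d : K}
    (hc : c ≠ 0) (hcd : algebraMap K Ω c * s + algebraMap K Ω d ≠ 0)
    (hγs : γ s = (algebraMap K Ω a * s + algebraMap K Ω b) /
        (algebraMap K Ω c * s + algebraMap K Ω d))
    {P : Ω} (hP : IsAlgebraic K P)
    (hPr : algebraMap K Ω c * P ^ 2 + (algebraMap K Ω d - algebraMap K Ω a) * P -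
      algebraMap K Ω b = 0) {V : ValuationSubring Ω} (hV : IsPlace K V)
    (hVs : V.valuation (s - P) < 1) : V.comap (algebraMap F Ω) ∈ S := by
  by_contra hVS
  have hs := h.transcendental hsW
  have hsP : s ≠ P := by
    rintro rfl
    exact hs hP
  set A := algebraMap K Ω a
  set B := algebraMap K Ω b
  set C := algebraMap K Ω c
  set D := algebraMap K Ω d
  have hC : C ≠ 0 := by simpa [C] using hc
  have hPalg : ∀ x : K, IsAlgebraic K (algebraMap K Ω x) := fun x => isAlgebraic_algebraMap x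
  have hden : C * P + D ≠ 0 := by
    intro h0
    have h1 : A * P + B = 0 := by
      have : P * (C * P + D) = A * P + B := by linear_combination hPr
      rw [← this, h0, mul_zero]
    apply hs
    have h2 : γ s = A / C := by
      rw [hγs, div_eq_div_iff hcd hC]
      linear_combination C * h1 - A * h0
    have h3 : IsAlgebraic K (γ s) := by
      rw [h2, div_eq_mul_inv]
      exact (hPalg a).mul (hPalg c).inv
    exact (isAlgebraic_algHom_iff (γ.restrictScalars K).toAlgHom γ.injective).1 h3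
  have hdv : V.valuation (C * s + D) = 1 := by
    have h1 : V.valuation (C * P + D) = 1 :=
      val_eq_one_of_isAlgebraic hV.1 (((hPalg c).mul hP).add (hPalg d)) hden
    have h2 : V.valuation (C * s + D - (C * P + D)) < V.valuation (C * P + D) := by
      have : C * s + D - (C * P + D) = C * (s - P) := by ring
      rw [this, h1, map_mul]
      calc V.valuation C * V.valuation (s - P) ≤ 1 * V.valuation (s - P) :=
            mul_le_mul_left ((V.valuation_le_one_iff _).2 (hV.1 c)) _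
        _ < 1 := by rw [one_mul]; exact hVs
    rw [Valuation.map_eq_of_sub_lt _ h2, h1]
  have h2 : V.valuation (γ s - P) < 1 := by
    have h3 : γ s - P = (A - C * P) * (s - P) / (C * s + D) := by
      rw [hγs, eq_div_iff hcd, sub_mul, div_mul_cancel₀ _ hcd]
      linear_combination -hPr
    rw [h3, map_div₀, map_mul, hdv, div_one]
    have h4 : A - C * P ∈ V := sub_mem (hV.1 a) (mul_mem (hV.1 c) (mem_of_isAlgebraic hV.1 hP))
    calc V.valuation (A - C * P) * V.valuation (s - P) ≤ 1 * V.valuation (s - P) :=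
          mul_le_mul_left ((V.valuation_le_one_iff _).2 h4) _
      _ < 1 := by rw [one_mul]; exact hVs
  have h3 := fixes_of_fixed_point hF E h.ram_fix hEs h.fixConst hV hVS hP hsP hVs h2
  obtain ⟨x, hx, hne⟩ := h.exists_sep
  rw [h3 x hx] at hne
  exact hne Iff.rfl

/-- Genus zero is impossible if `S` is empty. -/
theorem Reduced.false_of_empty [Algebra.IsAlgebraic F Ω] [IsAlgClosed Ω]
    (hF : IsFunctionField K F) (h : Reduced K (∅ : Finset (ValuationSubring F)) W γ E) {s : Ω}
    (hsE : s ∈ E) (hEs : ∀ x ∈ E, x ∈ K⟮s⟯) (hsW : s ∉ W) : False := by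
  obtain ⟨a, b, c, d, hc, hcd, hγs⟩ := h.mobius hsE hEs hsW
  let p : K[X] := C c * X ^ 2 + C (d - a) * X - C b
  have hpd : p.degree = 2 := by
    have : p = C c * X ^ 2 + C (d - a) * X + C (-b) := by simp [p, sub_eq_add_neg]
    rw [this]
    exact degree_quadratic hc
  obtain ⟨P, hPr⟩ := IsAlgClosed.exists_aeval_eq_zero Ω p (by rw [hpd]; norm_num)
  have hP : IsAlgebraic K P := ⟨p, by
    intro h0
    rw [h0, degree_zero] at hpd
    exact absurd hpd (by decide), hPr⟩
  have hPr' : algebraMap K Ω c * P ^ 2 + (algebraMap K Ω d - algebraMap K Ω a) * P -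
      algebraMap K Ω b = 0 := by
    simpa [p] using hPr
  obtain ⟨V, hV, hVs⟩ := exists_place_sub_lt (h.transcendental hsW) hP
  exact absurd (h.fixed_mem hF hEs hsW hc hcd hγs hP hPr' hV hVs) (Finset.notMem_empty _)

end Reduced

end PiCurve
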