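import Mathlib
import Pool.Agent.Helper10.Pi2.Gen0

/-!
# Genus zero in characteristic zero, with nonempty `S`
-/

set_option autoImplicit false

universe u

open Polynomial Topology IntermediateField
open scoped Pointwise

namespace PiCurve

variable {K : Type u} [Field K]

section Finite

variable {F Ω : Type u} [Field F] [Algebra K F] [Field Ω] [Algebra F Ω] [Algebra K Ω]
  [IsScalarTower K F Ω] {S : Finset (ValuationSubring F)} {W : ValuationSubring Ω}
  {γ : Ω ≃ₐ[F] Ω} {E : IntermediateField F Ω}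

/-- `γ` acts on `E` -/
def Reduced.autE (h : Reduced K S W γ E) : E ≃ₐ[F] E where
  toFun x := ⟨γ x, h.mem x x.2⟩
  invFun x := ⟨γ⁻¹ x, h.inv_mem x x.2⟩
  left_inv x := Subtype.ext (γ.symm_apply_apply x)
  right_inv x := Subtype.ext (γ.apply_symm_apply x)
  map_mul' _ _ := Subtype.ext (map_mul γ _ _)
  map_add' _ _ := Subtype.ext (map_add γ _ _)
  commutes' a := Subtype.ext (γ.commutes a)

theorem Reduced.exists_pow (h : Reduced K S W γ E) : ∃ n : ℕ, 0 < n ∧ ∀ x ∈ E, (γ ^ n) x = x := by
  have := h.finite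
  have hfin : Finite (E ≃ₐ[F] E) := inferInstance
  obtain ⟨n, hn, hn1⟩ := isOfFinOrder_iff_pow_eq_one.1 (isOfFinOrder_of_finite h.autE)
  refine ⟨n, hn, fun x hx => ?_⟩
  have key : ∀ m : ℕ, ∀ y : E, (((h.autE ^ m) y : E) : Ω) = (γ ^ m) y := by
    intro m
    induction m with
    | zero => intro y; rfl
    | succ m ih =>
      intro y
      rw [pow_succ, pow_succ, AlgEquiv.mul_apply, AlgEquiv.mul_apply, ih]
      rfl
  rw [← key n ⟨x, hx⟩, hn1]
  rfl

/-- the unipotent case is impossible in characteristic zero -/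
theorem Reduced.false_of_double [CharZero K] (h : Reduced K S W γ E) {s : Ω} (hsE : s ∈ E)
    (hsW : s ∉ W) {A B C D P : Ω} (hA : γ A = A) (hC' : γ C = C)
    (hC : C ≠ 0) (hcd : C * s + D ≠ 0) (hγs : γ s = (A * s + B) / (C * s + D))
    (hP : IsAlgebraic K P) (hPr : C * P ^ 2 + (D - A) * P - B = 0) (h2 : 2 * C * P = A - D) :
    False := by
  have hs := h.transcendental hsW
  have : CharZero Ω := charZero_of_injective_algebraMap (algebraMap K Ω).injective
  have hsP : s - P ≠ 0 := by
    intro h0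
    apply hs
    rw [sub_eq_zero.1 h0]
    exact hP
  have hγP : γ P = P := h.fixConst P hP
  have h3 : γ s - P = (A - C * P) * (s - P) / (C * s + D) := by
    rw [hγs, eq_div_iff hcd, sub_mul, div_mul_cancel₀ _ hcd]
    linear_combination -hPr
  have hm : A - C * P ≠ 0 := by
    intro h0
    rw [h0, zero_mul, zero_div] at h3
    apply hsP
    apply γ.injective
    rw [map_sub, hγP, map_zero]
    exact h3
  set m := A - C * P with hmdef
  have h4 : γ (s - P)⁻¹ = (s - P)⁻¹ + C / m := by
    rw [map_inv₀, map_sub, hγP, h3]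
    have h5 : C * s + D = C * (s - P) + m := by
      rw [hmdef]
      linear_combination h2
    rw [h5] at hcd ⊢
    field_simp
    ring
  have h6 : γ (C / m) = C / m := by
    rw [map_div₀, hmdef, map_sub, map_mul, hA, hC', hγP]
  have h7 : ∀ n : ℕ, (γ ^ n) (s - P)⁻¹ = (s - P)⁻¹ + n * (C / m) := by
    intro n
    induction n with
    | zero => simp
    | succ n ih =>
      rw [pow_succ', AlgEquiv.mul_apply, ih, map_add, map_mul, h4, h6, map_natCast]
      push_cast
      ring
  obtain ⟨n, hn, hn1⟩ := h.exists_pow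
  have h8 : ∀ n : ℕ, (γ ^ n) P = P := by
    intro n
    induction n with
    | zero => rfl
    | succ n ih => rw [pow_succ', AlgEquiv.mul_apply, ih, hγP]
  have h9 := h7 n
  rw [map_inv₀, map_sub, hn1 s hsE, h8] at h9
  have h10 : (n : Ω) * (C / m) = 0 := by
    have := h9
    linear_combination -this
  rcases mul_eq_zero.1 h10 with h11 | h11
  · exact absurd h11 (by exact_mod_cast hn.ne')
  · exact (div_ne_zero hC hm) h11

end Finite

section Kummer

variable {F Ω : Type u} [Field F] [Algebra K F] [Field Ω] [Algebra F Ω] [Algebra K Ω]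
  [IsScalarTower K F Ω]

omit [Algebra K F] [IsScalarTower K F Ω] in
/-- places with the same value of `s` have the same restriction to `F` -/
theorem comap_eq_of_sub_lt (E : IntermediateField F Ω) {s : Ω} (hEs : ∀ x ∈ E, x ∈ K⟮s⟯)
    {V V' : ValuationSubring Ω} (hV : IsPlace K V) (hV' : IsPlace K V') {P : Ω}
    (hP : IsAlgebraic K P) (hsP : s ≠ P) (h1 : V.valuation (s - P) < 1)
    (h2 : V'.valuation (s - P) < 1) :
    V.comap (algebraMap F Ω) = V'.comap (algebraMap F Ω) := by
  set Kb := algebraicClosure K Ω with hKb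
  have hsL : s ∈ Kb⟮s - P⟯ := by
    have e1 : s = (s - P) + algebraMap Kb Ω (toConst hP) := by
      change s = s - P + P
      ring
    have e2 := add_mem (mem_adjoin_simple_self Kb (s - P))
      (IntermediateField.algebraMap_mem Kb⟮s - P⟯ (toConst hP))
    rwa [← e1] at e2
  have hEL : ∀ x ∈ E, x ∈ Kb⟮s - P⟯ := by
    intro x hx
    have e1 : K⟮s⟯ ≤ (Kb⟮s - P⟯).restrictScalars K := by
      rw [adjoin_simple_le_iff]
      exact hsL
    exact e1 (hEs x hx)
  ext x
  rw [ValuationSubring.mem_comap, ValuationSubring.mem_comap]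
  exact mem_iff_mem_of_adjoin hV.algClosure hV'.algClosure (sub_ne_zero.2 hsP) h1 h2
    (hEL _ (E.algebraMap_mem x))

/-- automorphisms in a decomposition group preserve the maximal ideal -/
theorem decomp_val_lt_one {W : ValuationSubring Ω} {σ : Ω ≃ₐ[F] Ω}
    (hσ : σ ∈ decomp (F := F) W) {x : Ω} (hx : W.valuation x < 1) : W.valuation (σ x) < 1 := by
  rw [← ValuationSubring.mem_nonunits_iff, ValuationSubring.mem_nonunits_iff_or] at hx ⊢
  rcases hx with hx | hx
  · left
    rw [hx, map_zero]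
  · right
    intro h
    apply hx
    rw [← map_inv₀] at h
    exact (hσ _).1 h

/-- the conjugate of an algebraic element is algebraic -/
theorem IsAlgebraic.map_aut {c : Ω} (hc : IsAlgebraic K c) (σ : Ω ≃ₐ[F] Ω) :
    IsAlgebraic K (σ c) :=
  (isAlgebraic_algHom_iff ((σ : Ω →ₐ[F] Ω).restrictScalars K) σ.injective).2 hc

/-- the constant congruent to an element fixed by an element of the decomposition group is
fixed -/
theorem const_fixed {W : ValuationSubring Ω} (hW : IsPlace K W) {σ : Ω ≃ₐ[F] Ω}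
    (hσ : σ ∈ decomp (F := F) W) {f c : Ω} (hc : IsAlgebraic K c)
    (hfc : W.valuation (f - c) < 1) (hf : σ f = f) : σ c = c := by
  have h1 := decomp_val_lt_one hσ hfc
  rw [map_sub, hf] at h1
  exact const_unique hW.1 (IsAlgebraic.map_aut hc σ) hc h1 hfc

variable {S : Finset (ValuationSubring F)} {W : ValuationSubring Ω}
  {γ : Ω ≃ₐ[F] Ω} {E : IntermediateField F Ω}

theorem Reduced.regular_translate (h : Reduced K S W γ E) {s : Ω} (hEs : ∀ x ∈ E, x ∈ K⟮s⟯)
    (hsW : s ∉ W) : s ∈ W.comap ((γ⁻¹ : Ω ≃ₐ[F] Ω) : Ω →+* Ω) := by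
  by_contra hcon
  have hs0 : s ≠ 0 := by
    rintro rfl
    exact hsW (zero_mem _)
  have hv : ∀ V : ValuationSubring Ω, s ∉ V → V.valuation s⁻¹ < 1 := by
    intro V hx
    rw [map_inv₀]
    rw [← V.valuation_le_one_iff, not_le] at hx
    exact inv_lt_one_of_one_lt₀ hx
  have hW' : IsPlace K (W.comap ((γ⁻¹ : Ω ≃ₐ[F] Ω) : Ω →+* Ω)) := h.isPlace.comap_aut γ⁻¹
  apply h.ne
  ext x
  rw [ValuationSubring.mem_comap, ValuationSubring.mem_comap]
  have h2 : (x : Ω) ∈ K⟮s⁻¹⟯ := by
    have : K⟮s⟯ ≤ K⟮s⁻¹⟯ := by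
      rw [adjoin_simple_le_iff]
      have := (K⟮s⁻¹⟯).inv_mem (mem_adjoin_simple_self K s⁻¹)
      rwa [inv_inv] at this
    exact this (hEs x x.2)
  exact mem_iff_mem_of_adjoin h.isPlace.1 hW'.1 (inv_ne_zero hs0) (hv _ hsW) (hv _ hcon) h2

/-- The Kummer case: two points with coordinates `P`, `Q` above `S`. -/
theorem Reduced.false_of_two [PerfectField K] [Algebra.IsAlgebraic F Ω] [IsAlgClosed Ω]
    (hF : IsFunctionField K F) (h : Reduced K S W γ E)
    (hdiv : ∀ K' : IntermediateField K (algebraicClosure K Ω), FiniteDimensional K K' →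
      ∀ v ∈ K', v ≠ 0 → (∀ n : ℕ, 0 < n → ∃ c ∈ K', c ^ n = v) → v = 1)
    {s : Ω} (hsE : s ∈ E) (hEs : ∀ x ∈ E, x ∈ K⟮s⟯) (hsW : s ∉ W) {P Q : Ω}
    (hP : IsAlgebraic K P) (hQ : IsAlgebraic K Q) (hPQ : P ≠ Q)
    (hPS : ∀ V : ValuationSubring Ω, IsPlace K V → V.valuation (s - P) < 1 →
      V.comap (algebraMap F Ω) ∈ S)
    (hQS : ∀ V : ValuationSubring Ω, IsPlace K V → V.valuation (s - Q) < 1 →
      V.comap (algebraMap F Ω) ∈ S) : False := by
  have hs := h.transcendental hsW
  have hsP : s ≠ P := by rintro rfl; exact hs hP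
  have hsQ : s ≠ Q := by rintro rfl; exact hs hQ
  have hPQ' : P - Q ≠ 0 := sub_ne_zero.2 hPQ
  have hsP' : s - P ≠ 0 := sub_ne_zero.2 hsP
  have hsQ' : s - Q ≠ 0 := sub_ne_zero.2 hsQ
  have hPQalg : IsAlgebraic K (P - Q) := hP.sub hQ
  set u : Ω := (s - P) / (s - Q) with hu
  have hu0 : u ≠ 0 := div_ne_zero hsP' hsQ'
  -- `u` is a unit at all places above the curve
  have hunit : ∀ V : ValuationSubring Ω, IsPlace K V → V.comap (algebraMap F Ω) ∉ S →
      V.valuation u = 1 := by
    intro V hV hVS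
    have h1 : 1 ≤ V.valuation (s - P) := by
      by_contra hcon
      exact hVS (hPS V hV (not_le.1 hcon))
    have h2 : 1 ≤ V.valuation (s - Q) := by
      by_contra hcon
      exact hVS (hQS V hV (not_le.1 hcon))
    have h3 : V.valuation (P - Q) = 1 := val_eq_one_of_isAlgebraic hV.1 hPQalg hPQ'
    have h4 : V.valuation (s - P) = V.valuation (s - Q) := by
      rcases lt_or_eq_of_le h1 with h5 | h5
      · symm
        apply Valuation.map_eq_of_sub_lt
        have : s - Q - (s - P) = P - Q := by ring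
        rw [this, h3]
        exact h5
      · rcases lt_or_eq_of_le h2 with h6 | h6
        · apply Valuation.map_eq_of_sub_lt
          have : s - P - (s - Q) = -(P - Q) := by ring
          rw [this, Valuation.map_neg, h3]
          exact h6
        · rw [← h5, ← h6]
    rw [hu, map_div₀, h4, div_self]
    exact (Valuation.ne_zero_iff _).2 hsQ'
  -- `u` is congruent to one modulo places where `s` has a pole
  have hone : ∀ V : ValuationSubring Ω, IsPlace K V → s ∉ V → V.valuation (u - 1) < 1 := by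
    intro V hV hsV
    have h1 : u - 1 = -(P - Q) / (s - Q) := by
      rw [hu]
      field_simp
      ring
    have h2 : 1 < V.valuation (s - Q) := by
      rw [← not_le, V.valuation_le_one_iff]
      intro h3
      apply hsV
      have : s = (s - Q) + Q := by ring
      rw [this]
      exact add_mem h3 (mem_of_isAlgebraic hV.1 hQ)
    rw [h1, map_div₀, Valuation.map_neg, val_eq_one_of_isAlgebraic hV.1 hPQalg hPQ', one_div]
    exact inv_lt_one_of_one_lt₀ h2
  have huW := hone W h.isPlace hsW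
  set W2 := W.comap ((γ⁻¹ : Ω ≃ₐ[F] Ω) : Ω →+* Ω) with hW2
  have hW2p : IsPlace K W2 := h.isPlace.comap_aut γ⁻¹
  have hW2S : W2.comap (algebraMap F Ω) ∉ S := by
    have : W2.comap (algebraMap F Ω) = W.comap (algebraMap F Ω) := by
      ext x
      rw [ValuationSubring.mem_comap, hW2, ValuationSubring.mem_comap, ValuationSubring.mem_comap]
      simp
    rw [this]
    exact h.notMem
  set Kb := algebraicClosure K Ω with hKb
  have hcl : IsAlgClosed Kb := (algebraicClosure.isAlgClosure K Ω).isAlgClosed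
  have hnorm : Normal K Kb := ⟨fun x => IsAlgClosed.splits _⟩
  have hgal : IsGalois K Kb := ⟨⟩
  set K' : IntermediateField K Kb := IntermediateField.adjoin K {toConst hP, toConst hQ} with hK'
  have hK'fin : FiniteDimensional K K' := by
    rw [hK']
    exact IntermediateField.finiteDimensional_adjoin fun x _ => Algebra.IsIntegral.isIntegral x
  -- automorphisms in the decomposition group of `W2`
  have hauto : ∀ θ : Kb ≃ₐ[K] Kb, θ ∈ K'.fixingSubgroup → ∃ δ τ : Ω ≃ₐ[F] Ω,
      δ ∈ decomp (F := F) W ∧ τ ∈ decomp (F := F) W2 ∧ δ P = P ∧ δ Q = Q ∧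
      τ * δ⁻¹ ∈ ramSubgroup K Ω S ∧ ∀ c : Kb, τ c = θ c := by
    intro θ hθ
    obtain ⟨δ, hδ, hδθ⟩ := exists_decomp_constRes_eq h.isRational θ
    have hcst : ∀ c : Kb, δ c = θ c := by
      intro c
      rw [← coe_constRes δ c, hδθ]
    rw [IntermediateField.mem_fixingSubgroup_iff] at hθ
    refine ⟨δ, γ * δ * γ⁻¹, hδ, ?_, ?_, ?_, h.comm δ hδ, ?_⟩
    · intro f
      rw [hW2, ValuationSubring.mem_comap, ValuationSubring.mem_comap]
      change γ⁻¹ ((γ * δ * γ⁻¹) f) ∈ W ↔ γ⁻¹ f ∈ W
      have h6 : γ⁻¹ ((γ * δ * γ⁻¹) f) = δ (γ⁻¹ f) := by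
        rw [← AlgEquiv.mul_apply, ← AlgEquiv.mul_apply]
        congr 1
        group
      rw [h6]
      exact hδ _
    · have h1 := hθ (toConst hP) (IntermediateField.subset_adjoin K _ (by simp))
      have h2 := hcst (toConst hP)
      rw [h1] at h2
      exact h2
    · have h1 := hθ (toConst hQ) (IntermediateField.subset_adjoin K _ (by simp))
      have h2 := hcst (toConst hQ)
      rw [h1] at h2
      exact h2
    · intro c
      rw [← hcst c]
      have h1 := congrArg (fun ρ : Kb ≃ₐ[K] Kb => ((ρ c : Kb) : Ω))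
        (constRes_conj (K := K) h.fixConst δ)
      exact h1
  -- constants of fixed elements lie in `K'`
  have hfix : ∀ (f : Ω) (c : Ω) (hc : IsAlgebraic K c), W2.valuation (f - c) < 1 →
      (∀ δ ∈ decomp (F := F) W, δ P = P → δ Q = Q → δ f = f) →
      (∀ ν ∈ ramSubgroup K Ω S, ν f = f) → toConst hc ∈ K' := by
    intro f c hc hfc h1 h2
    rw [← InfiniteGalois.fixedField_fixingSubgroup K', IntermediateField.mem_fixedField_iff]
    intro θ hθ
    obtain ⟨δ, τ, hδ, hτ, hδP, hδQ, hN, hτθ⟩ := hauto θ hθ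
    have h3 : τ f = f := by
      have h4 : τ = (τ * δ⁻¹) * δ := by group
      rw [h4, AlgEquiv.mul_apply, h1 δ hδ hδP hδQ, h2 _ hN]
    have h5 := const_fixed hW2p hτ hc hfc h3
    apply Subtype.ext
    have h6 := hτθ (toConst hc)
    rw [← h6]
    exact h5
  have hνu : ∀ ν ∈ ramSubgroup K Ω S, ν u = u := by
    intro ν hν
    have h1 : ν s = s := h.ram_fix ν hν s hsE
    have h2 : ν P = P := ramSubgroup_fix S hν P hP
    have h3 : ν Q = Q := ramSubgroup_fix S hν Q hQ
    rw [hu, map_div₀, map_sub, map_sub, h1, h2, h3]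
  have hδu : ∀ δ ∈ decomp (F := F) W, δ P = P → δ Q = Q → δ u = u := by
    intro δ hδ h2 h3
    have h1 : δ s = s := h.decomp_fix δ hδ s hsE
    rw [hu, map_div₀, map_sub, map_sub, h1, h2, h3]
  -- the value of `u` at `W2`
  have huW2 : W2.valuation u = 1 := hunit W2 hW2p hW2S
  obtain ⟨v, hv, huv⟩ := exists_const_of_isPlace hF hW2p
    ((W2.valuation_le_one_iff u).1 huW2.le)
  have hv0 : v ≠ 0 := by
    rintro rfl
    rw [sub_zero] at huv
    exact huv.ne huW2
  have hvK' : toConst hv ∈ K' := hfix u v hv huv hδu hνu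
  have hv1 : toConst hv = 1 := by
    refine hdiv K' hK'fin _ hvK' (fun h0 => hv0 (congrArg Subtype.val h0)) fun n hn => ?_
    -- the `n`-th root of `u` with value one at `W`
    obtain ⟨y₀, hy₀⟩ := IsAlgClosed.exists_pow_nat_eq u hn
    have hy₀W : y₀ ∈ W := by
      rw [← W.valuation_le_one_iff]
      have h1 : W.valuation y₀ ^ n = 1 := by
        rw [← map_pow, hy₀]
        exact hunit W h.isPlace h.notMem
      exact (pow_le_one_iff hn.ne').1 h1.le
    obtain ⟨c₀, hc₀, hyc⟩ := exists_const_of_isPlace hF h.isPlace hy₀W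
    have hpow : ∀ (V : ValuationSubring Ω) (x y : Ω), x ∈ V → y ∈ V → V.valuation (x - y) < 1 →
        V.valuation (x ^ n - y ^ n) < 1 := by
      intro V x y hx hy hxy
      obtain ⟨z, hz⟩ := sub_dvd_pow_sub_pow (⟨x, hx⟩ : V) ⟨y, hy⟩ n
      have h1 : x ^ n - y ^ n = (x - y) * z := congrArg Subtype.val hz
      rw [h1, map_mul]
      calc V.valuation (x - y) * V.valuation (z : Ω) ≤ V.valuation (x - y) * 1 :=
            mul_le_mul_right ((V.valuation_le_one_iff _).2 z.2) _
        _ < 1 := by rw [mul_one]; exact hxy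
    have hc₀n : c₀ ^ n = 1 := by
      have h1 := hpow W y₀ c₀ hy₀W (mem_of_isAlgebraic h.isPlace.1 hc₀) hyc
      rw [hy₀] at h1
      exact const_unique h.isPlace.1 (hc₀.pow n) isAlgebraic_one h1 huW
    have hc₀0 : c₀ ≠ 0 := by
      rintro rfl
      rw [zero_pow hn.ne'] at hc₀n
      exact zero_ne_one hc₀n
    set y := y₀ / c₀ with hy
    have hyn : y ^ n = u := by rw [hy, div_pow, hy₀, hc₀n, div_one]
    have hy0 : y ≠ 0 := by
      intro h0
      rw [h0, zero_pow hn.ne'] at hyn
      exact hu0 hyn.symm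
    have hy1 : W.valuation (y - 1) < 1 := by
      have h1 : y - 1 = (y₀ - c₀) / c₀ := by
        rw [hy]
        field_simp
      rw [h1, map_div₀, val_eq_one_of_isAlgebraic h.isPlace.1 hc₀ hc₀0, div_one]
      exact hyc
    have hyunit : ∀ V : ValuationSubring Ω, V.valuation u = 1 → V.valuation y = 1 := by
      intro V hVu
      have h1 : V.valuation y ^ n = 1 := by rw [← map_pow, hyn, hVu]
      exact (pow_eq_one_iff.1 h1).resolve_right hn.ne'
    -- automorphisms fixing `u` change `y` by a root of unity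
    have hzeta : ∀ σ : Ω ≃ₐ[F] Ω, σ u = u → ∀ V : ValuationSubring Ω, IsPlace K V →
        V.valuation y = 1 → V.valuation (σ y - y) < 1 → σ y = y := by
      intro σ hσu V hV hVy hVσ
      set ζ := σ y / y with hζ
      have h1 : ζ ^ n = 1 := by
        rw [hζ, div_pow, ← map_pow, hyn, hσu, div_self hu0]
      have h2 : IsAlgebraic K ζ := by
        have h3 : IsIntegral K ζ := IsIntegral.of_pow hn (by rw [h1]; exact isIntegral_one)
        exact h3.isAlgebraic
      have h3 : V.valuation (ζ - 1) < 1 := by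
        have h4 : ζ - 1 = (σ y - y) / y := by
          rw [hζ]
          field_simp
        rw [h4, map_div₀, hVy, div_one]
        exact hVσ
      have h4 : ζ - 1 = 0 := eq_zero_of_val_lt_one hV.1 (h2.sub isAlgebraic_one) h3
      have h5 : ζ = 1 := sub_eq_zero.1 h4
      rw [hζ, div_eq_one_iff_eq hy0] at h5
      exact h5
    have hνy : ∀ ν ∈ ramSubgroup K Ω S, ν y = y := by
      let T : Subgroup (Ω ≃ₐ[F] Ω) := MulAction.stabilizer (Ω ≃ₐ[F] Ω) y
      have hT : ∀ σ, σ ∈ T ↔ σ y = y := fun σ => MulAction.mem_stabilizer_iff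
      have hTc : IsClosed (T : Set (Ω ≃ₐ[F] Ω)) := by
        have h1 : (T : Set (Ω ≃ₐ[F] Ω)) = {σ : Ω ≃ₐ[F] Ω | σ y ∈ ({y} : Set Ω)} := by
          ext σ
          exact hT σ
        rw [h1]
        exact isClosed_setOf_apply_mem y _
      have hle : ramSubgroup K Ω S ≤ T := by
        refine ramSubgroup_le T hTc fun V hV hVS σ hσ => ?_
        rw [hT]
        have hVy := hyunit V (hunit V hV hVS)
        exact hzeta σ (hνu σ (inertia_le_ramSubgroup hV hVS hσ)) V hV hVy
          (hσ y ((V.valuation_le_one_iff y).1 hVy.le))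
      exact fun ν hν => (hT ν).1 (hle hν)
    have hδy : ∀ δ ∈ decomp (F := F) W, δ P = P → δ Q = Q → δ y = y := by
      intro δ hδ h1 h2
      refine hzeta δ (hδu δ hδ h1 h2) W h.isPlace (hyunit W (hunit W h.isPlace h.notMem)) ?_
      have h3 := decomp_val_lt_one hδ hy1
      rw [map_sub, map_one] at h3
      have h4 : δ y - y = (δ y - 1) - (y - 1) := by ring
      rw [h4]
      exact Valuation.map_sub_lt _ h3 hy1
    have hyW2 : W2.valuation y = 1 := hyunit W2 huW2
    have hyW2m : y ∈ W2 := (W2.valuation_le_one_iff y).1 hyW2.le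
    obtain ⟨c, hc, hyc2⟩ := exists_const_of_isPlace hF hW2p hyW2m
    refine ⟨toConst hc, hfix y c hc hyc2 hδy hνy, ?_⟩
    apply Subtype.ext
    have h1 := hpow W2 y c hyW2m (mem_of_isAlgebraic hW2p.1 hc) hyc2
    rw [hyn] at h1
    exact const_unique hW2p.1 (hc.pow n) hv h1 huv
  -- hence `s` has a pole at `W2`
  have hv1' : v = 1 := congrArg Subtype.val hv1
  rw [hv1'] at huv
  have hsW2 : s ∈ W2 := h.regular_translate hEs hsW
  have h1 : u - 1 = -(P - Q) / (s - Q) := by
    rw [hu]
    field_simp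
    ring
  rw [h1, map_div₀, Valuation.map_neg, val_eq_one_of_isAlgebraic hW2p.1 hPQalg hPQ', one_div] at huv
  have h2 : W2.valuation (s - Q) ≤ 1 :=
    (W2.valuation_le_one_iff _).2 (sub_mem hsW2 (mem_of_isAlgebraic hW2p.1 hQ))
  have h3 : 0 < W2.valuation (s - Q) := zero_lt_iff.2 ((Valuation.ne_zero_iff _).2 hsQ')
  rw [inv_lt_one₀ h3] at huv
  exact absurd h2 (not_le.2 huv)

/-- Genus zero is impossible in characteristic zero if one is the only infinitely divisible
nonzero element of every finite extension of `K`. -/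
theorem Reduced.false_of_charZero [CharZero K] [Algebra.IsAlgebraic F Ω] [IsAlgClosed Ω]
    (hF : IsFunctionField K F) (h : Reduced K S W γ E)
    (hdiv : ∀ K' : IntermediateField K (algebraicClosure K Ω), FiniteDimensional K K' →
      ∀ v ∈ K', v ≠ 0 → (∀ n : ℕ, 0 < n → ∃ c ∈ K', c ^ n = v) → v = 1)
    {s : Ω} (hsE : s ∈ E) (hEs : ∀ x ∈ E, x ∈ K⟮s⟯) (hsW : s ∉ W) : False := by
  obtain ⟨a, b, c, d, hc, hcd, hγs⟩ := h.mobius hsE hEs hsW
  let p : K[X] := C c * X ^ 2 + C (d - a) * X - C b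
  have hpd : p.degree = 2 := by
    have : p = C c * X ^ 2 + C (d - a) * X + C (-b) := by simp [p, sub_eq_add_neg]
    rw [this]
    exact degree_quadratic hc
  obtain ⟨P, hPr⟩ := IsAlgClosed.exists_aeval_eq_zero Ω p (by rw [hpd]; norm_num)
  have hP : IsAlgebraic K P := ⟨p, by
    intro h0
    rw [h0, degree_zero] at hpd
    exact absurd hpd (by decide), hPr⟩
  have hPr' : algebraMap K Ω c * P ^ 2 + (algebraMap K Ω d - algebraMap K Ω a) * P -
      algebraMap K Ω b = 0 := by
    simpa [p] using hPr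
  have hC : algebraMap K Ω c ≠ 0 := by simpa using hc
  have hcomm : ∀ x : K, γ (algebraMap K Ω x) = algebraMap K Ω x := fun x =>
    h.fixConst _ (isAlgebraic_algebraMap x)
  set Q : Ω := (algebraMap K Ω a - algebraMap K Ω d) / algebraMap K Ω c - P with hQ
  have hQalg : IsAlgebraic K Q := by
    rw [hQ, ← map_sub, ← map_div₀]
    exact (isAlgebraic_algebraMap _).sub hP
  have hQr : algebraMap K Ω c * Q ^ 2 + (algebraMap K Ω d - algebraMap K Ω a) * Q -
      algebraMap K Ω b = 0 := by
    rw [hQ]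
    field_simp
    linear_combination (algebraMap K Ω c) * hPr'
  by_cases hPQ : P = Q
  · refine h.false_of_double hsE hsW (hcomm a) (hcomm c) hC hcd hγs hP hPr' ?_
    rw [hQ] at hPQ
    have h1 : algebraMap K Ω c * (P + P) = algebraMap K Ω a - algebraMap K Ω d := by
      nth_rewrite 1 [hPQ]
      field_simp
      ring
    linear_combination h1
  · exact h.false_of_two hF hdiv hsE hEs hsW hP hQalg hPQ
      (fun V hV hVs => h.fixed_mem hF hEs hsW hc hcd hγs hP hPr' hV hVs)
      (fun V hV hVs => h.fixed_mem hF hEs hsW hc hcd hγs hQalg hQr hV hVs)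

end Kummer

end PiCurve
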