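import Mathlib
import Pool.Agent.Helper10.Pi2.Gen0K

/-!
# Genus zero: the unipotent case in characteristic `p`
-/

set_option autoImplicit false

universe u

open Polynomial Topology IntermediateField
open scoped Pointwise

namespace PiCurve

variable {K : Type u} [Field K]
variable {F Ω : Type u} [Field F] [Algebra K F] [Field Ω] [Algebra F Ω] [Algebra K Ω]
  [IsScalarTower K F Ω]
variable {S : Finset (ValuationSubring F)} {W : ValuationSubring Ω}
  {γ : Ω ≃ₐ[F] Ω} {E : IntermediateField F Ω}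

/-- The value at `γ W` of a function fixed by inertia and by the elements of the decomposition
group of `W` that fix `K'` lies in `K'`. -/
theorem Reduced.const_mem [PerfectField K] [Algebra.IsAlgebraic F Ω] [IsAlgClosed Ω]
    (h : Reduced K S W γ E) (K' : IntermediateField K (algebraicClosure K Ω)) {f c : Ω}
    (hc : IsAlgebraic K c)
    (hfc : (W.comap ((γ⁻¹ : Ω ≃ₐ[F] Ω) : Ω →+* Ω)).valuation (f - c) < 1)
    (h1 : ∀ δ ∈ decomp (F := F) W, (∀ x : algebraicClosure K Ω, x ∈ K' → δ (x : Ω) = x) →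
      δ f = f)
    (h2 : ∀ ν ∈ ramSubgroup K Ω S, ν f = f) : toConst hc ∈ K' := by
  set W2 := W.comap ((γ⁻¹ : Ω ≃ₐ[F] Ω) : Ω →+* Ω) with hW2
  have hW2p : IsPlace K W2 := h.isPlace.comap_aut γ⁻¹
  have hcl : IsAlgClosed (algebraicClosure K Ω) := (algebraicClosure.isAlgClosure K Ω).isAlgClosed
  have hnorm : Normal K (algebraicClosure K Ω) := ⟨fun x => IsAlgClosed.splits _⟩
  have hgal : IsGalois K (algebraicClosure K Ω) := ⟨⟩
  rw [← InfiniteGalois.fixedField_fixingSubgroup K', IntermediateField.mem_fixedField_iff]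
  intro θ hθ
  obtain ⟨δ, hδ, hδθ⟩ := exists_decomp_constRes_eq h.isRational θ
  have hcst : ∀ c : algebraicClosure K Ω, δ c = θ c := by
    intro c
    rw [← coe_constRes δ c, hδθ]
  rw [IntermediateField.mem_fixingSubgroup_iff] at hθ
  have hδK' : ∀ x : algebraicClosure K Ω, x ∈ K' → δ (x : Ω) = x := by
    intro x hx
    rw [hcst x, hθ x hx]
  set τ := γ * δ * γ⁻¹ with hτ
  have hτW2 : τ ∈ decomp (F := F) W2 := by
    intro f
    rw [hW2, ValuationSubring.mem_comap, ValuationSubring.mem_comap]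
    change γ⁻¹ (τ f) ∈ W ↔ γ⁻¹ f ∈ W
    have h6 : γ⁻¹ (τ f) = δ (γ⁻¹ f) := by
      rw [← AlgEquiv.mul_apply, ← AlgEquiv.mul_apply]
      congr 1
      rw [hτ]
      group
    rw [h6]
    exact hδ _
  have h3 : τ f = f := by
    have h4 : τ = (γ * δ * γ⁻¹ * δ⁻¹) * δ := by rw [hτ]; group
    rw [h4, AlgEquiv.mul_apply, h1 δ hδ hδK', h2 _ (h.comm δ hδ)]
  have h5 := const_fixed hW2p hτW2 hc hfc h3
  apply Subtype.ext
  have h6 : τ (toConst hc : algebraicClosure K Ω) = θ (toConst hc) := by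
    rw [← hcst (toConst hc)]
    exact congrArg (fun ρ : algebraicClosure K Ω ≃ₐ[K] algebraicClosure K Ω => ((ρ (toConst hc) : algebraicClosure K Ω) : Ω))
      (constRes_conj (K := K) h.fixConst δ)
  rw [← h6]
  exact h5

/-- roots of `x ^ p - x = a` are integral over `a` -/
theorem mem_of_pow_sub_mem {V : ValuationSubring Ω} {p : ℕ} (hp : 1 < p) {x : Ω}
    (hx : x ^ p - x ∈ V) : x ∈ V := by
  by_contra hxV
  rw [← V.valuation_le_one_iff, not_le] at hxV
  have h1 : V.valuation (x ^ p - x) = V.valuation (x ^ p) := by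
    apply Valuation.map_eq_of_sub_lt
    have h2 : x ^ p - x - x ^ p = -x := by ring
    rw [h2, Valuation.map_neg, map_pow]
    exact lt_self_pow₀ hxV hp
  have h2 : V.valuation x ^ p ≤ 1 := by
    rw [← map_pow, ← h1]
    exact (V.valuation_le_one_iff _).2 hx
  exact absurd ((pow_le_one_iff (by omega)).1 h2) (not_le.2 hxV)

/-- The Artin-Schreier case: a point with coordinate `P` above `S`. -/
theorem Reduced.false_of_charP [PerfectField K] [Algebra.IsAlgebraic F Ω] [IsAlgClosed Ω]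
    (hF : IsFunctionField K F) (h : Reduced K S W γ E) (p : ℕ) [Fact p.Prime] [CharP K p]
    (hAS : ∀ K' : IntermediateField K (algebraicClosure K Ω), FiniteDimensional K K' →
      ∃ β ∈ K', ∀ c ∈ K', c ^ p - c ≠ β)
    {s : Ω} (hsE : s ∈ E) (hEs : ∀ x ∈ E, x ∈ K⟮s⟯) (hsW : s ∉ W) {P : Ω}
    (hP : IsAlgebraic K P)
    (hPS : ∀ V : ValuationSubring Ω, IsPlace K V → V.valuation (s - P) < 1 →
      V.comap (algebraMap F Ω) ∈ S) : False := by
  have hp1 : 1 < p := (Fact.out : p.Prime).one_lt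
  have hcharΩ : CharP Ω p := charP_of_injective_algebraMap (algebraMap K Ω).injective p
  have hs := h.transcendental hsW
  have hsP : s - P ≠ 0 := by
    intro h0
    apply hs
    rw [sub_eq_zero.1 h0]
    exact hP
  set t : Ω := (s - P)⁻¹ with ht
  have ht0 : t ≠ 0 := inv_ne_zero hsP
  set W2 := W.comap ((γ⁻¹ : Ω ≃ₐ[F] Ω) : Ω →+* Ω) with hW2
  have hW2p : IsPlace K W2 := h.isPlace.comap_aut γ⁻¹
  have hW2S : W2.comap (algebraMap F Ω) ∉ S := by
    have : W2.comap (algebraMap F Ω) = W.comap (algebraMap F Ω) := by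
      ext x
      rw [ValuationSubring.mem_comap, hW2, ValuationSubring.mem_comap, ValuationSubring.mem_comap]
      simp
    rw [this]
    exact h.notMem
  -- `t` is regular above the curve
  have htV : ∀ V : ValuationSubring Ω, IsPlace K V → V.comap (algebraMap F Ω) ∉ S → t ∈ V := by
    intro V hV hVS
    have h1 : 1 ≤ V.valuation (s - P) := by
      by_contra hcon
      exact hVS (hPS V hV (not_le.1 hcon))
    rw [← V.valuation_le_one_iff, ht, map_inv₀]
    exact inv_le_one_of_one_le₀ h1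
  have htW : W.valuation t < 1 := by
    have h1 : 1 < W.valuation (s - P) := by
      rw [← not_le, W.valuation_le_one_iff]
      intro h3
      apply hsW
      have : s = (s - P) + P := by ring
      rw [this]
      exact add_mem h3 (mem_of_isAlgebraic h.isPlace.1 hP)
    rw [ht, map_inv₀]
    exact inv_lt_one_of_one_lt₀ h1
  have hsW2 : s ∈ W2 := h.regular_translate hEs hsW
  have htW2 : t ∈ W2 := htV W2 hW2p hW2S
  have htW2' : W2.valuation t = 1 := by
    apply le_antisymm ((W2.valuation_le_one_iff t).2 htW2)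
    have h1 : W2.valuation (s - P) ≤ 1 :=
      (W2.valuation_le_one_iff _).2 (sub_mem hsW2 (mem_of_isAlgebraic hW2p.1 hP))
    rw [ht, map_inv₀]
    exact (one_le_inv₀ (zero_lt_iff.2 ((Valuation.ne_zero_iff _).2 hsP))).2 h1
  obtain ⟨t₀, ht₀, htt₀⟩ := exists_const_of_isPlace hF hW2p htW2
  have ht₀0 : t₀ ≠ 0 := by
    rintro rfl
    rw [sub_zero] at htt₀
    exact htt₀.ne htW2'
  set Kb := algebraicClosure K Ω with hKb
  set K' : IntermediateField K Kb := IntermediateField.adjoin K {toConst hP} with hK'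
  have hK'fin : FiniteDimensional K K' := by
    rw [hK']
    exact IntermediateField.finiteDimensional_adjoin fun x _ => Algebra.IsIntegral.isIntegral x
  have hδt : ∀ δ ∈ decomp (F := F) W, (∀ x : Kb, x ∈ K' → δ (x : Ω) = x) → δ t = t := by
    intro δ hδ h1
    have h2 : δ P = P := h1 (toConst hP) (IntermediateField.subset_adjoin K _ (by simp))
    rw [ht, map_inv₀, map_sub, h.decomp_fix δ hδ s hsE, h2]
  have hνt : ∀ ν ∈ ramSubgroup K Ω S, ν t = t := by
    intro ν hν
    rw [ht, map_inv₀, map_sub, h.ram_fix ν hν s hsE, ramSubgroup_fix S hν P hP]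
  have ht₀K' : toConst ht₀ ∈ K' := h.const_mem K' ht₀ htt₀ hδt hνt
  obtain ⟨β, hβK', hβ⟩ := hAS K' hK'fin
  have hβalg : IsAlgebraic K (β : Ω) := mem_algebraicClosure_iff.1 β.2
  set r : Ω := (β : Ω) / t₀ with hr
  have hralg : IsAlgebraic K r := by
    rw [hr, div_eq_mul_inv]
    exact hβalg.mul ht₀.inv
  set a : Ω := r * t with ha
  obtain ⟨y₀, hy₀⟩ : ∃ y₀ : Ω, y₀ ^ p - y₀ = a := by
    have hdeg : (X ^ p - X - C a : Polynomial Ω).degree ≠ 0 := by
      have h1 : (X ^ p - X - C a : Polynomial Ω) = X ^ p - (X + C a) := by ring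
      have h2 : (X + C a : Polynomial Ω).degree < (X ^ p : Polynomial Ω).degree := by
        rw [degree_X_add_C, degree_X_pow]
        exact_mod_cast hp1
      rw [h1, degree_sub_eq_left_of_degree_lt h2, degree_X_pow]
      exact_mod_cast (by omega : p ≠ 0)
    obtain ⟨y₀, hy₀⟩ := IsAlgClosed.exists_root _ hdeg
    refine ⟨y₀, ?_⟩
    simp only [IsRoot.def, eval_sub, eval_pow, eval_X, eval_C] at hy₀
    exact sub_eq_zero.1 hy₀
  have haV : ∀ V : ValuationSubring Ω, IsPlace K V → V.comap (algebraMap F Ω) ∉ S → a ∈ V :=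
    fun V hV hVS => mul_mem (mem_of_isAlgebraic hV.1 hralg) (htV V hV hVS)
  have haW : W.valuation a < 1 := by
    rw [ha, map_mul]
    calc W.valuation r * W.valuation t ≤ 1 * W.valuation t :=
          mul_le_mul_left ((W.valuation_le_one_iff _).2
            (mem_of_isAlgebraic h.isPlace.1 hralg)) _
      _ < 1 := by rw [one_mul]; exact htW
  have hpow : ∀ (V : ValuationSubring Ω) (x y : Ω), V.valuation (x - y) < 1 →
      V.valuation ((x ^ p - x) - (y ^ p - y)) < 1 := by
    intro V x y hxy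
    have h1 : (x ^ p - x) - (y ^ p - y) = (x - y) ^ p - (x - y) := by
      rw [sub_pow_char]
      ring
    rw [h1]
    refine Valuation.map_sub_lt _ ?_ hxy
    rw [map_pow]
    exact pow_lt_one₀ zero_le hxy (by omega)
  have hy₀W : y₀ ∈ W := mem_of_pow_sub_mem hp1 (by
    rw [hy₀]
    exact haV W h.isPlace h.notMem)
  obtain ⟨c₀, hc₀, hyc⟩ := exists_const_of_isPlace hF h.isPlace hy₀W
  have hc₀p : c₀ ^ p - c₀ = 0 := by
    apply eq_zero_of_val_lt_one h.isPlace.1 ((hc₀.pow p).sub hc₀)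
    have h1 := hpow W y₀ c₀ hyc
    rw [hy₀] at h1
    have h2 : c₀ ^ p - c₀ = a - (a - (c₀ ^ p - c₀)) := by ring
    rw [h2]
    exact Valuation.map_sub_lt _ haW h1
  set y := y₀ - c₀ with hy
  have hyp : y ^ p - y = a := by
    rw [hy, sub_pow_char, ← hy₀]
    linear_combination -hc₀p
  -- automorphisms fixing `a`
  have hdiff : ∀ σ : Ω ≃ₐ[F] Ω, σ a = a → ∀ V : ValuationSubring Ω, IsPlace K V →
      V.valuation (σ y - y) < 1 → σ y = y := by
    intro σ hσa V hV hVσ
    have h1 : (σ y - y) ^ p - (σ y - y) = 0 := by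
      rw [sub_pow_char, ← map_pow]
      have h2 : y ^ p = a + y := by rw [← hyp]; ring
      rw [h2, map_add, hσa]
      ring
    have h2 : IsAlgebraic K (σ y - y) := by
      refine ⟨X ^ p - X, ?_, by simpa using h1⟩
      exact FiniteField.X_pow_card_sub_X_ne_zero K hp1
    exact sub_eq_zero.1 (eq_zero_of_val_lt_one hV.1 h2 hVσ)
  have hνa : ∀ ν ∈ ramSubgroup K Ω S, ν a = a := by
    intro ν hν
    rw [ha, map_mul, hνt ν hν, ramSubgroup_fix S hν r hralg]
  have hδa : ∀ δ ∈ decomp (F := F) W, (∀ x : Kb, x ∈ K' → δ (x : Ω) = x) → δ a = a := by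
    intro δ hδ h1
    have h2 : δ t₀ = t₀ := h1 (toConst ht₀) ht₀K'
    have h3 : δ (β : Ω) = β := h1 β hβK'
    rw [ha, map_mul, hδt δ hδ h1, hr, map_div₀, h2, h3]
  have hνy : ∀ ν ∈ ramSubgroup K Ω S, ν y = y := by
    let T : Subgroup (Ω ≃ₐ[F] Ω) := MulAction.stabilizer (Ω ≃ₐ[F] Ω) y
    have hT : ∀ σ, σ ∈ T ↔ σ y = y := fun σ => MulAction.mem_stabilizer_iff
    have hTc : IsClosed (T : Set (Ω ≃ₐ[F] Ω)) := by
      have h1 : (T : Set (Ω ≃ₐ[F] Ω)) = {σ : Ω ≃ₐ[F] Ω | σ y ∈ ({y} : Set Ω)} := by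
        ext σ
        exact hT σ
      rw [h1]
      exact isClosed_setOf_apply_mem y _
    have hle : ramSubgroup K Ω S ≤ T := by
      refine ramSubgroup_le T hTc fun V hV hVS σ hσ => ?_
      rw [hT]
      have hyV : y ∈ V := mem_of_pow_sub_mem hp1 (by
        rw [hyp]
        exact haV V hV hVS)
      exact hdiff σ (hνa σ (inertia_le_ramSubgroup hV hVS hσ)) V hV (hσ y hyV)
    exact fun ν hν => (hT ν).1 (hle hν)
  have hδy : ∀ δ ∈ decomp (F := F) W, (∀ x : Kb, x ∈ K' → δ (x : Ω) = x) → δ y = y := by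
    intro δ hδ h1
    exact hdiff δ (hδa δ hδ h1) W h.isPlace (Valuation.map_sub_lt _ (decomp_val_lt_one hδ hyc) hyc)
  have hyW2 : y ∈ W2 := mem_of_pow_sub_mem hp1 (by
    rw [hyp]
    exact haV W2 hW2p hW2S)
  obtain ⟨c, hc, hyc2⟩ := exists_const_of_isPlace hF hW2p hyW2
  have hcK' : toConst hc ∈ K' := h.const_mem K' hc hyc2 hδy hνy
  apply hβ _ hcK'
  apply Subtype.ext
  change c ^ p - c = (β : Ω)
  have h1 := hpow W2 y c hyc2
  rw [hyp] at h1
  refine const_unique hW2p.1 ((hc.pow p).sub hc) hβalg h1 ?_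
  have h2 : a - (β : Ω) = r * (t - t₀) := by
    rw [ha, hr]
    field_simp
  rw [h2, map_mul]
  calc W2.valuation r * W2.valuation (t - t₀) ≤ 1 * W2.valuation (t - t₀) :=
        mul_le_mul_left ((W2.valuation_le_one_iff _).2 (mem_of_isAlgebraic hW2p.1 hralg)) _
    _ < 1 := by rw [one_mul]; exact htt₀

end PiCurve
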