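import Mathlib
import Pool.Agent.Helper10.Pi2.Trans
import Pool.Agent.Helper10.Pi2.Const

/-!
# Residue fields of valuation rings in finite extensions

`V` a valuation ring of an algebraic extension `M/K` such that the residue field of `V ∩ K` is
finite.  Then, for every finite extension `K'` of `K` inside `M`, the residue field of `V ∩ K'` is
contained in a fixed finite field.
-/

set_option autoImplicit false

universe u

open Polynomial IntermediateField

namespace PiCurve

theorem ff_pow {κ M : Type u} [Field κ] [Finite κ] [Field M] [Algebra κ M] {x : M} (p : κ[X])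
    (hp : p ≠ 0) (hx : aeval x p = 0) {d : ℕ} (hd : p.natDegree ≤ d) :
    x ^ (Nat.card κ ^ d.factorial) = x := by
  have hint : IsIntegral κ x := IsAlgebraic.isIntegral ⟨p, hp, hx⟩
  set j := (minpoly κ x).natDegree with hj
  have hj1 : 0 < j := minpoly.natDegree_pos hint
  have hjd : j ≤ d := le_trans (natDegree_le_of_dvd (minpoly.dvd κ x hx) hp) hd
  have hfd : FiniteDimensional κ κ⟮x⟯ := adjoin.finiteDimensional hint
  have hfin : Finite κ⟮x⟯ := Module.finite_of_finite κ
  have : Fintype κ⟮x⟯ := Fintype.ofFinite _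
  have : Fintype κ := Fintype.ofFinite _
  have hcard : Fintype.card κ⟮x⟯ = Fintype.card κ ^ j := by
    rw [Module.card_eq_pow_finrank (K := κ) (V := κ⟮x⟯), adjoin.finrank hint]
  obtain ⟨m, hm⟩ := Nat.dvd_factorial hj1 hjd
  have h1 := FiniteField.pow_card_pow (K := κ⟮x⟯) m (AdjoinSimple.gen κ x)
  rw [hcard, ← pow_mul, ← hm] at h1
  have h2 := congrArg (algebraMap κ⟮x⟯ M) h1
  rw [map_pow, AdjoinSimple.algebraMap_gen] at h2
  rw [Nat.card_eq_fintype_card]
  exact h2

section Residue

variable {K M : Type u} [Field K] [Field M] [Algebra K M]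

/-- the map from `V ∩ K` to `V` -/
def comapMap (V : ValuationSubring M) : V.comap (algebraMap K M) →+* V where
  toFun x := ⟨algebraMap K M x, x.2⟩
  map_one' := Subtype.ext (by simp)
  map_mul' _ _ := Subtype.ext (by simp)
  map_zero' := Subtype.ext (by simp)
  map_add' _ _ := Subtype.ext (by simp)

instance isLocalHom_comapMap (V : ValuationSubring M) :
    IsLocalHom (comapMap (K := K) V) where
  map_nonunit a ha := by
    have h0 : (a : K) ≠ 0 := by
      intro h
      have h1 : comapMap V a = 0 := by
        apply Subtype.ext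
        change algebraMap K M a = 0
        rw [h, map_zero]
      rw [h1] at ha
      exact not_isUnit_zero ha
    obtain ⟨b, hb⟩ := ha.exists_right_inv
    have h1 : algebraMap K M a * (b : M) = 1 := congrArg Subtype.val hb
    have h2 : (b : M) = algebraMap K M (a : K)⁻¹ := by
      rw [map_inv₀]
      exact eq_inv_of_mul_eq_one_right h1
    have h3 : (a : K)⁻¹ ∈ V.comap (algebraMap K M) := by
      rw [ValuationSubring.mem_comap, ← h2]
      exact b.2
    exact ⟨⟨a, ⟨_, h3⟩, Subtype.ext (mul_inv_cancel₀ h0), Subtype.ext (inv_mul_cancel₀ h0)⟩, rfl⟩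

theorem residue_eq_zero_iff_val (V : ValuationSubring M) (x : V) :
    IsLocalRing.residue V x = 0 ↔ V.valuation (x : M) < 1 := by
  rw [IsLocalRing.residue_eq_zero_iff, ValuationSubring.valuation_lt_one_iff]

/-- elements of a finite extension reduce to elements of a fixed finite field -/
theorem exists_pow_sub_lt (V : ValuationSubring M)
    [Finite (IsLocalRing.ResidueField (V.comap (algebraMap K M)))]
    (K' : IntermediateField K M) [FiniteDimensional K K'] :
    ∃ N : ℕ, 1 < N ∧ ∀ c ∈ K', c ∈ V → V.valuation (c ^ N - c) < 1 := by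
  set O := V.comap (algebraMap K M) with hO
  set κ := IsLocalRing.ResidueField O with hκ
  let φ : κ →+* IsLocalRing.ResidueField V := IsLocalRing.ResidueField.map (comapMap V)
  let : Algebra κ (IsLocalRing.ResidueField V) := φ.toAlgebra
  set d := Module.finrank K K' with hd
  refine ⟨Nat.card κ ^ d.factorial, Nat.one_lt_pow (Nat.factorial_ne_zero d)
    Finite.one_lt_card, fun c hc hcV => ?_⟩
  -- a normalised polynomial
  have hint : IsIntegral K (⟨c, hc⟩ : K') := Algebra.IsIntegral.isIntegral _
  set p := minpoly K (⟨c, hc⟩ : K') with hp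
  have hp0 : p ≠ 0 := minpoly.ne_zero hint
  have hpc : aeval c p = 0 := by
    have h1 := minpoly.aeval K (⟨c, hc⟩ : K')
    have h2 := congrArg (algebraMap K' M) h1
    rw [map_zero, ← aeval_algebraMap_apply] at h2
    exact h2
  have hpd : p.natDegree ≤ d := minpoly.natDegree_le _
  obtain ⟨q, j, u, hq, hj, hqV, -⟩ := exists_normalised O p hp0
  have hqc : aeval c q = 0 := by rw [hq]; simp [hpc]
  have hqd : q.natDegree ≤ d := by
    rw [hq]
    exact le_trans (natDegree_C_mul_le _ _) hpd
  have hlift : q ∈ Polynomial.lifts (algebraMap O K) := by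
    rw [Polynomial.lifts_iff_coeff_lifts]
    intro i
    exact ⟨⟨q.coeff i, hqV i⟩, rfl⟩
  obtain ⟨Q, hQ⟩ := (Polynomial.mem_lifts _).1 hlift
  have hQcoeff : ∀ i, ((Q.coeff i : O) : K) = q.coeff i := by
    intro i
    rw [← hQ, coeff_map]
    rfl
  have hQd : Q.natDegree ≤ d := by
    rw [← hQ, natDegree_map_eq_of_injective (FaithfulSMul.algebraMap_injective O K)] at hqd
    exact hqd
  set Qb : κ[X] := Q.map (IsLocalRing.residue O) with hQb
  have hQb0 : Qb ≠ 0 := by
    intro h0
    have h1 := congrArg (fun f => f.coeff j) h0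
    simp only [hQb, coeff_map, coeff_zero] at h1
    have h2 : Q.coeff j = 1 := Subtype.ext (by rw [hQcoeff, hj]; rfl)
    rw [h2, map_one] at h1
    exact one_ne_zero h1
  have hQbd : Qb.natDegree ≤ d := le_trans natDegree_map_le hQd
  have hroot : aeval (IsLocalRing.residue V ⟨c, hcV⟩) Qb = 0 := by
    have h1 : Q.eval₂ (comapMap V) ⟨c, hcV⟩ = 0 := by
      apply Subtype.ext
      have h2 : ((Q.eval₂ (comapMap V) ⟨c, hcV⟩ : V) : M) =
          Q.eval₂ ((V.subtype).comp (comapMap V)) c := by
        have := hom_eval₂ Q (comapMap V) V.subtype ⟨c, hcV⟩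
        exact this
      rw [h2]
      have h3 : (V.subtype).comp (comapMap V) = (algebraMap K M).comp (algebraMap O K) := rfl
      rw [h3, ← eval₂_map, hQ]
      exact hqc
    rw [aeval_def, hQb, eval₂_map]
    have h4 : (algebraMap κ (IsLocalRing.ResidueField V)).comp (IsLocalRing.residue O) =
        (IsLocalRing.residue V).comp (comapMap V) := by
      ext x
      rfl
    rw [h4, ← hom_eval₂, h1, map_zero]
  have hfinal := ff_pow Qb hQb0 hroot hQbd
  have h5 : c ^ (Nat.card κ ^ d.factorial) - c =
      (((⟨c, hcV⟩ : V) ^ (Nat.card κ ^ d.factorial) - ⟨c, hcV⟩ : V) : M) := rfl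
  rw [h5, ← residue_eq_zero_iff_val, map_sub, map_pow, hfinal, sub_self]

/-- The divisibility condition of the Kummer argument. -/
theorem eq_one_of_divisible_of_finite_residue (K' : IntermediateField K M)
    [FiniteDimensional K K']
    (hFV : ∀ T : Finset M, (∀ t ∈ T, t ≠ 0) → ∃ V : ValuationSubring M,
      (∀ t ∈ T, t ∈ V ∧ t⁻¹ ∈ V) ∧
      Finite (IsLocalRing.ResidueField (V.comap (algebraMap K M))))
    {v : M} (hv0 : v ≠ 0) (h : ∀ n : ℕ, 0 < n → ∃ c ∈ K', c ^ n = v) :
    v = 1 := by
  classical
  by_contra hv1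
  obtain ⟨V, hT, hfin⟩ := hFV {v, v - 1} (by
    intro t ht
    rw [Finset.mem_insert, Finset.mem_singleton] at ht
    rcases ht with rfl | rfl
    · exact hv0
    · exact sub_ne_zero.2 hv1)
  have hvV := hT v (by simp)
  have hv1V := hT (v - 1) (by simp)
  obtain ⟨N, hN, hNc⟩ := exists_pow_sub_lt V K'
  obtain ⟨c, hc, hcn⟩ := h (N - 1) (by omega)
  have hcV : c ∈ V := by
    rw [← V.valuation_le_one_iff] at hvV ⊢
    have h1 : V.valuation c ^ (N - 1) ≤ 1 := by rw [← map_pow, hcn]; exact hvV.1
    exact (pow_le_one_iff (by omega)).1 h1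
  have h1 := hNc c hc hcV
  have h2 : c ^ N - c = c * (v - 1) := by
    have : c ^ N = c * c ^ (N - 1) := by
      rw [← pow_succ']
      congr 1
      omega
    rw [this, hcn]
    ring
  rw [h2, map_mul] at h1
  have h3 : V.valuation (v - 1) = 1 := by
    apply le_antisymm ((V.valuation_le_one_iff _).2 hv1V.1)
    have h4 := (V.valuation_le_one_iff _).2 hv1V.2
    rw [map_inv₀, inv_le_one₀ (zero_lt_iff.2 ((Valuation.ne_zero_iff _).2
      (sub_ne_zero.2 hv1)))] at h4
    exact h4
  have h5 : V.valuation v = 1 := by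
    apply le_antisymm ((V.valuation_le_one_iff _).2 hvV.1)
    have h4 := (V.valuation_le_one_iff _).2 hvV.2
    rw [map_inv₀, inv_le_one₀ (zero_lt_iff.2 ((Valuation.ne_zero_iff _).2 hv0))] at h4
    exact h4
  rw [h3, mul_one] at h1
  have h6 : V.valuation v < 1 := by
    rw [← hcn, map_pow]
    exact pow_lt_one₀ zero_le h1 (by omega)
  exact h6.ne h5

/-- The Artin-Schreier condition. -/
theorem exists_not_artinSchreier (K' : IntermediateField K M) [FiniteDimensional K K']
    (V : ValuationSubring M) [Finite (IsLocalRing.ResidueField (V.comap (algebraMap K M)))]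
    (p : ℕ) (hp : 1 < p) : ∃ β ∈ K', ∀ c ∈ K', c ^ p - c ≠ β := by
  classical
  -- the residue field of `V ∩ K'` is finite
  obtain ⟨N, hN, hNc⟩ := exists_pow_sub_lt V K'
  set O' := V.comap (algebraMap K' M) with hO'
  set κ' := IsLocalRing.ResidueField O' with hκ'
  have hall : ∀ x : κ', x ^ N = x := by
    intro x
    obtain ⟨y, rfl⟩ := IsLocalRing.residue_surjective x
    have h1 := hNc (algebraMap K' M (y : K')) (y : K').2 y.2
    have h2 : O'.valuation (((y : K')) ^ N - y) < 1 := (comap_val_lt_one V _).2 h1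
    have h3 : IsLocalRing.residue O' (y ^ N - y) = 0 := by
      rw [residue_eq_zero_iff_val]
      exact h2
    rw [map_sub, map_pow] at h3
    exact sub_eq_zero.1 h3
  have hfin : Finite κ' := by
    have h1 : (Set.univ : Set κ') ⊆ ((X ^ N - X : κ'[X]).roots.toFinset : Set κ') := by
      intro x _
      rw [Finset.mem_coe, Multiset.mem_toFinset,
        mem_roots (FiniteField.X_pow_card_sub_X_ne_zero κ' hN)]
      simp [hall x]
    exact Set.finite_univ_iff.1 (Set.Finite.subset (Finset.finite_toSet _) h1)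
  have hns : ¬ Function.Surjective fun x : κ' => x ^ p - x := by
    rw [← Finite.injective_iff_surjective]
    intro hinj
    have h1 : (0 : κ') = 1 := hinj (by simp [zero_pow (by omega : p ≠ 0)])
    exact zero_ne_one h1
  rw [Function.Surjective] at hns
  push Not at hns
  obtain ⟨b, hb⟩ := hns
  obtain ⟨β, rfl⟩ := IsLocalRing.residue_surjective b
  refine ⟨(β : K'), (β : K').2, fun c hc hcβ => ?_⟩
  -- `c` is in `V`
  have hβV : algebraMap K' M (β : K') ∈ V := β.2
  have hcV : c ∈ V := by
    by_contra hcV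
    rw [← V.valuation_le_one_iff, not_le] at hcV
    have h1 : V.valuation (c ^ p - c) = V.valuation (c ^ p) := by
      apply Valuation.map_eq_of_sub_lt
      have h2 : c ^ p - c - c ^ p = -c := by ring
      rw [h2, Valuation.map_neg, map_pow]
      exact lt_self_pow₀ hcV hp
    rw [hcβ, map_pow] at h1
    have h2 : V.valuation c ^ p ≤ 1 := by
      rw [← h1]
      exact (V.valuation_le_one_iff _).2 hβV
    exact absurd ((pow_le_one_iff (by omega)).1 h2) (not_le.2 hcV)
  have hc' : (⟨c, hc⟩ : K') ∈ O' := hcV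
  apply hb (IsLocalRing.residue O' ⟨⟨c, hc⟩, hc'⟩)
  rw [← map_pow, ← map_sub]
  congr 1
  apply Subtype.ext
  apply Subtype.ext
  exact hcβ

end Residue

end PiCurve
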