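import Mathlib
import Pool.Agent.Helper10.Pi2.Gen0P
import Pool.Agent.Helper10.Pi2.ResFin

/-!
# Genus zero: the general case
-/

set_option autoImplicit false

universe u

open Polynomial Topology IntermediateField
open scoped Pointwise

namespace PiCurve

variable {K : Type u} [Field K]
variable {F Ω : Type u} [Field F] [Algebra K F] [Field Ω] [Algebra F Ω] [Algebra K Ω]
  [IsScalarTower K F Ω]
variable {S : Finset (ValuationSubring F)} {W : ValuationSubring Ω}
  {γ : Ω ≃ₐ[F] Ω} {E : IntermediateField F Ω}

/-- Genus zero is impossible for perfect fields such that every finite set of nonzero elements of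
the algebraic closure consists of units at some valuation ring with finite residue field on `K`. -/
theorem Reduced.genus_zero_false [PerfectField K] [Algebra.IsAlgebraic F Ω] [IsAlgClosed Ω]
    (hF : IsFunctionField K F) (h : Reduced K S W γ E)
    (hFV : ∀ T : Finset (algebraicClosure K Ω), (∀ t ∈ T, t ≠ 0) →
      ∃ V : ValuationSubring (algebraicClosure K Ω), (∀ t ∈ T, t ∈ V ∧ t⁻¹ ∈ V) ∧
      Finite (IsLocalRing.ResidueField (V.comap (algebraMap K (algebraicClosure K Ω)))))
    {s : Ω} (hsE : s ∈ E) (hEs : ∀ x ∈ E, x ∈ K⟮s⟯) (hsW : s ∉ W) : False := by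
  obtain ⟨a, b, c, d, hc, hcd, hγs⟩ := h.mobius hsE hEs hsW
  let p : K[X] := C c * X ^ 2 + C (d - a) * X - C b
  have hpd : p.degree = 2 := by
    have : p = C c * X ^ 2 + C (d - a) * X + C (-b) := by simp [p, sub_eq_add_neg]
    rw [this]
    exact degree_quadratic hc
  obtain ⟨P, hPr⟩ := IsAlgClosed.exists_aeval_eq_zero Ω p (by rw [hpd]; norm_num)
  have hP : IsAlgebraic K P := ⟨p, by
    intro h0
    rw [h0, degree_zero] at hpd
    exact absurd hpd (by decide), hPr⟩
  have hPr' : algebraMap K Ω c * P ^ 2 + (algebraMap K Ω d - algebraMap K Ω a) * P -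
      algebraMap K Ω b = 0 := by
    simpa [p] using hPr
  have hC : algebraMap K Ω c ≠ 0 := by simpa using hc
  have hcomm : ∀ x : K, γ (algebraMap K Ω x) = algebraMap K Ω x := fun x =>
    h.fixConst _ (isAlgebraic_algebraMap x)
  set Q : Ω := (algebraMap K Ω a - algebraMap K Ω d) / algebraMap K Ω c - P with hQ
  have hQalg : IsAlgebraic K Q := by
    rw [hQ, ← map_sub, ← map_div₀]
    exact (isAlgebraic_algebraMap _).sub hP
  have hQr : algebraMap K Ω c * Q ^ 2 + (algebraMap K Ω d - algebraMap K Ω a) * Q -
      algebraMap K Ω b = 0 := by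
    rw [hQ]
    field_simp
    linear_combination (algebraMap K Ω c) * hPr'
  by_cases hPQ : P = Q
  · obtain ⟨q, hq⟩ := ExpChar.exists K
    rcases hq with hq | hq
    · -- characteristic zero
      refine h.false_of_double hsE hsW (hcomm a) (hcomm c) hC hcd hγs hP hPr' ?_
      rw [hQ] at hPQ
      have h1 : algebraMap K Ω c * (P + P) = algebraMap K Ω a - algebraMap K Ω d := by
        nth_rewrite 1 [hPQ]
        field_simp
        ring
      linear_combination h1
    · -- characteristic `q`
      have : Fact q.Prime := ⟨hq⟩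
      refine h.false_of_charP hF q (fun K' hK' => ?_) hsE hEs hsW hP
        (fun V hV hVs => h.fixed_mem hF hEs hsW hc hcd hγs hP hPr' hV hVs)
      obtain ⟨V, -, hV⟩ := hFV ∅ (by simp)
      exact exists_not_artinSchreier K' V q hq.one_lt
  · exact h.false_of_two hF
      (fun K' hK' v _ hv0 hn => eq_one_of_divisible_of_finite_residue K' hFV hv0 hn)
      hsE hEs hsW hP hQalg hPQ
      (fun V hV hVs => h.fixed_mem hF hEs hsW hc hcd hγs hP hPr' hV hVs)
      (fun V hV hVs => h.fixed_mem hF hEs hsW hc hcd hγs hQalg hQr hV hVs)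

end PiCurve
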