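import Mathlib
import Pool.Agent.Helper10.Pi2.Sep

/-!
# Reduction to perfect constant fields

`K` is any field, `K₁` the perfect closure of `K` in `Ω`.  The statement for a function field
`F/K` follows from the statement for `F K₁ / K₁`.
-/

set_option autoImplicit false

universe u

open Polynomial Topology IntermediateField
open scoped Pointwise

namespace PiCurve

section Imp

variable {K F Ω : Type u} [Field K] [Field F] [Algebra K F] [Field Ω] [Algebra F Ω] [Algebra K Ω]
  [IsScalarTower K F Ω]

variable (K F Ω) in
/-- the compositum of `F` and the perfect closure of `K` -/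
def compos : IntermediateField F Ω := IntermediateField.adjoin F (perfectClosure K Ω : Set Ω)

/-- the constants embed into the compositum -/
noncomputable def constEmb : perfectClosure K Ω →+* compos K F Ω where
  toFun x := ⟨x, IntermediateField.subset_adjoin F _ x.2⟩
  map_one' := rfl
  map_mul' _ _ := rfl
  map_zero' := rfl
  map_add' _ _ := rfl

noncomputable instance algebraCompos : Algebra (perfectClosure K Ω) (compos K F Ω) := constEmb.toAlgebra

instance towerCompos : IsScalarTower (perfectClosure K Ω) (compos K F Ω) Ω :=
  IsScalarTower.of_algebraMap_eq fun _ => rfl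

instance towerCompos' : IsScalarTower K (perfectClosure K Ω) (compos K F Ω) :=
  IsScalarTower.of_algebraMap_eq fun _ => rfl

theorem compos_pow_mem (q : ℕ) [ExpChar F q] (x : Ω) (hx : x ∈ compos K F Ω) :
    ∃ (n : ℕ) (e : F), x ^ q ^ n = algebraMap F Ω e := by
  have h1 : compos K F Ω ≤ perfectClosure F Ω := by
    rw [compos, IntermediateField.adjoin_le_iff]
    intro y hy
    have hqK : ExpChar K q := (algebraMap K F).expChar (algebraMap K F).injective q
    obtain ⟨n, a, ha⟩ := (mem_perfectClosure_iff_pow_mem (F := K) q).1 hy
    refine (mem_perfectClosure_iff_pow_mem (F := F) q).2 ⟨n, algebraMap K F a, ?_⟩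
    rw [← IsScalarTower.algebraMap_apply, ha]
  obtain ⟨n, e, he⟩ := (mem_perfectClosure_iff_pow_mem (F := F) q).1 (h1 hx)
  exact ⟨n, e, he.symm⟩

/-- the compositum is a function field over the perfect closure -/
theorem isFunctionField_compos [Algebra.IsAlgebraic F Ω] (hF : IsFunctionField K F) :
    IsFunctionField (perfectClosure K Ω) (compos K F Ω) := by
  classical
  obtain ⟨t, ht, hfin⟩ := hF
  set K₁ := perfectClosure K Ω with hK₁
  set F₁ := compos K F Ω with hF₁
  have htK : Transcendental K (algebraMap F Ω t) :=
    (transcendental_algebraMap_iff (algebraMap F Ω).injective).2 ht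
  have htK₁ : Transcendental K₁ (algebraMap F Ω t) := by
    intro h
    exact htK (h.restrictScalars K)
  set t₁ : F₁ := algebraMap F F₁ t with ht₁
  have ht₁' : Transcendental K₁ t₁ := by
    rw [← transcendental_algebraMap_iff (algebraMap F₁ Ω).injective]
    exact htK₁
  refine ⟨t₁, ht₁', ?_⟩
  set L := IntermediateField.adjoin K₁ {t₁} with hL
  -- elements of `K(t)` lie in `L`
  have hKt : ∀ c ∈ IntermediateField.adjoin K {t}, algebraMap F F₁ c ∈ L := by
    intro c hc
    obtain ⟨r, s, hrs⟩ := (mem_adjoin_simple_iff K c).1 hc
    have hpol : ∀ p : K[X], algebraMap F F₁ (aeval t p) = aeval t₁ (p.map (algebraMap K K₁)) := by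
      intro p
      rw [← aeval_algebraMap_apply, aeval_map_algebraMap]
    rw [hL, mem_adjoin_simple_iff]
    refine ⟨r.map (algebraMap K K₁), s.map (algebraMap K K₁), ?_⟩
    rw [← hpol, ← hpol, hrs, map_div₀]
  obtain ⟨b, hb⟩ := hfin
  set M : IntermediateField L F₁ := IntermediateField.adjoin L
    ((b.image (algebraMap F F₁) : Finset F₁) : Set F₁) with hM
  have halgF₁ : Algebra.IsAlgebraic F F₁ := inferInstance
  have hFM : ∀ f : F, algebraMap F F₁ f ∈ M := by
    intro f
    have hf : f ∈ Submodule.span (IntermediateField.adjoin K {t}) (b : Set F) := by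
      rw [hb]
      trivial
    induction hf using Submodule.span_induction with
    | mem x hx =>
      apply IntermediateField.subset_adjoin
      rw [Finset.coe_image]
      exact ⟨x, hx, rfl⟩
    | zero => rw [map_zero]; exact zero_mem _
    | add x y _ _ hx hy => rw [map_add]; exact add_mem hx hy
    | smul c x _ hx =>
      have h1 : algebraMap F F₁ (c • x) = algebraMap F F₁ (c : F) * algebraMap F F₁ x := by
        rw [← map_mul]
        rfl
      rw [h1]
      refine mul_mem ?_ hx
      exact M.algebraMap_mem (⟨_, hKt c c.2⟩ : L)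
  have hMtop : ∀ x : F₁, x ∈ M := by
    let N : IntermediateField F Ω := Subfield.toIntermediateField
      (M.toSubfield.map (algebraMap F₁ Ω)) (fun f => ⟨algebraMap F F₁ f, hFM f, rfl⟩)
    have hN : F₁ ≤ N := by
      rw [hF₁, compos, IntermediateField.adjoin_le_iff]
      intro y hy
      refine ⟨algebraMap K₁ F₁ ⟨y, hy⟩, ?_, rfl⟩
      exact M.algebraMap_mem (algebraMap K₁ L ⟨y, hy⟩)
    intro x
    obtain ⟨y, hy, hyx⟩ := hN x.2
    have : y = x := Subtype.ext hyx
    rw [← this]
    exact hy
  have hbint : ∀ x ∈ ((b.image (algebraMap F F₁) : Finset F₁) : Set F₁), IsIntegral L x := by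
    intro x hx
    rw [Finset.coe_image] at hx
    obtain ⟨f, hf, rfl⟩ := hx
    -- `f` is algebraic over `K(t)`
    have hfd : FiniteDimensional (IntermediateField.adjoin K {t}) F := ⟨⟨b, hb⟩⟩
    obtain ⟨p, hp0, hpf⟩ := Algebra.IsAlgebraic.isAlgebraic
      (R := IntermediateField.adjoin K {t}) f
    let φ : IntermediateField.adjoin K {t} →+* L :=
      { toFun := fun c => ⟨algebraMap F F₁ c, hKt c c.2⟩
        map_one' := Subtype.ext (by simp)
        map_mul' := fun x y => Subtype.ext (by simp)
        map_zero' := Subtype.ext (by simp)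
        map_add' := fun x y => Subtype.ext (by simp) }
    refine IsAlgebraic.isIntegral ⟨p.map φ, ?_, ?_⟩
    · exact (Polynomial.map_ne_zero_iff φ.injective).2 hp0
    · rw [aeval_def, eval₂_map]
      have h1 : (algebraMap L F₁).comp φ =
          (algebraMap F F₁).comp (algebraMap (IntermediateField.adjoin K {t}) F) := by
        ext c
        rfl
      rw [h1, ← hom_eval₂]
      rw [aeval_def] at hpf
      rw [hpf, map_zero]
  have hfdM : FiniteDimensional L M := by
    have : Finite ((b.image (algebraMap F F₁) : Finset F₁) : Set F₁) := Finset.finite_toSet _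
    exact IntermediateField.finiteDimensional_adjoin hbint
  have htop : M = ⊤ := by
    rw [eq_top_iff]
    intro x _
    exact hMtop x
  rw [htop] at hfdM
  exact (IntermediateField.topEquiv (F := L) (E := F₁)).toLinearEquiv.finiteDimensional

end Imp

end PiCurve
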