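import Mathlib

/-!
# Infinitely divisible elements of number fields
-/

set_option autoImplicit false

universe u

open Polynomial IntermediateField

namespace PiCurve

section NF

variable {L : Type u} [Field L] [NumberField L]

open IsDedekindDomain NumberField

theorem val_eq_one_of_divisible {v : L} (hv : v ≠ 0)
    (h : ∀ n : ℕ, 0 < n → ∃ c : L, c ^ n = v) (p : HeightOneSpectrum (𝓞 L)) :
    p.valuation L v = 1 := by
  have hne : p.valuation L v ≠ 0 := (Valuation.ne_zero_iff _).2 hv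
  obtain ⟨m, hm⟩ := WithZero.ne_zero_iff_exists.1 hne
  set k : ℤ := Multiplicative.toAdd m with hk
  obtain ⟨c, hc⟩ := h (k.natAbs + 1) (Nat.succ_pos _)
  have hc0 : c ≠ 0 := by
    rintro rfl
    rw [zero_pow (Nat.succ_ne_zero _)] at hc
    exact hv hc.symm
  have hne' : p.valuation L c ≠ 0 := (Valuation.ne_zero_iff _).2 hc0
  obtain ⟨l, hl⟩ := WithZero.ne_zero_iff_exists.1 hne'
  have h1 : p.valuation L c ^ (k.natAbs + 1) = p.valuation L v := by rw [← map_pow, hc]
  rw [← hl, ← hm, ← WithZero.coe_pow, WithZero.coe_inj] at h1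
  have h2' : Multiplicative.toAdd m = (k.natAbs + 1) • Multiplicative.toAdd l := by
    rw [← h1, toAdd_pow]
  have h2 : ((k.natAbs + 1 : ℕ) : ℤ) * Multiplicative.toAdd l = k := by
    rw [← nsmul_eq_mul, ← h2']
  have h3 : k = 0 := by
    by_contra hk0
    have h4 : ((k.natAbs + 1 : ℕ) : ℤ) ∣ k := ⟨_, h2.symm⟩
    have h5 := Int.natAbs_dvd_natAbs.2 h4
    have h6 := Nat.le_of_dvd (Int.natAbs_pos.2 hk0) h5
    simp only [Int.natAbs_natCast] at h6
    omega
  rw [← hm]
  have h7 : m = 1 := by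
    apply Multiplicative.toAdd.injective
    rw [← hk, h3]
    rfl
  rw [h7]
  rfl

theorem exists_integer_of_divisible {v : L} (hv : v ≠ 0)
    (h : ∀ n : ℕ, 0 < n → ∃ c : L, c ^ n = v) : ∃ w : 𝓞 L, algebraMap (𝓞 L) L w = v := by
  apply HeightOneSpectrum.mem_integers_of_valuation_le_one
  intro p
  rw [val_eq_one_of_divisible hv h p]

theorem eq_one_of_divisible {v : L} (hv : v ≠ 0)
    (h : ∀ n : ℕ, 0 < n → ∃ c : L, c ^ n = v) : v = 1 := by
  obtain ⟨w, hw⟩ := exists_integer_of_divisible hv h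
  have h' : ∀ n : ℕ, 0 < n → ∃ c : L, c ^ n = v⁻¹ := by
    intro n hn
    obtain ⟨c, hc⟩ := h n hn
    exact ⟨c⁻¹, by rw [inv_pow, hc]⟩
  obtain ⟨w', hw'⟩ := exists_integer_of_divisible (inv_ne_zero hv) h'
  have hunit : w * w' = 1 := by
    apply FaithfulSMul.algebraMap_injective (𝓞 L) L
    rw [map_mul, hw, hw', map_one, mul_inv_cancel₀ hv]
  suffices h1 : w - 1 = 0 by
    rw [← hw, sub_eq_zero.1 h1, map_one]
  by_contra hx
  obtain ⟨M, hMm, hxM⟩ : ∃ M : Ideal (𝓞 L), M.IsMaximal ∧ w - 1 ∉ M := by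
    set N := Ideal.absNorm (Ideal.span {w - 1}) with hN
    have hN0 : N ≠ 0 := by
      rw [hN, Ne, Ideal.absNorm_eq_zero_iff, Ideal.span_singleton_eq_bot]
      exact hx
    obtain ⟨p, hpN, hp⟩ := Nat.exists_infinite_primes (N + 1)
    have hpf : Fact p.Prime := ⟨hp⟩
    have hpm : (Ideal.span {(p : ℤ)}).IsMaximal := Int.ideal_span_isMaximal_of_prime p
    obtain ⟨M, hM, hMp⟩ := Ideal.exists_ideal_over_maximal_of_isIntegral (S := 𝓞 L)
      (Ideal.span {(p : ℤ)}) (by
        rw [(RingHom.injective_iff_ker_eq_bot _).1 (FaithfulSMul.algebraMap_injective ℤ (𝓞 L))]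
        exact bot_le)
    refine ⟨M, hM, fun hxM => ?_⟩
    have h1 : (N : 𝓞 L) ∈ M := by
      have h2 := Ideal.absNorm_mem (Ideal.span {w - 1})
      exact (Ideal.span_singleton_le_iff_mem M).2 hxM h2
    have h2 : (N : ℤ) ∈ Ideal.span {(p : ℤ)} := by
      rw [← hMp, Ideal.mem_comap, map_natCast]
      exact h1
    rw [Ideal.mem_span_singleton, Int.natCast_dvd_natCast] at h2
    have h3 := Nat.le_of_dvd (Nat.pos_of_ne_zero hN0) h2
    omega
  apply hxM
  have hM0 : M ≠ ⊥ := Ring.ne_bot_of_isMaximal_of_not_isField hMm (RingOfIntegers.not_isField L)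
  have hfin : Finite (𝓞 L ⧸ M) := Ideal.finiteQuotientOfFreeOfNeBot M hM0
  have hfint : Fintype (𝓞 L ⧸ M) := Fintype.ofFinite _
  let inst : Field (𝓞 L ⧸ M) := Ideal.Quotient.field M
  set q := Fintype.card (𝓞 L ⧸ M) with hq
  have hq1 : 1 < q := Fintype.one_lt_card
  obtain ⟨c, hc⟩ := h (q - 1) (by omega)
  have hcint : IsIntegral ℤ c := by
    refine IsIntegral.of_pow (n := q - 1) (by omega) ?_
    rw [hc, ← hw]
    exact w.2
  obtain ⟨c', hc'⟩ : ∃ c' : 𝓞 L, algebraMap (𝓞 L) L c' = c :=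
    (IsIntegralClosure.isIntegral_iff (A := 𝓞 L)).1 hcint
  have hcw : c' ^ (q - 1) = w := by
    apply FaithfulSMul.algebraMap_injective (𝓞 L) L
    rw [map_pow, hw, ← hc, hc']
  have hcM : (Ideal.Quotient.mk M c') ≠ 0 := by
    intro h0
    have h1 : Ideal.Quotient.mk M w = 0 := by
      rw [← hcw, map_pow, h0, zero_pow (by omega)]
    have h2 : (1 : 𝓞 L ⧸ M) = 0 := by
      rw [← map_one (Ideal.Quotient.mk M), ← hunit, map_mul, h1, zero_mul]
    exact one_ne_zero h2
  have h3 := FiniteField.pow_card_sub_one_eq_one _ hcM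
  rw [← hq, ← map_pow, hcw, ← map_one (Ideal.Quotient.mk M), Ideal.Quotient.eq] at h3
  exact h3

end NF

/-- Number fields satisfy the divisibility condition of the Kummer argument. -/
theorem hdiv_numberField (K : Type u) [Field K] [NumberField K] (M : Type u) [Field M]
    [Algebra K M] :
    ∀ K' : IntermediateField K M, FiniteDimensional K K' →
      ∀ v ∈ K', v ≠ 0 → (∀ n : ℕ, 0 < n → ∃ c ∈ K', c ^ n = v) → v = 1 := by
  intro K' hK' v hv hv0 h
  have hc : CharZero K' := charZero_of_injective_algebraMap (algebraMap K K').injective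
  have hfd : FiniteDimensional ℚ K' := Module.Finite.trans K K'
  have : NumberField K' := { }
  have h1 : (⟨v, hv⟩ : K') = 1 := by
    apply eq_one_of_divisible
    · intro h0
      exact hv0 (congrArg Subtype.val h0)
    · intro n hn
      obtain ⟨c, hc, hcn⟩ := h n hn
      exact ⟨⟨c, hc⟩, Subtype.ext hcn⟩
  exact congrArg Subtype.val h1

end PiCurve
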